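import Mathlib

/-!
# MP_8b37c6_an : definitions

`M u s` is the supremum of `|u|` on the open ball of radius `s` about the origin, `Admissible n ρ r R α` says that the
exponent `α` is admissible, `aStar n ρ r R` is the optimal exponent, `gam n a b` is the value found.
-/

namespace TB

open Metric InnerProductSpace

/-- the supremum of `|u|` on the open ball of radius `s` about the origin -/
noncomputable def M {n : ℕ} (u : EuclideanSpace ℝ (Fin n) → ℂ) (s : ℝ) : ℝ :=
  ⨆ x : ball (0 : EuclideanSpace ℝ (Fin n)) s, ‖u x‖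

/-- the exponent `α` is admissible: the three balls inequality holds for every complex valued harmonic function on the
open ball of radius `R` that is bounded there -/
def Admissible (n : ℕ) (ρ r R α : ℝ) : Prop :=
  ∀ u : EuclideanSpace ℝ (Fin n) → ℂ, HarmonicOnNhd u (ball 0 R) →
    (∃ C : ℝ, ∀ x ∈ ball (0 : EuclideanSpace ℝ (Fin n)) R, ‖u x‖ ≤ C) →
    M u r ≤ (M u ρ) ^ α * (M u R) ^ (1 - α)

/-- the optimal exponent: the supremum of the admissible exponents in `(0,1)` -/
noncomputable def aStar (n : ℕ) (ρ r R : ℝ) : ℝ :=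
  sSup {α : ℝ | 0 < α ∧ α < 1 ∧ Admissible n ρ r R α}

/-- the exponent `(1-b)(1+a)^(n-1) / ((1-a)(1+b)^(n-1))` -/
noncomputable def gam (n : ℕ) (a b : ℝ) : ℝ :=
  (1 - b) * (1 + a) ^ (n - 1) / ((1 - a) * (1 + b) ^ (n - 1))

end TB
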