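import Pool.Agent.Lib.MP_8b37c6_an.Defs

section

/-!
# Working notation
-/

namespace TB

open Metric MeasureTheory InnerProductSpace

/-- the space -/
abbrev E (n : ℕ) := EuclideanSpace ℝ (Fin n)

/-- uniform probability measure on the unit sphere: the law of `x / |x|` for `x` uniform in the unit ball -/
noncomputable def sig (n : ℕ) : Measure (E n) :=
  ((volume (ball (0 : E n) 1))⁻¹ • (volume.restrict (ball (0 : E n) 1))).map (fun x => ‖x‖⁻¹ • x)

/-- Poisson kernel of the unit ball (pole `ζ`) -/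
noncomputable def Pk {n : ℕ} (x ζ : E n) : ℝ := (1 - ‖x‖ ^ 2) / ‖x - ζ‖ ^ n

/-- square of the ratio of distances, normalised -/
noncomputable def Rr (a b t : ℝ) : ℝ := (1 + a ^ 2 - 2 * a * t) * (1 + b) ^ 2 / ((1 + b ^ 2 - 2 * b * t) * (1 + a) ^ 2)

noncomputable def q1 (a b : ℝ) : ℝ := (1 + b) ^ 2 * (1 + a ^ 2) / ((1 + a) ^ 2 * (1 + b ^ 2))

noncomputable def c0 (a b : ℝ) : ℝ := (b - a) * (1 - a * b) / 8

noncomputable def Lq (n : ℕ) (a b : ℝ) : ℝ := (√(q1 a b)) ^ n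

noncomputable def p1 (n : ℕ) (a : ℝ) : ℝ := ((√(1 + a ^ 2)) ^ n)⁻¹

/-- the inequalities that hold for large `n` -/
structure Good (n : ℕ) (a b : ℝ) : Prop where
  n6 : 6 ≤ n
  L4 : 4 ≤ Lq n a b
  g3 : 4 * (√3) ^ n * (4 * p1 n a) ^ (((n : ℝ) - 5) / 4) ≤ 1
  g4 : 4 * p1 n a ≤ c0 a b ^ 2 / 4
  g5 : ∃ k : ℕ, b < a ^ ((1 / 2 : ℝ) ^ k) ∧ gam n a b ≤ (1 / 2 : ℝ) ^ k / 2 ∧
    n * Real.log (2 / (a ^ ((1 / 2 : ℝ) ^ k) - b)) ≤ (1 / 2 : ℝ) ^ k * Lq n a b / 8

/-- the theorem for a real harmonic function near the closed unit ball -/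
def UnitThm (n : ℕ) (a b : ℝ) : Prop :=
  ∀ v : E n → ℝ, HarmonicOnNhd v (closedBall (0 : E n) 1) → (∀ x : E n, ‖x‖ ≤ 1 → |v x| ≤ 1) →
    ∀ m : ℝ, (∀ x : E n, ‖x‖ ≤ a → |v x| ≤ m) → ∀ e : E n, ‖e‖ = 1 → v (b • e) ≤ m ^ gam n a b

end TB
end

section

namespace TB

open Metric MeasureTheory InnerProductSpace Laplacian

theorem Pk_nonneg {n : ℕ} {x ζ : E n} (hx : ‖x‖ ≤ 1) : 0 ≤ Pk x ζ := by
  unfold Pk
  have h0 : 0 ≤ ‖x‖ := norm_nonneg x
  have h1 : 0 ≤ 1 - ‖x‖ ^ 2 := by nlinarith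
  exact div_nonneg h1 (pow_nonneg (norm_nonneg _) n)

/-- `|x - ζ| ≥ 1 - |x|` -/
theorem Pk_le {n : ℕ} {x ζ : E n} (hx : ‖x‖ < 1) (hζ : ‖ζ‖ = 1) :
    Pk x ζ ≤ (1 - ‖x‖ ^ 2) / (1 - ‖x‖) ^ n := by
  unfold Pk
  have h0 : 0 ≤ ‖x‖ := norm_nonneg x
  have h1 : 0 ≤ 1 - ‖x‖ ^ 2 := by nlinarith
  have h2 : 1 - ‖x‖ ≤ ‖x - ζ‖ := by
    have h3 := norm_sub_norm_le ζ x
    rw [hζ, norm_sub_rev] at h3
    exact h3
  have h4 : 0 < 1 - ‖x‖ := by linarith
  exact div_le_div_of_nonneg_left h1 (pow_pos h4 n) (pow_le_pow_left₀ h4.le h2 n)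

/-- `|x - ζ| ≤ 1 + |x|` -/
theorem le_Pk {n : ℕ} {x ζ : E n} (hx : ‖x‖ < 1) (hζ : ‖ζ‖ = 1) :
    (1 - ‖x‖ ^ 2) / (1 + ‖x‖) ^ n ≤ Pk x ζ := by
  unfold Pk
  have h0 : 0 ≤ ‖x‖ := norm_nonneg x
  have h1 : 0 ≤ 1 - ‖x‖ ^ 2 := by nlinarith
  have h2 : ‖x - ζ‖ ≤ 1 + ‖x‖ := by
    have h3 := norm_sub_le x ζ
    rw [hζ] at h3
    linarith
  have h5 : 0 < ‖x - ζ‖ := by
    have h3 := norm_sub_norm_le ζ x
    rw [hζ, norm_sub_rev] at h3
    linarith
  exact div_le_div_of_nonneg_left h1 (pow_pos h5 n) (pow_le_pow_left₀ h5.le h2 n)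

private theorem norm_smul_sub_sq {n : ℕ} {ζ η : E n} (hζ : ‖ζ‖ = 1) (hη : ‖η‖ = 1) (r : ℝ) :
    ‖r • ζ - η‖ ^ 2 = r ^ 2 - 2 * r * ⟪ζ, η⟫_ℝ + 1 := by
  rw [norm_sub_sq_real, norm_smul, real_inner_smul_left, mul_pow, hζ, hη, Real.norm_eq_abs, sq_abs]
  ring

/-- both norms `|r ζ - η|`, `|r η - ζ|` squared are `r^2 - 2 r <ζ, η> + 1` -/
theorem Pk_symm {n : ℕ} {ζ η : E n} (hζ : ‖ζ‖ = 1) (hη : ‖η‖ = 1) (r : ℝ) : Pk (r • ζ) η = Pk (r • η) ζ := by
  have h1 : ‖r • ζ - η‖ = ‖r • η - ζ‖ := by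
    have h2 : ‖r • ζ - η‖ ^ 2 = ‖r • η - ζ‖ ^ 2 := by
      rw [norm_smul_sub_sq hζ hη, norm_smul_sub_sq hη hζ, real_inner_comm]
    exact (pow_left_inj₀ (norm_nonneg _) (norm_nonneg _) (by norm_num)).1 h2
  unfold Pk
  rw [h1, norm_smul, norm_smul, hζ, hη]

/-- quotient of continuous functions -/
theorem Pk_meas (n : ℕ) : Measurable (fun p : E n × E n => Pk p.1 p.2) := by
  unfold Pk
  refine Measurable.div ?_ ?_
  · exact (continuous_const.sub (continuous_fst.norm.pow 2)).measurable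
  · exact ((continuous_fst.sub continuous_snd).norm.pow n).measurable

/-- `|s e - ζ|^2 = 1 - 2 s <ζ, e> + s^2` -/
theorem norm_axis {n : ℕ} {e ζ : E n} (he : ‖e‖ = 1) (hζ : ‖ζ‖ = 1) (s : ℝ) :
    ‖s • e - ζ‖ ^ 2 = 1 - 2 * s * ⟪ζ, e⟫_ℝ + s ^ 2 := by
  rw [norm_smul_sub_sq he hζ, real_inner_comm]
  ring

/-- the value at the centre -/
theorem Pk_zero {n : ℕ} {ζ : E n} (hζ : ‖ζ‖ = 1) : Pk 0 ζ = 1 := by
  unfold Pk
  rw [zero_sub, norm_neg, hζ, norm_zero]
  norm_num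

end TB
end

section

section

namespace TB

open Metric MeasureTheory InnerProductSpace Laplacian

private theorem g1_sq {n : ℕ} {e ζ : E n} (he : ‖e‖ = 1) (hζ : ‖ζ‖ = 1) (s : ℝ) :
    ‖s • e - ζ‖ ^ 2 = 1 + s ^ 2 - 2 * s * ⟪ζ, e⟫_ℝ := by
  rw [norm_sub_sq_real, norm_smul, real_inner_smul_left, mul_pow, hζ, he, Real.norm_eq_abs, sq_abs,
    real_inner_comm]
  ring

private theorem g1_pos {n : ℕ} {e ζ : E n} (he : ‖e‖ = 1) (hζ : ‖ζ‖ = 1) {s : ℝ} (hs : 0 < s) (hs1 : s < 1) :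
    0 < ‖s • e - ζ‖ := by
  have h := norm_sub_norm_le ζ (s • e)
  rw [norm_smul, he, hζ, Real.norm_eq_abs, abs_of_pos hs, norm_sub_rev] at h
  linarith

/-- Ratio of the kernels at two points of an axis.  Proof: `Pk (s e) ζ = (1 - s^2) / (1 - 2 s t + s^2)^(n/2)` with
`t = <ζ, e>` (`norm_axis`), and `gam n a b = ((1 - b^2)/(1 - a^2)) ((1+a)/(1+b))^n` (`n ≥ 1`); everything is positive. -/
theorem Pk_ratio {n : ℕ} (hn : 1 ≤ n) {a b : ℝ} (ha : 0 < a) (hab : a < b) (hb : b < 1) {e ζ : E n} (he : ‖e‖ = 1)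
    (hζ : ‖ζ‖ = 1) :
    Pk (b • e) ζ = gam n a b * (Rr a b ⟪ζ, e⟫_ℝ) ^ ((n : ℝ) / 2) * Pk (a • e) ζ := by
  have hb0 : 0 < b := ha.trans hab
  have ha1 : a < 1 := hab.trans hb
  have hDa := g1_pos he hζ ha ha1
  have hDb := g1_pos he hζ hb0 hb
  have hsa := g1_sq he hζ a
  have hsb := g1_sq he hζ b
  have hR : Rr a b ⟪ζ, e⟫_ℝ = (‖a • e - ζ‖ * (1 + b) / (‖b • e - ζ‖ * (1 + a))) ^ 2 := by
    unfold Rr
    rw [← hsa, ← hsb, div_pow, mul_pow, mul_pow]
  have hq : 0 ≤ ‖a • e - ζ‖ * (1 + b) / (‖b • e - ζ‖ * (1 + a)) := by positivity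
  have hpow : (Rr a b ⟪ζ, e⟫_ℝ) ^ ((n : ℝ) / 2) = (‖a • e - ζ‖ * (1 + b) / (‖b • e - ζ‖ * (1 + a))) ^ n := by
    rw [hR, ← Real.rpow_natCast _ 2, ← Real.rpow_mul hq]
    have h2 : ((2 : ℕ) : ℝ) * ((n : ℝ) / 2) = (n : ℝ) := by push_cast; ring
    rw [h2, Real.rpow_natCast]
  rw [hpow]
  obtain ⟨m, rfl⟩ : ∃ m, n = m + 1 := ⟨n - 1, by omega⟩
  unfold Pk gam
  have hna : ‖a • e‖ = a := by rw [norm_smul, he, Real.norm_eq_abs, abs_of_pos ha, mul_one]
  have hnb : ‖b • e‖ = b := by rw [norm_smul, he, Real.norm_eq_abs, abs_of_pos hb0, mul_one]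
  rw [hna, hnb, Nat.add_sub_cancel, div_pow, mul_pow, mul_pow]
  have h1a : (1 - a) ≠ 0 := by linarith
  have h2a : (1 + a) ≠ 0 := by positivity
  have h2b : (1 + b) ≠ 0 := by positivity
  have hDa' := hDa.ne'
  have hDb' := hDb.ne'
  generalize ‖a • e - ζ‖ = x at *
  generalize ‖b • e - ζ‖ = y at *
  rw [pow_succ (1 + a) m, pow_succ (1 + b) m]
  field_simp
  ring

/-- `(1 + a^2 - 2 a t)(1+b)^2 - (1 + b^2 - 2 b t)(1+a)^2 = 2 (1+t)(b-a)(1-ab)` and the denominator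
`(1 + b^2 - 2 b t)(1+a)^2` is positive and at most `16`. -/
theorem Rr_ge {a b t : ℝ} (ha : 0 < a) (hab : a < b) (hb : b < 1) (ht : -1 ≤ t) (ht1 : t ≤ 1) :
    1 + c0 a b * (1 + t) ≤ Rr a b t := by
  have hb0 : 0 < b := ha.trans hab
  have ha1 : a < 1 := hab.trans hb
  unfold Rr c0
  have hd : 0 < 1 + b ^ 2 - 2 * b * t := by nlinarith [mul_nonneg hb0.le (sub_nonneg.2 ht1), sq_nonneg (1 - b)]
  have hd4 : 1 + b ^ 2 - 2 * b * t ≤ 4 := by nlinarith [mul_nonneg hb0.le (by linarith : (0 : ℝ) ≤ 1 + t)]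
  have ha2 : 0 < (1 + a) ^ 2 := by positivity
  have ha4 : (1 + a) ^ 2 ≤ 4 := by nlinarith
  have hD : 0 < (1 + b ^ 2 - 2 * b * t) * (1 + a) ^ 2 := mul_pos hd ha2
  have hD16 : (1 + b ^ 2 - 2 * b * t) * (1 + a) ^ 2 ≤ 16 := by
    calc (1 + b ^ 2 - 2 * b * t) * (1 + a) ^ 2 ≤ 4 * 4 := mul_le_mul hd4 ha4 ha2.le (by norm_num)
      _ = 16 := by norm_num
  have hnn : 0 ≤ (b - a) * (1 - a * b) * (1 + t) := by
    have h1 : 0 ≤ b - a := by linarith
    have h2 : 0 ≤ 1 - a * b := by nlinarith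
    have h3 : 0 ≤ 1 + t := by linarith
    positivity
  rw [le_div_iff₀ hD]
  nlinarith [mul_le_mul_of_nonneg_left hD16 hnn]

/-- `(1 + a^2 - 2 a t)(1+b^2) - (1 + b^2 - 2 b t)(1+a^2) = 2 t (b-a)(1-ab) ≥ 0` -/
theorem Rr_ge_pos {a b t : ℝ} (ha : 0 < a) (hab : a < b) (hb : b < 1) (ht : 0 ≤ t) (ht1 : t ≤ 1) :
    q1 a b ≤ Rr a b t := by
  have hb0 : 0 < b := ha.trans hab
  have ha1 : a < 1 := hab.trans hb
  unfold Rr q1
  have hd : 0 < 1 + b ^ 2 - 2 * b * t := by nlinarith [mul_nonneg hb0.le (sub_nonneg.2 ht1), sq_nonneg (1 - b)]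
  have hD : 0 < (1 + b ^ 2 - 2 * b * t) * (1 + a) ^ 2 := mul_pos hd (by positivity)
  have hE : 0 < (1 + a) ^ 2 * (1 + b ^ 2) := by positivity
  rw [div_le_div_iff₀ hE hD]
  have hnn : 0 ≤ t * ((b - a) * (1 - a * b)) := by
    have h1 : 0 ≤ b - a := by linarith
    have h2 : 0 ≤ 1 - a * b := by nlinarith
    positivity
  have hP : 0 ≤ (1 + b) ^ 2 * (1 + a) ^ 2 := by positivity
  nlinarith [mul_nonneg hP hnn]

/-- `0 < gam < 1` for `n ≥ 1` -/
theorem gam_pos {n : ℕ} {a b : ℝ} (ha : 0 < a) (hab : a < b) (hb : b < 1) : 0 < gam n a b := by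
  have hb0 : 0 < b := ha.trans hab
  have ha1 : a < 1 := hab.trans hb
  have h1 : 0 < 1 - a := by linarith
  have h2 : 0 < 1 - b := by linarith
  unfold gam
  positivity

theorem gam_lt_one {n : ℕ} {a b : ℝ} (ha : 0 < a) (hab : a < b) (hb : b < 1) : gam n a b < 1 := by
  have hb0 : 0 < b := ha.trans hab
  have ha1 : a < 1 := hab.trans hb
  have h1 : 0 < 1 - a := by linarith
  have h2 : 0 < 1 - b := by linarith
  unfold gam
  rw [div_lt_one (by positivity)]
  have h3 : (1 + a) ^ (n - 1) ≤ (1 + b) ^ (n - 1) := pow_le_pow_left₀ (by linarith) (by linarith) _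
  have h4 : (0 : ℝ) < (1 + b) ^ (n - 1) := by positivity
  calc (1 - b) * (1 + a) ^ (n - 1) ≤ (1 - b) * (1 + b) ^ (n - 1) := mul_le_mul_of_nonneg_left h3 h2.le
    _ < (1 - a) * (1 + b) ^ (n - 1) := mul_lt_mul_of_pos_right (by linarith) h4

end TB
end

section

namespace TB

open Metric MeasureTheory InnerProductSpace Laplacian

/-- The supremum is an upper bound when `u` is bounded on the ball. -/
theorem le_M {n : ℕ} {u : E n → ℂ} {s C : ℝ} (hC : ∀ x ∈ ball (0 : E n) s, ‖u x‖ ≤ C) {x : E n} (hx : ‖x‖ < s) :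
    ‖u x‖ ≤ M u s := by
  unfold M
  refine le_ciSup (f := fun x : ball (0 : E n) s => ‖u x‖) ?_ (⟨x, by simpa using hx⟩ : ball (0 : E n) s)
  refine ⟨C, ?_⟩
  rintro _ ⟨y, rfl⟩
  exact hC y y.2

theorem M_le {n : ℕ} {u : E n → ℂ} {s C : ℝ} (hs : 0 < s) (hC : ∀ x : E n, ‖x‖ < s → ‖u x‖ ≤ C) : M u s ≤ C := by
  unfold M
  haveI : Nonempty (ball (0 : E n) s) := ⟨⟨0, by simpa using hs⟩⟩
  refine ciSup_le ?_
  rintro ⟨x, hx⟩
  exact hC x (by simpa using hx)

theorem M_nonneg {n : ℕ} (u : E n → ℂ) (s : ℝ) : 0 ≤ M u s := by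
  unfold M
  exact Real.iSup_nonneg fun x => norm_nonneg _

/-- If `‖u x‖ ≤ g |x|` for `|x| < s`, with equality at the points `t e` (`0 ≤ t < s`) of a half line, and `g` is continuous and
monotone on `[0, s]`, then the supremum is `g s`. -/
theorem M_eq {n : ℕ} {u : E n → ℂ} {s : ℝ} (hs : 0 < s) {g : ℝ → ℝ} (hg : ContinuousOn g (Set.Icc 0 s))
    (hm : MonotoneOn g (Set.Icc 0 s)) (h1 : ∀ x : E n, ‖x‖ < s → ‖u x‖ ≤ g ‖x‖) {e : E n} (he : ‖e‖ = 1)
    (h2 : ∀ t : ℝ, 0 ≤ t → t < s → ‖u (t • e)‖ = g t) : M u s = g s := by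
  have hb : ∀ x : E n, ‖x‖ < s → ‖u x‖ ≤ g s := fun x hx =>
    (h1 x hx).trans (hm ⟨norm_nonneg x, hx.le⟩ ⟨hs.le, le_rfl⟩ hx.le)
  refine le_antisymm (M_le hs hb) ?_
  have hcl : s ∈ closure (Set.Ico 0 s) := by
    rw [closure_Ico hs.ne]
    exact ⟨hs.le, le_rfl⟩
  haveI : (nhdsWithin s (Set.Ico 0 s)).NeBot := mem_closure_iff_nhdsWithin_neBot.1 hcl
  have ht : Filter.Tendsto g (nhdsWithin s (Set.Ico 0 s)) (nhds (g s)) :=
    (hg s ⟨hs.le, le_rfl⟩).mono_left (nhdsWithin_mono _ Set.Ico_subset_Icc_self)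
  refine le_of_tendsto ht ?_
  filter_upwards [self_mem_nhdsWithin] with t htt
  rw [← h2 t htt.1 htt.2]
  refine le_M (C := g s) (fun x hx => hb x (by simpa using hx)) ?_
  rw [norm_smul, he, mul_one, Real.norm_of_nonneg htt.1]
  exact htt.2

end TB
end
end

section

section

namespace TB

open Metric MeasureTheory InnerProductSpace Laplacian

/-- The second derivative along a line.  Proof: `f` is `C^2` near `x` (`ContDiffAt.eventually`), so for small `t` the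
derivative of `t -> f (x + t e)` is `fderiv f (x + t e) e`; differentiate once more: `fderiv (fderiv f) x e e`, which is
`iteratedFDeriv ℝ 2 f x ![e, e]` (`iteratedFDeriv_two_apply`). -/
theorem iter_line {n : ℕ} {f : E n → ℝ} {x : E n} (hf : ContDiffAt ℝ 2 f x) (e : E n) :
    iteratedFDeriv ℝ 2 f x ![e, e] = deriv (deriv (fun t : ℝ => f (x + t • e))) 0 := by
  have hline : ∀ t : ℝ, HasDerivAt (fun t : ℝ => x + t • e) e t := by
    intro t
    have h1 := ((hasDerivAt_id t).smul_const e).const_add x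
    rw [one_smul] at h1
    exact h1
  have hc : Filter.Tendsto (fun t : ℝ => x + t • e) (nhds 0) (nhds x) := by
    have h1 := (hline 0).continuousAt.tendsto
    rw [zero_smul, add_zero] at h1
    exact h1
  have hev : ∀ᶠ t : ℝ in nhds 0, ContDiffAt ℝ 2 f (x + t • e) :=
    hc.eventually (hf.eventually (by simp))
  have h1 : deriv (fun t : ℝ => f (x + t • e)) =ᶠ[nhds 0] fun t => fderiv ℝ f (x + t • e) e := by
    filter_upwards [hev] with t ht
    have h2 := (ht.differentiableAt (by norm_num)).hasFDerivAt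
    exact (h2.comp_hasDerivAt t (hline t)).deriv
  rw [h1.deriv_eq, iteratedFDeriv_two_apply]
  have h3 : ContDiffAt ℝ 1 (fderiv ℝ f) x := hf.fderiv_right (by norm_num)
  have h4 := (h3.differentiableAt (by norm_num)).hasFDerivAt
  have h5 : HasDerivAt (fun t : ℝ => fderiv ℝ f (x + t • e)) (fderiv ℝ (fderiv ℝ f) x e) 0 := by
    have h6 : HasFDerivAt (fderiv ℝ f) (fderiv ℝ (fderiv ℝ f) x) (x + (0 : ℝ) • e) := by
      rw [zero_smul, add_zero]
      exact h4
    exact h6.comp_hasDerivAt 0 (hline 0)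
  have h7 := (h5.clm_apply (hasDerivAt_const (0 : ℝ) e)).deriv
  rw [h7]
  simp

/-- The Laplacian through the coordinate lines: `laplacian_eq_iteratedFDeriv_orthonormalBasis` with
`EuclideanSpace.basisFun (Fin n) ℝ`, then `iter_line`. -/
theorem lap_eq {n : ℕ} {f : E n → ℝ} {x : E n} (hf : ContDiffAt ℝ 2 f x) :
    (Δ f) x = ∑ i : Fin n, deriv (deriv (fun t : ℝ => f (x + t • EuclideanSpace.single i (1 : ℝ)))) 0 := by
  rw [laplacian_eq_iteratedFDeriv_orthonormalBasis f (EuclideanSpace.basisFun (Fin n) ℝ)]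
  apply Finset.sum_congr rfl
  intro i _
  rw [iter_line hf, EuclideanSpace.basisFun_apply]

end TB
end

section

namespace TB

open Metric MeasureTheory InnerProductSpace Laplacian

private theorem neg_log_one_sub_le {y : ℝ} (hy : 0 ≤ y) (hy2 : y ≤ 1 / 2) :
    -(y + y ^ 2) ≤ Real.log (1 - y) := by
  have h := Real.abs_log_sub_add_sum_range_le (x := y)
    (by rw [abs_of_nonneg hy]; linarith) 4
  rw [abs_of_nonneg hy] at h
  have h1 := (abs_le.1 h).1
  simp only [Finset.sum_range_succ, Finset.sum_range_zero] at h1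
  have h2 : y ^ (4 + 1) / (1 - y) ≤ 2 * y ^ 5 := by
    rw [div_le_iff₀ (by linarith)]
    have h5 : 0 ≤ y ^ 5 := by positivity
    have h6 := mul_nonneg h5 (by linarith : (0 : ℝ) ≤ 1 / 2 - y)
    have h7 : y ^ (4 + 1) = y ^ 5 := by norm_num
    rw [h7]
    nlinarith
  have h3 : y / 3 + y ^ 2 / 4 + 2 * y ^ 3 ≤ 1 / 2 := by
    have a : y ^ 2 ≤ 1 / 4 := by nlinarith
    have b : y ^ 3 ≤ 1 / 8 := by nlinarith [sq_nonneg y]
    linarith
  have h4 : y ^ 2 * (y / 3 + y ^ 2 / 4 + 2 * y ^ 3) ≤ y ^ 2 * (1 / 2) :=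
    mul_le_mul_of_nonneg_left h3 (by positivity)
  norm_num at h1
  nlinarith

private theorem rpow_ge {m g : ℝ} (hm : 0 < m) : 1 + g * Real.log m ≤ m ^ g := by
  rw [Real.rpow_def_of_pos hm]
  have := Real.add_one_le_exp (Real.log m * g)
  linarith

/-- `m ≥ 1 - y ≥ 1/2`, so `m^g ≥ (1-y)^g = exp(g log(1-y)) ≥ 1 + g log(1-y) ≥ 1 - g (y + y^2)` as
`- log(1-y) ≤ y + y^2` on `[0, 1/2]`. -/
theorem real1 {y m g : ℝ} (hy : 0 ≤ y) (hy2 : y ≤ 1 / 2) (hm : 1 - m ≤ y) (hg : 0 < g) :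
    1 - g * (y + y ^ 2) ≤ m ^ g := by
  have hm0 : 0 < m := by linarith
  have h1 := rpow_ge (g := g) hm0
  have h2 : Real.log (1 - y) ≤ Real.log m := Real.log_le_log (by linarith) (by linarith)
  have h3 := neg_log_one_sub_le hy hy2
  have h4 : g * (-(y + y ^ 2)) ≤ g * Real.log m :=
    mul_le_mul_of_nonneg_left (h3.trans h2) hg.le
  linarith

/-- `m^g ≥ 1 + g log m`; with `l = log (1/m)` in `[0, L/4]`: `l ≤ L (1 - m)/2`, since `1 - exp(-l) ≥ l/2 ≥ 2 l/L` if `l ≤ 1`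
and `1 - exp(-l) ≥ 1/2 ≥ 2 l / L` if `l ≥ 1`. -/
theorem real2 {y m g L : ℝ} (hL : 4 ≤ L) (hm : Real.exp (-(L / 4)) ≤ m) (hm1 : m ≤ 1) (hy : 1 - m ≤ y) (hg : 0 < g) :
    1 - g * L * y / 2 ≤ m ^ g := by
  have hm0 : 0 < m := lt_of_lt_of_le (Real.exp_pos _) hm
  have h1 := rpow_ge (g := g) hm0
  have hl : -Real.log m ≤ L * (1 - m) / 2 := by
    have hlL : -(L / 4) ≤ Real.log m := by
      rw [Real.le_log_iff_exp_le hm0]; exact hm
    have hl0 : Real.log m ≤ 0 := Real.log_nonpos hm0.le hm1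
    rcases le_total (-Real.log m) 1 with h | h
    · have h5 : (-Real.log m) / 2 ≤ 1 - m := by
        obtain ⟨l, hlm⟩ : ∃ l, l = -Real.log m := ⟨_, rfl⟩
        have h8 : 0 ≤ l := by rw [hlm]; linarith
        have h8' : l ≤ 1 := by rw [hlm]; exact h
        have h6 : 1 + l + l ^ 2 / 2 ≤ Real.exp l := Real.quadratic_le_exp_of_nonneg h8
        have h7 : m * Real.exp l = 1 := by
          rw [hlm, Real.exp_neg, Real.exp_log hm0, mul_inv_cancel₀ hm0.ne']
        rw [← hlm]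
        by_contra hcon
        have h9 : 1 - l / 2 < m := by linarith
        have h10 : m * (1 + l + l ^ 2 / 2) ≤ 1 :=
          (mul_le_mul_of_nonneg_left h6 hm0.le).trans h7.le
        have h11 : (1 - l / 2) * (1 + l + l ^ 2 / 2) < m * (1 + l + l ^ 2 / 2) :=
          mul_lt_mul_of_pos_right h9 (by positivity)
        have h12 : 0 ≤ l * (1 - l ^ 2) := mul_nonneg h8 (by nlinarith)
        nlinarith
      nlinarith
    · have h5 : m ≤ 1 / 2 := by
        have h6 : m ≤ Real.exp (-1) := by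
          rw [← Real.log_le_iff_le_exp hm0]; linarith
        have h7 : Real.exp (-1) ≤ 1 / 2 := by
          rw [Real.exp_neg]
          have := Real.add_one_le_exp (1 : ℝ)
          rw [inv_le_comm₀ (Real.exp_pos _) (by norm_num)]
          norm_num at this ⊢
          linarith
        linarith
      nlinarith
  have h2 : g * (-Real.log m) ≤ g * (L * (1 - m) / 2) := mul_le_mul_of_nonneg_left hl hg.le
  have h3 : g * (L * (1 - m) / 2) ≤ g * (L * y / 2) := by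
    apply mul_le_mul_of_nonneg_left _ hg.le
    nlinarith
  linarith

/-- `m = 0` is trivial; otherwise `m^th = m^(th/2) m^(th/2)`, `D^n m^(th/2) ≤ exp(n log D - th L/8) ≤ 1`, and
`m^(th/2) ≤ m^g` as `m ≤ 1`, `g ≤ th/2`. -/
theorem real3 {n : ℕ} {m g th D L : ℝ} (hm0 : 0 ≤ m) (hm : m < Real.exp (-(L / 4))) (hL : 0 ≤ L) (hth : 0 < th)
    (hg : 0 < g) (hgt : g ≤ th / 2) (hD : 1 ≤ D) (hDL : n * Real.log D ≤ th * L / 8) :
    D ^ n * m ^ th ≤ m ^ g := by
  rcases hm0.eq_or_lt with h0 | h0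
  · rw [← h0, Real.zero_rpow hth.ne', Real.zero_rpow hg.ne']; simp
  · have hm1 : m ≤ 1 := by
      have : Real.exp (-(L / 4)) ≤ 1 := Real.exp_le_one_iff.2 (by linarith)
      linarith
    have hlog : Real.log m ≤ -(L / 4) := by
      rw [Real.log_le_iff_le_exp h0]; exact hm.le
    have h1 : m ^ th = m ^ (th / 2) * m ^ (th / 2) := by
      rw [← Real.rpow_add h0]; congr 1; ring
    have h2 : D ^ n * m ^ (th / 2) ≤ 1 := by
      have hD0 : 0 < D := by linarith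
      have h3 : D ^ n = Real.exp (n * Real.log D) := by
        rw [Real.exp_nat_mul, Real.exp_log hD0]
      rw [h3, Real.rpow_def_of_pos h0, ← Real.exp_add, Real.exp_le_one_iff]
      have h4 : Real.log m * (th / 2) ≤ -(L / 4) * (th / 2) :=
        mul_le_mul_of_nonneg_right hlog (by positivity)
      nlinarith
    have h5 : m ^ (th / 2) ≤ m ^ g := Real.rpow_le_rpow_of_exponent_ge h0 hm1 hgt
    have h6 : 0 ≤ m ^ (th / 2) := Real.rpow_nonneg hm0 _
    calc D ^ n * m ^ th = (D ^ n * m ^ (th / 2)) * m ^ (th / 2) := by rw [h1]; ring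
      _ ≤ 1 * m ^ (th / 2) := mul_le_mul_of_nonneg_right h2 h6
      _ = m ^ (th / 2) := one_mul _
      _ ≤ m ^ g := h5

end TB
end

section

namespace TB

open Metric MeasureTheory InnerProductSpace Laplacian

private theorem sig_meas (n : ℕ) : Measurable (fun x : E n => ‖x‖⁻¹ • x) := by
  fun_prop

/-- The volume of the unit ball is positive and finite (`measure_ball_pos`, `measure_ball_lt_top`), and
`x -> |x|^(-1) x` is measurable. -/
theorem sig_prob (n : ℕ) : IsProbabilityMeasure (sig n) := by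
  have h0 : (volume (ball (0 : E n) 1)) ≠ 0 := (measure_ball_pos volume (0 : E n) one_pos).ne'
  have h1 : (volume (ball (0 : E n) 1)) ≠ ⊤ := measure_ball_lt_top.ne
  have h2 : IsProbabilityMeasure ((volume (ball (0 : E n) 1))⁻¹ • (volume.restrict (ball (0 : E n) 1))) := by
    constructor
    rw [Measure.smul_apply, smul_eq_mul, Measure.restrict_apply MeasurableSet.univ, Set.univ_inter]
    exact ENNReal.inv_mul_cancel h0 h1
  unfold sig
  exact Measure.isProbabilityMeasure_map (sig_meas n).aemeasurable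

/-- Almost every point of the ball is nonzero (`n ≥ 1`, no atoms), and `| |x|^(-1) x | = 1` for `x ≠ 0`. -/
theorem sig_unit {n : ℕ} (hn : 1 ≤ n) : ∀ᵐ ζ ∂(sig n), ‖ζ‖ = 1 := by
  haveI : Nonempty (Fin n) := ⟨⟨0, hn⟩⟩
  haveI : Nontrivial (E n) := inferInstance
  have hms : MeasurableSet {ζ : E n | ‖ζ‖ = 1} := by
    exact measurableSet_eq_fun measurable_norm measurable_const
  unfold sig
  rw [ae_map_iff (sig_meas n).aemeasurable hms]
  have h3 : ∀ᵐ x : E n ∂(volume.restrict (ball (0 : E n) 1)), x ≠ 0 := by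
    have h4 : ∀ᵐ x : E n ∂(volume : Measure (E n)), x ≠ 0 := by
      rw [ae_iff]
      simp
    exact ae_restrict_of_ae h4
  have h5 : ∀ᵐ x : E n ∂((volume (ball (0 : E n) 1))⁻¹ • (volume.restrict (ball (0 : E n) 1))), x ≠ 0 :=
    Measure.ae_smul_measure h3 _
  filter_upwards [h5] with x hx
  rw [norm_smul, norm_inv, norm_norm]
  exact inv_mul_cancel₀ (norm_ne_zero_iff.mpr hx)

/-- Linear isometries preserve the volume (`LinearIsometryEquiv.measurePreserving`), the ball and commute with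
`x -> |x|^(-1) x`. -/
theorem sig_map {n : ℕ} (U : E n ≃ₗᵢ[ℝ] E n) : (sig n).map U = sig n := by
  have hU : Measurable (U : E n → E n) := U.continuous.measurable
  have hmp : MeasurePreserving (U : E n → E n) volume volume := U.measurePreserving
  have h1 : (volume.restrict (ball (0 : E n) 1)).map U = volume.restrict (ball (0 : E n) 1) := by
    have h2 : (U : E n → E n) ⁻¹' (ball (0 : E n) 1) = ball (0 : E n) 1 := by
      ext x
      simp [mem_ball_zero_iff]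
    have h3 := (hmp.restrict_preimage (s := ball (0 : E n) 1) measurableSet_ball).map_eq
    rw [h2] at h3
    exact h3
  unfold sig
  rw [Measure.map_map hU (sig_meas n)]
  have h4 : (U : E n → E n) ∘ (fun x : E n => ‖x‖⁻¹ • x) = (fun x : E n => ‖x‖⁻¹ • x) ∘ (U : E n → E n) := by
    funext x
    simp [LinearIsometryEquiv.norm_map]
  rw [h4, ← Measure.map_map (sig_meas n) hU, Measure.map_smul, h1]

/-- A function continuous on the closed unit ball is a.e. strongly measurable for `sig n`: `sig n` is concentrated on the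
closed ball (`sig_unit`), so `sig n = (sig n).restrict (closedBall 0 1)` (`Measure.restrict_eq_self_of_ae_mem`), and
`ContinuousOn.aestronglyMeasurable`. -/
theorem sig_aesm {n : ℕ} (hn : 1 ≤ n) {v : E n → ℝ} (hv : ContinuousOn v (closedBall 0 1)) :
    AEStronglyMeasurable v (sig n) := by
  have h1 : ∀ᵐ x ∂(sig n), x ∈ closedBall (0 : E n) 1 := by
    filter_upwards [sig_unit hn] with x hx
    rw [mem_closedBall_zero_iff]
    exact hx.le
  rw [← Measure.restrict_eq_self_of_ae_mem h1]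
  exact hv.aestronglyMeasurable isClosed_closedBall.measurableSet

end TB
end

section

namespace TB

open Metric MeasureTheory InnerProductSpace Laplacian

/-- `|y - z|^(2 - n)` is harmonic away from `z`.  Proof: smooth near `x` (the norm squared is smooth and positive there;
`ContDiffAt.rpow_const_of_ne`).  For `y ≠ z`, `N = |y - z|^2 > 0`, `c_i = (y - z)_i`: along the line `y + t e_i` the norm
squared is `N + 2 t c_i + t^2`, and the second derivative of `(N + 2 t c + t^2)^p` at `0` is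
`2 p N^(p-1) + 4 p (p-1) c^2 N^(p-2)`; the sum over `i` is `2 p (n + 2 p - 2) N^(p-1)` as `sum c_i^2 = N`
(`EuclideanSpace.norm_sq_eq`), zero for `p = (2 - n)/2`.  Use `lap_eq`. -/
theorem harm_pow {n : ℕ} (z x : E n) (h : x ≠ z) :
    HarmonicAt (fun y : E n => (‖y - z‖ ^ 2) ^ ((2 - (n : ℝ)) / 2)) x := by
  set p : ℝ := (2 - (n : ℝ)) / 2 with hp
  have hsm : ∀ y : E n, y ≠ z → ContDiffAt ℝ 2 (fun y : E n => (‖y - z‖ ^ 2) ^ p) y := by
    intro y hy
    have h1 : ContDiffAt ℝ 2 (fun y : E n => ‖y - z‖ ^ 2) y :=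
      (contDiffAt_id.sub contDiffAt_const).norm_sq ℝ
    refine h1.rpow_const_of_ne ?_
    have : 0 < ‖y - z‖ := norm_pos_iff.2 (sub_ne_zero.2 hy)
    positivity
  refine ⟨hsm x h, ?_⟩
  filter_upwards [isOpen_ne.mem_nhds h] with y hy
  rw [lap_eq (hsm y hy)]
  have hN : 0 < ‖y - z‖ ^ 2 := by
    have : 0 < ‖y - z‖ := norm_pos_iff.2 (sub_ne_zero.2 hy)
    positivity
  obtain ⟨N, hNd⟩ : ∃ N, N = ‖y - z‖ ^ 2 := ⟨_, rfl⟩
  rw [← hNd] at hN
  have key : ∀ i : Fin n, deriv (deriv (fun t : ℝ =>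
      (‖y + t • EuclideanSpace.single i (1 : ℝ) - z‖ ^ 2) ^ p)) 0 =
      2 * p * N ^ (p - 1) + 4 * p * (p - 1) * ((y - z) i) ^ 2 * N ^ (p - 1 - 1) := by
    intro i
    obtain ⟨c, hc⟩ : ∃ c : ℝ, c = (y - z) i := ⟨_, rfl⟩
    have e1 : (fun t : ℝ => (‖y + t • EuclideanSpace.single i (1 : ℝ) - z‖ ^ 2) ^ p) =
        fun t : ℝ => (N + 2 * t * c + t ^ 2) ^ p := by
      funext t
      congr 1
      have e2 : y + t • EuclideanSpace.single i (1 : ℝ) - z =
          (y - z) + t • EuclideanSpace.single i (1 : ℝ) := by abel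
      rw [e2, norm_add_sq_real, ← hNd, inner_smul_right, norm_smul, PiLp.norm_single,
        EuclideanSpace.inner_single_right, hc]
      simp
      ring
    have hpoly : ∀ t : ℝ, HasDerivAt (fun t : ℝ => N + 2 * t * c + t ^ 2) (2 * c + 2 * t) t := by
      intro t
      have h1 : HasDerivAt (fun t : ℝ => 2 * t * c) (2 * 1 * c) t :=
        ((hasDerivAt_id t).const_mul 2).mul_const c
      have h2 : HasDerivAt (fun t : ℝ => t ^ 2) (2 * t) t := by
        simpa using hasDerivAt_pow 2 t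
      have h3 := (h1.const_add N).add h2
      have e3 : 2 * 1 * c + 2 * t = 2 * c + 2 * t := by ring
      rw [← e3]
      exact h3
    have hcont : ContinuousAt (fun t : ℝ => N + 2 * t * c + t ^ 2) 0 := (hpoly 0).continuousAt
    have hev : ∀ᶠ t : ℝ in nhds 0, 0 < N + 2 * t * c + t ^ 2 := by
      have h0 : (0 : ℝ) < (fun t : ℝ => N + 2 * t * c + t ^ 2) 0 := by
        simpa using hN
      exact hcont.eventually (lt_mem_nhds h0)
    have hd1 : deriv (fun t : ℝ => (N + 2 * t * c + t ^ 2) ^ p) =ᶠ[nhds 0]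
        fun t => (2 * c + 2 * t) * p * (N + 2 * t * c + t ^ 2) ^ (p - 1) := by
      filter_upwards [hev] with t ht
      exact ((hpoly t).rpow_const (Or.inl ht.ne')).deriv
    rw [e1, hd1.deriv_eq]
    have h4 : HasDerivAt (fun t : ℝ => (2 * c + 2 * t) * p) (2 * p) 0 := by
      have h5 := (((hasDerivAt_id (0 : ℝ)).const_mul 2).const_add (2 * c)).mul_const p
      simpa using h5
    have h6 : HasDerivAt (fun t : ℝ => (N + 2 * t * c + t ^ 2) ^ (p - 1))
        ((2 * c) * (p - 1) * N ^ (p - 1 - 1)) 0 := by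
      have h7 := (hpoly 0).rpow_const (p := p - 1) (Or.inl (by simpa using hN.ne'))
      simpa using h7
    have h8 := (h4.mul h6).deriv
    have h9 : deriv (fun t : ℝ => (2 * c + 2 * t) * p * (N + 2 * t * c + t ^ 2) ^ (p - 1)) 0 =
        2 * p * (N + 2 * 0 * c + 0 ^ 2) ^ (p - 1) +
          (2 * c + 2 * 0) * p * ((2 * c) * (p - 1) * N ^ (p - 1 - 1)) := h8
    rw [h9, ← hc]
    simp only [mul_zero, zero_mul, add_zero, ne_eq, OfNat.ofNat_ne_zero, not_false_eq_true,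
      zero_pow]
    ring
  simp only [key]
  rw [Finset.sum_add_distrib, Finset.sum_const, Finset.card_univ, Fintype.card_fin, nsmul_eq_mul,
    ← Finset.sum_mul, ← Finset.mul_sum]
  have hsum : ∑ i : Fin n, ((y - z) i) ^ 2 = N := by
    rw [hNd, EuclideanSpace.norm_sq_eq]
    simp
  have hpow : N ^ (p - 1) = N ^ (p - 1 - 1) * N := by
    have h10 := Real.rpow_add_one hN.ne' (p - 1 - 1)
    rwa [show p - 1 - 1 + 1 = p - 1 by ring] at h10
  rw [hsum, hpow, hp]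
  change _ = (0 : ℝ)
  ring

end TB
end

section

namespace TB

open Metric MeasureTheory InnerProductSpace Laplacian

private theorem H1b_h (N c t : ℝ) :
    HasDerivAt (fun t : ℝ => N + 2 * t * c + t ^ 2) (2 * c + 2 * t) t := by
  have h2 := ((((hasDerivAt_id t).const_mul 2).mul_const c).const_add N).add
    ((hasDerivAt_id t).pow 2)
  refine (h2.congr_deriv ?_)
  simp

private theorem H1b_der2 (g wi N c q : ℝ) (hN : 0 < N) :
    deriv (deriv (fun t : ℝ => (g + t * wi) * (N + 2 * t * c + t ^ 2) ^ q)) 0 =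
      4 * q * wi * c * N ^ (q - 1) + 4 * q * (q - 1) * g * c ^ 2 * N ^ (q - 2) +
        2 * q * g * N ^ (q - 1) := by
  have hlin : ∀ t : ℝ, HasDerivAt (fun t : ℝ => g + t * wi) wi t := fun t => by
    have := ((hasDerivAt_id t).mul_const wi).const_add g
    simpa using this
  have hev : ∀ᶠ t : ℝ in nhds 0, 0 < N + 2 * t * c + t ^ 2 := by
    have hc : ContinuousAt (fun t : ℝ => N + 2 * t * c + t ^ 2) 0 := (H1b_h N c 0).continuousAt
    have h0 : 0 < (fun t : ℝ => N + 2 * t * c + t ^ 2) 0 := by simpa using hN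
    exact hc.eventually (lt_mem_nhds h0)
  have h1 : deriv (fun t : ℝ => (g + t * wi) * (N + 2 * t * c + t ^ 2) ^ q) =ᶠ[nhds 0]
      fun t => wi * (N + 2 * t * c + t ^ 2) ^ q +
        (g + t * wi) * ((2 * c + 2 * t) * q * (N + 2 * t * c + t ^ 2) ^ (q - 1)) := by
    filter_upwards [hev] with t ht
    exact ((hlin t).mul ((H1b_h N c t).rpow_const (p := q) (Or.inl ht.ne'))).deriv
  rw [h1.deriv_eq]
  have h0 : N + 2 * (0 : ℝ) * c + 0 ^ 2 = N := by ring
  have h2 : HasDerivAt (fun t : ℝ => (2 * c + 2 * t) * q) (2 * q) 0 := by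
    have := (((hasDerivAt_id (0 : ℝ)).const_mul 2).const_add (2 * c)).mul_const q
    simpa using this
  have hp : ∀ p : ℝ, HasDerivAt (fun t : ℝ => (N + 2 * t * c + t ^ 2) ^ p)
      (2 * c * p * N ^ (p - 1)) 0 := by
    intro p
    have h3 := (H1b_h N c 0).rpow_const (p := p) (Or.inl (by rw [h0]; exact hN.ne'))
    rw [h0] at h3
    convert h3 using 1
    ring
  have h4 := ((hp q).const_mul wi).add ((hlin 0).mul (h2.mul (hp (q - 1))))
  have h5 := h4.deriv
  refine Eq.trans ?_ (h5.trans ?_)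
  · rfl
  · simp only [Pi.mul_apply]
    rw [h0, show q - 1 - 1 = q - 2 by ring]
    ring

/-- `<y - z, w> |y - z|^(- n)` is harmonic away from `z`.  Proof: as in `harm_pow` (file H1): with `N = |y - z|^2`,
`c_i = (y - z)_i`, `g = <y - z, w>`, along `y + t e_i` the function is `(g + t w_i) (N + 2 t c_i + t^2)^q`, `q = - n/2`; its
second derivative at `0` is `4 q w_i c_i N^(q-1) + g (2 q N^(q-1) + 4 q (q-1) c_i^2 N^(q-2))`; the sum over `i` is
`2 q g N^(q-1) (2 + n + 2 q - 2) = 0` as `sum w_i c_i = g`, `sum c_i^2 = N`. -/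
theorem harm_dipole {n : ℕ} (z w x : E n) (h : x ≠ z) :
    HarmonicAt (fun y : E n => ⟪y - z, w⟫_ℝ * (‖y - z‖ ^ 2) ^ (-(n : ℝ) / 2)) x := by
  have hcd : ∀ y : E n, y ≠ z →
      ContDiffAt ℝ 2 (fun y : E n => ⟪y - z, w⟫_ℝ * (‖y - z‖ ^ 2) ^ (-(n : ℝ) / 2)) y := by
    intro y hy
    have h1 : ContDiffAt ℝ 2 (fun y : E n => y - z) y := contDiffAt_id.sub contDiffAt_const
    have h2 : ContDiffAt ℝ 2 (fun y : E n => ⟪y - z, w⟫_ℝ) y := h1.inner ℝ contDiffAt_const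
    have h3 : ContDiffAt ℝ 2 (fun y : E n => ‖y - z‖ ^ 2) y := h1.norm_sq ℝ
    have h4 : ‖y - z‖ ^ 2 ≠ 0 := by
      have : 0 < ‖y - z‖ := norm_pos_iff.2 (sub_ne_zero.2 hy)
      positivity
    exact h2.mul (h3.rpow_const_of_ne h4)
  refine ⟨hcd x h, ?_⟩
  filter_upwards [isOpen_ne.mem_nhds h] with y hy
  rw [lap_eq (hcd y hy)]
  have hN : 0 < ‖y - z‖ ^ 2 := by
    have : 0 < ‖y - z‖ := norm_pos_iff.2 (sub_ne_zero.2 hy)
    positivity
  have hi : ∀ i : Fin n, deriv (deriv (fun t : ℝ =>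
      ⟪y + t • EuclideanSpace.single i (1 : ℝ) - z, w⟫_ℝ *
        (‖y + t • EuclideanSpace.single i (1 : ℝ) - z‖ ^ 2) ^ (-(n : ℝ) / 2))) 0 =
      4 * (-(n : ℝ) / 2) * w i * (y - z) i * (‖y - z‖ ^ 2) ^ (-(n : ℝ) / 2 - 1) +
        4 * (-(n : ℝ) / 2) * (-(n : ℝ) / 2 - 1) * ⟪y - z, w⟫_ℝ * (y - z) i ^ 2 *
          (‖y - z‖ ^ 2) ^ (-(n : ℝ) / 2 - 2) +
        2 * (-(n : ℝ) / 2) * ⟪y - z, w⟫_ℝ * (‖y - z‖ ^ 2) ^ (-(n : ℝ) / 2 - 1) := by
    intro i
    have e1 : ∀ t : ℝ, y + t • EuclideanSpace.single i (1 : ℝ) - z =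
        (y - z) + t • EuclideanSpace.single i (1 : ℝ) := fun t => by abel
    have e2 : ∀ t : ℝ, ⟪y + t • EuclideanSpace.single i (1 : ℝ) - z, w⟫_ℝ =
        ⟪y - z, w⟫_ℝ + t * w i := by
      intro t
      rw [e1, inner_add_left, real_inner_smul_left, EuclideanSpace.inner_single_left]
      simp
    have e3 : ∀ t : ℝ, ‖y + t • EuclideanSpace.single i (1 : ℝ) - z‖ ^ 2 =
        ‖y - z‖ ^ 2 + 2 * t * (y - z) i + t ^ 2 := by
      intro t
      rw [e1, norm_add_sq_real, real_inner_smul_right, EuclideanSpace.inner_single_right, norm_smul,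
        PiLp.norm_single]
      simp
      ring
    have e4 : (fun t : ℝ =>
      ⟪y + t • EuclideanSpace.single i (1 : ℝ) - z, w⟫_ℝ *
        (‖y + t • EuclideanSpace.single i (1 : ℝ) - z‖ ^ 2) ^ (-(n : ℝ) / 2)) =
        fun t : ℝ => (⟪y - z, w⟫_ℝ + t * w i) *
          (‖y - z‖ ^ 2 + 2 * t * (y - z) i + t ^ 2) ^ (-(n : ℝ) / 2) := by
      funext t
      rw [e2, e3]
    rw [e4]
    exact H1b_der2 _ _ _ _ _ hN
  rw [Finset.sum_congr rfl fun i _ => hi i]
  rw [Finset.sum_add_distrib, Finset.sum_add_distrib]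
  have s1 : ∑ i : Fin n, w i * (y - z) i = ⟪y - z, w⟫_ℝ := by
    rw [PiLp.inner_apply]
    exact Finset.sum_congr rfl fun i _ => by simp
  have s2 : ∑ i : Fin n, (y - z) i ^ 2 = ‖y - z‖ ^ 2 := by
    rw [EuclideanSpace.norm_sq_eq]
    exact Finset.sum_congr rfl fun i _ => by simp
  have t1 : ∑ i : Fin n, 4 * (-(n : ℝ) / 2) * w i * (y - z) i *
      (‖y - z‖ ^ 2) ^ (-(n : ℝ) / 2 - 1) =
      4 * (-(n : ℝ) / 2) * ⟪y - z, w⟫_ℝ * (‖y - z‖ ^ 2) ^ (-(n : ℝ) / 2 - 1) := by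
    rw [← s1, Finset.mul_sum, Finset.sum_mul]
    exact Finset.sum_congr rfl fun i _ => by ring
  have t2 : ∑ i : Fin n, 4 * (-(n : ℝ) / 2) * (-(n : ℝ) / 2 - 1) * ⟪y - z, w⟫_ℝ *
      (y - z) i ^ 2 * (‖y - z‖ ^ 2) ^ (-(n : ℝ) / 2 - 2) =
      4 * (-(n : ℝ) / 2) * (-(n : ℝ) / 2 - 1) * ⟪y - z, w⟫_ℝ *
        (‖y - z‖ ^ 2 * (‖y - z‖ ^ 2) ^ (-(n : ℝ) / 2 - 2)) := by
    nth_rw 2 [← s2]
    rw [Finset.sum_mul, Finset.mul_sum]
    exact Finset.sum_congr rfl fun i _ => by ring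
  have t3 : ‖y - z‖ ^ 2 * (‖y - z‖ ^ 2) ^ (-(n : ℝ) / 2 - 2) =
      (‖y - z‖ ^ 2) ^ (-(n : ℝ) / 2 - 1) := by
    rw [show -(n : ℝ) / 2 - 1 = (-(n : ℝ) / 2 - 2) + 1 by ring, Real.rpow_add_one hN.ne']
    ring
  rw [t1, t2, t3, Finset.sum_const, Finset.card_univ, Fintype.card_fin, nsmul_eq_mul]
  simp only [Pi.zero_apply]
  ring

end TB
end

section

namespace TB

open Metric MeasureTheory InnerProductSpace Laplacian

private theorem h3_lap {n : ℕ} {f : E n → ℝ} {c : ℝ} {y : E n} (h : ContDiffAt ℝ 2 f (c • y)) :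
    (Δ (fun y : E n => f (c • y))) y = c ^ 2 * (Δ f) (c • y) := by
  have h1 : ContDiffAt ℝ 2 (fun y : E n => f (c • y)) y := by
    have hc : ContDiffAt ℝ 2 (fun y : E n => c • y) y := by fun_prop
    exact ContDiffAt.comp y h hc
  rw [lap_eq h1, lap_eq h, Finset.mul_sum]
  refine Finset.sum_congr rfl fun i _ => ?_
  set e : E n := EuclideanSpace.single i (1 : ℝ) with he
  have e1 : (fun t : ℝ => f (c • (y + t • e))) = fun t : ℝ => (fun s : ℝ => f (c • y + s • e)) (c * t) := by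
    funext t
    simp only [smul_add, smul_smul]
  rw [e1]
  have e2 : deriv (fun t : ℝ => (fun s : ℝ => f (c • y + s • e)) (c * t)) =
      fun t : ℝ => c * (deriv (fun s : ℝ => f (c • y + s • e))) (c * t) := by
    funext t
    rw [deriv_comp_mul_left c (fun s : ℝ => f (c • y + s • e)) t, smul_eq_mul]
  rw [e2]
  rw [deriv_const_mul_field]
  rw [deriv_comp_mul_left c (deriv (fun s : ℝ => f (c • y + s • e))) 0, mul_zero, smul_eq_mul]
  ring

/-- Dilations preserve harmonic functions.  Proof: `c = 0`: the function is constant.  In general `ContDiffAt` composes, and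
by `lap_eq` and the chain rule for the scalar function `t -> f (c y + (c t) e_i)` the Laplacian at `y` is
`c^2 (Δ f) (c y)` for `y` near `x` (where `f` is `C^2` near `c y`), which is `0` for `y` near `x`. -/
theorem harm_dil {n : ℕ} {f : E n → ℝ} {c : ℝ} {x : E n} (h : HarmonicAt f (c • x)) :
    HarmonicAt (fun y : E n => f (c • y)) x := by
  have hc : ContDiffAt ℝ 2 (fun y : E n => c • y) x := by fun_prop
  refine ⟨ContDiffAt.comp x h.1 hc, ?_⟩
  have hcont : Filter.Tendsto (fun y : E n => c • y) (nhds x) (nhds (c • x)) := hc.continuousAt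
  have ev := hcont.eventually h.eventually
  filter_upwards [ev] with y hy
  rw [h3_lap hy.1]
  have := hy.2.eq_of_nhds
  rw [this]
  simp

end TB
end

section

namespace TB

open Metric MeasureTheory InnerProductSpace Laplacian

/-- Lipschitz bound in the pole.  Proof: `d = |x - ζ|`, `d' = |x - ζ'|` lie in `[1 - s, 2]`, `|d - d'| ≤ |ζ - ζ'|`, and
`|1/d^n - 1/d'^n| = |d'^n - d^n| / (d d')^n ≤ n 2^n |d - d'| / (1-s)^(2n)` (`abs_pow_sub_pow_le` or
`|d'^n - d^n| ≤ n 2^(n-1) |d - d'|` by induction); the factor `1 - |x|^2` is in `[0, 1]`. -/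
theorem Pk_lip (n : ℕ) {s : ℝ} (hs : s < 1) : ∃ K : ℝ, 0 ≤ K ∧ ∀ x : E n, ‖x‖ ≤ s → ∀ ζ ζ' : E n, ‖ζ‖ = 1 → ‖ζ'‖ = 1 →
    |Pk x ζ - Pk x ζ'| ≤ K * ‖ζ - ζ'‖ := by
  have h1s : 0 < 1 - s := by linarith
  refine ⟨n * 2 ^ (n - 1) / ((1 - s) ^ n * (1 - s) ^ n), by positivity, ?_⟩
  intro x hx ζ ζ' hζ hζ'
  have hx0 : 0 ≤ ‖x‖ := norm_nonneg x
  have key : ∀ η : E n, ‖η‖ = 1 → 1 - s ≤ ‖x - η‖ ∧ ‖x - η‖ ≤ 2 := by
    intro η hη
    constructor
    · have := norm_sub_norm_le η x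
      rw [norm_sub_rev] at this
      linarith
    · have := norm_sub_le x η
      linarith
  obtain ⟨hd1, hd2⟩ := key ζ hζ
  obtain ⟨he1, he2⟩ := key ζ' hζ'
  have hde : |‖x - ζ'‖ - ‖x - ζ‖| ≤ ‖ζ - ζ'‖ := by
    have := abs_norm_sub_norm_le (x - ζ') (x - ζ)
    have h2 : (x - ζ') - (x - ζ) = ζ - ζ' := by abel
    rwa [h2] at this
  set d := ‖x - ζ‖ with hd
  set d' := ‖x - ζ'‖ with hd'
  have hdpos : 0 < d := by linarith
  have hd'pos : 0 < d' := by linarith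
  have hpow := abs_pow_sub_pow_le d' d n
  have hmax : max |d'| |d| ^ (n - 1) ≤ 2 ^ (n - 1) := by
    apply pow_le_pow_left₀ (by positivity)
    rw [abs_of_pos hdpos, abs_of_pos hd'pos]
    exact max_le he2 hd2
  have h3 : |d' ^ n - d ^ n| ≤ ‖ζ - ζ'‖ * n * 2 ^ (n - 1) := by
    refine hpow.trans ?_
    gcongr
  have h4 : Pk x ζ - Pk x ζ' = (1 - ‖x‖ ^ 2) * ((d' ^ n - d ^ n) / (d ^ n * d' ^ n)) := by
    unfold Pk
    rw [← hd, ← hd']
    field_simp
  rw [h4, abs_mul]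
  have h5 : |1 - ‖x‖ ^ 2| ≤ 1 := by
    rw [abs_le]
    constructor <;> nlinarith
  have h6 : |(d' ^ n - d ^ n) / (d ^ n * d' ^ n)| ≤ (‖ζ - ζ'‖ * n * 2 ^ (n - 1)) / ((1 - s) ^ n * (1 - s) ^ n) := by
    rw [abs_div]
    have h7 : (1 - s) ^ n * (1 - s) ^ n ≤ |d ^ n * d' ^ n| := by
      rw [abs_of_pos (by positivity)]
      gcongr
    gcongr
  calc |1 - ‖x‖ ^ 2| * |(d' ^ n - d ^ n) / (d ^ n * d' ^ n)|
      ≤ 1 * ((‖ζ - ζ'‖ * n * 2 ^ (n - 1)) / ((1 - s) ^ n * (1 - s) ^ n)) := by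
        gcongr
    _ = n * 2 ^ (n - 1) / ((1 - s) ^ n * (1 - s) ^ n) * ‖ζ - ζ'‖ := by ring

end TB
end

section

namespace TB

open Metric MeasureTheory InnerProductSpace Laplacian

/-- Necessary condition at a maximum.  Proof: if the second derivative of `φ(t) = f (x + t e)` at `0` were positive, then
with `φ'(0) = 0` (`IsLocalMax.deriv_eq_zero`) the point `0` is a local minimum of `φ` (`isLocalMin_of_deriv_deriv_pos`), and
as it is also a local maximum, `φ` is locally constant and `φ''(0) = 0`. Contradiction. -/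
theorem iter_nonpos {n : ℕ} {f : E n → ℝ} {x : E n} (hf : ContDiffAt ℝ 2 f x) (hmax : IsLocalMax f x) (e : E n) :
    deriv (deriv (fun t : ℝ => f (x + t • e))) 0 ≤ 0 := by
  by_contra hcon
  push Not at hcon
  have hg : ContDiffAt ℝ 2 (fun t : ℝ => x + t • e) 0 := by fun_prop
  have h0 : x + (0 : ℝ) • e = x := by rw [zero_smul, add_zero]
  have hφ : ContDiffAt ℝ 2 (fun t : ℝ => f (x + t • e)) 0 := by
    have h1 : ContDiffAt ℝ 2 f ((fun t : ℝ => x + t • e) 0) := by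
      simp only [h0]
      exact hf
    exact h1.comp (0 : ℝ) hg
  have hmax' : IsLocalMax (fun t : ℝ => f (x + t • e)) 0 := by
    have h1 : IsLocalMax f ((fun t : ℝ => x + t • e) 0) := by
      simp only [h0]
      exact hmax
    exact IsLocalMax.comp_continuous (g := fun t : ℝ => x + t • e) h1 hg.continuousAt
  have hmin := isLocalMin_of_deriv_deriv_pos hcon hmax'.deriv_eq_zero hφ.continuousAt
  have hconst : (fun t : ℝ => f (x + t • e)) =ᶠ[nhds 0] fun _ => f (x + (0 : ℝ) • e) := by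
    filter_upwards [hmax', hmin] with t h1 h2
    exact le_antisymm h1 h2
  have h2 : deriv (deriv (fun t : ℝ => f (x + t • e))) 0 = 0 := by
    have h3 := hconst.deriv
    have h4 : deriv (fun _ : ℝ => f (x + (0 : ℝ) • e)) = fun _ => 0 := by
      funext t
      exact deriv_const t _
    rw [h4] at h3
    rw [h3.deriv_eq]
    exact deriv_const 0 _
  rw [h2] at hcon
  exact lt_irrefl _ hcon

private theorem dd_add {φ ψ : ℝ → ℝ} (hφ : ContDiffAt ℝ 2 φ 0) (hψ : ContDiffAt ℝ 2 ψ 0) :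
    deriv (deriv (fun t => φ t + ψ t)) 0 = deriv (deriv φ) 0 + deriv (deriv ψ) 0 := by
  have key : ∀ {φ : ℝ → ℝ}, ContDiffAt ℝ 2 φ 0 →
      (∀ᶠ t in nhds (0 : ℝ), DifferentiableAt ℝ φ t) ∧ DifferentiableAt ℝ (deriv φ) 0 := by
    intro φ hφ
    constructor
    · have h1 := hφ.eventually (by simp)
      filter_upwards [h1] with t ht
      exact ht.differentiableAt (by norm_num)
    · have h1 : ContDiffAt ℝ 1 (fderiv ℝ φ) 0 := hφ.fderiv_right (by norm_num)
      have h2 : deriv φ = fun t => fderiv ℝ φ t 1 := by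
        funext t
        exact (fderiv_apply_one_eq_deriv).symm
      rw [h2]
      exact (h1.clm_apply contDiffAt_const).differentiableAt (by norm_num)
  obtain ⟨h1, h2⟩ := key hφ
  obtain ⟨h3, h4⟩ := key hψ
  have h5 : deriv (fun t => φ t + ψ t) =ᶠ[nhds 0] fun t => deriv φ t + deriv ψ t := by
    filter_upwards [h1, h3] with t h1 h3
    exact deriv_fun_add h1 h3
  rw [h5.deriv_eq]
  exact deriv_fun_add h2 h4

/-- Maximum principle.  Proof: suppose `u x1 > c` for some `x1` in the closed ball; for small `ε > 0` the function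
`f(x) = u x + ε |x|^2` still satisfies `f x1 > c + ε s^2`, hence its maximum over the compact closed ball is attained at an
interior point `x0` (on the sphere `f ≤ c + ε s^2`), which is a local maximum, so by `iter_nonpos` and `lap_eq` the Laplacian
of `f` at `x0` is `≤ 0`; but it is `0 + 2 n ε > 0` (the second derivative of `t -> ε |x0 + t e_i|^2` is `2 ε`). -/
theorem max_principle {n : ℕ} (hn : 1 ≤ n) {u : E n → ℝ} {s c : ℝ} (hu : HarmonicOnNhd u (closedBall (0 : E n) s))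
    (h : ∀ x : E n, ‖x‖ = s → u x ≤ c) : ∀ x : E n, ‖x‖ ≤ s → u x ≤ c := by
  intro x1 hx1
  by_contra hcon
  push Not at hcon
  have hs2 : 0 < s ^ 2 + 1 := by positivity
  obtain ⟨ε, hε⟩ : ∃ ε, ε = (u x1 - c) / (2 * (s ^ 2 + 1)) := ⟨_, rfl⟩
  have hε0 : 0 < ε := by
    rw [hε]
    exact div_pos (sub_pos.2 hcon) (by positivity)
  have hε1 : c + ε * s ^ 2 < u x1 := by
    have h1 : ε * (2 * (s ^ 2 + 1)) = u x1 - c := by
      rw [hε]
      field_simp
    nlinarith [mul_pos hε0 hs2]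
  obtain ⟨f, hf⟩ : ∃ f : E n → ℝ, f = fun x => u x + ε * ‖x‖ ^ 2 := ⟨_, rfl⟩
  have hcu : ContinuousOn u (closedBall (0 : E n) s) := hu.continuousOn
  have hcf : ContinuousOn f (closedBall (0 : E n) s) := by
    rw [hf]
    exact hcu.add (by fun_prop)
  obtain ⟨x0, hx0, hmax⟩ := (isCompact_closedBall (0 : E n) s).exists_isMaxOn
    ⟨x1, by rw [mem_closedBall_zero_iff]; exact hx1⟩ hcf
  have hfx : c + ε * s ^ 2 < f x0 := by
    have h1 : f x1 ≤ f x0 := hmax (by rw [mem_closedBall_zero_iff]; exact hx1)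
    have h2 : u x1 ≤ f x1 := by
      rw [hf]
      have : 0 ≤ ε * ‖x1‖ ^ 2 := by positivity
      simp only
      linarith
    linarith
  have hx0' : ‖x0‖ ≤ s := by rwa [mem_closedBall_zero_iff] at hx0
  have hlt : ‖x0‖ < s := by
    rcases lt_or_eq_of_le hx0' with h1 | h1
    · exact h1
    · exfalso
      have h2 := h x0 h1
      have h3 : f x0 = u x0 + ε * s ^ 2 := by
        rw [hf]
        simp only
        rw [h1]
      linarith
  have hnhds : closedBall (0 : E n) s ∈ nhds x0 :=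
    Filter.mem_of_superset (isOpen_ball.mem_nhds (by rwa [mem_ball_zero_iff])) ball_subset_closedBall
  have hloc : IsLocalMax f x0 := hmax.isLocalMax hnhds
  have hux := hu x0 hx0
  have hcd : ContDiffAt ℝ 2 u x0 := hux.1
  have hcdf : ContDiffAt ℝ 2 f x0 := by
    rw [hf]
    exact hcd.add (contDiffAt_const.mul (contDiff_norm_sq ℝ).contDiffAt)
  have hlap : (Δ u) x0 = 0 := hux.2.self_of_nhds
  rw [lap_eq hcd] at hlap
  have hi : ∀ i : Fin n, deriv (deriv (fun t : ℝ => u (x0 + t • EuclideanSpace.single i (1 : ℝ)))) 0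
      + 2 * ε ≤ 0 := by
    intro i
    have h1 := iter_nonpos hcdf hloc (EuclideanSpace.single i (1 : ℝ))
    have h2 : (fun t : ℝ => f (x0 + t • EuclideanSpace.single i (1 : ℝ))) = fun t =>
        u (x0 + t • EuclideanSpace.single i (1 : ℝ)) +
          (ε * ‖x0‖ ^ 2 + t * (2 * ε * inner ℝ x0 (EuclideanSpace.single i (1 : ℝ))) +
            ε * t ^ 2) := by
      funext t
      rw [hf]
      simp only
      rw [norm_add_sq_real, inner_smul_right, norm_smul, PiLp.norm_single, norm_one,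
        mul_one, Real.norm_eq_abs, sq_abs]
      ring
    have h0 : x0 + (0 : ℝ) • EuclideanSpace.single i (1 : ℝ) = x0 := by rw [zero_smul, add_zero]
    have hφ : ContDiffAt ℝ 2 (fun t : ℝ => u (x0 + t • EuclideanSpace.single i (1 : ℝ))) 0 := by
      have h3 : ContDiffAt ℝ 2 u ((fun t : ℝ => x0 + t • EuclideanSpace.single i (1 : ℝ)) 0) := by
        simp only [h0]
        exact hcd
      exact h3.comp (0 : ℝ) (by fun_prop)
    rw [h2, dd_add hφ (by fun_prop)] at h1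
    have h3 : deriv (deriv (fun t : ℝ =>
        ε * ‖x0‖ ^ 2 + t * (2 * ε * inner ℝ x0 (EuclideanSpace.single i (1 : ℝ))) +
            ε * t ^ 2)) 0 = 2 * ε := by
      generalize (2 * ε * inner ℝ x0 (EuclideanSpace.single i (1 : ℝ)) : ℝ) = w
      generalize (ε * ‖x0‖ ^ 2 : ℝ) = z
      have h4 : deriv (fun t : ℝ => z + t * w + ε * t ^ 2) = fun t => w + ε * (2 * t) := by
        funext t
        have h5 : HasDerivAt (fun t : ℝ => z + t * w + ε * t ^ 2) (w + ε * (2 * t)) t := by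
          have h6 := ((hasDerivAt_id' t).mul_const w).const_add z
          have h7 := ((hasDerivAt_pow 2 t).const_mul ε)
          refine (h6.fun_add h7).congr_deriv ?_
          norm_num
        exact h5.deriv
      rw [h4]
      have h5 : HasDerivAt (fun t : ℝ => w + ε * (2 * t)) (ε * 2) 0 := by
        have h6 := (((hasDerivAt_id' (0 : ℝ)).const_mul 2).const_mul ε).const_add w
        exact h6.congr_deriv (by ring)
      rw [h5.deriv, mul_comm]
    rw [h3] at h1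
    exact h1
  have hsum := Finset.sum_le_sum (fun i (_ : i ∈ (Finset.univ : Finset (Fin n))) => hi i)
  rw [Finset.sum_add_distrib, hlap, Finset.sum_const, Finset.sum_const_zero, zero_add,
    Finset.card_univ, Fintype.card_fin, nsmul_eq_mul] at hsum
  have h1 : (1 : ℝ) ≤ n := by exact_mod_cast hn
  nlinarith

end TB
end

section

namespace TB

open Metric MeasureTheory InnerProductSpace Laplacian

open Filter Topology

private theorem N1_q1 {a b : ℝ} (ha : 0 < a) (hab : a < b) (hb : b < 1) : 1 < q1 a b := by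
  unfold q1
  rw [lt_div_iff₀ (by positivity)]
  have h1 : 0 < (b - a) * (1 - a * b) := by
    apply mul_pos (by linarith)
    nlinarith
  nlinarith

private theorem N1_L {a b : ℝ} (ha : 0 < a) (hab : a < b) (hb : b < 1) :
    Tendsto (fun n : ℕ => Lq n a b) atTop atTop := by
  have h1 : 1 < √(q1 a b) := by
    rw [Real.lt_sqrt (by norm_num)]
    simpa using N1_q1 ha hab hb
  exact tendsto_pow_atTop_atTop_of_one_lt h1

private theorem N1_p {a : ℝ} (ha : 0 < a) : Tendsto (fun n : ℕ => 4 * p1 n a) atTop (𝓝 0) := by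
  have h1 : 1 < √(1 + a ^ 2) := by
    rw [Real.lt_sqrt (by norm_num)]
    have : 0 < a ^ 2 := by positivity
    linarith
  have h2 : Tendsto (fun n : ℕ => p1 n a) atTop (𝓝 0) :=
    tendsto_inv_atTop_zero.comp (tendsto_pow_atTop_atTop_of_one_lt h1)
  simpa using h2.const_mul 4

private theorem N1_p_pos (n : ℕ) (a : ℝ) : 0 < 4 * p1 n a := by
  have : 0 < √(1 + a ^ 2) := Real.sqrt_pos.2 (by positivity)
  unfold p1
  positivity

private theorem N1_gam {a b : ℝ} (ha : 0 < a) (hab : a < b) (hb : b < 1) :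
    Tendsto (fun n : ℕ => gam n a b) atTop (𝓝 0) := by
  have e : (fun n : ℕ => gam n a b) =
      fun n : ℕ => (1 - b) / (1 - a) * ((1 + a) / (1 + b)) ^ (n - 1) := by
    funext n
    unfold gam
    rw [div_pow, div_mul_div_comm]
  rw [e]
  have h0 : 0 ≤ (1 + a) / (1 + b) := by
    apply div_nonneg <;> linarith
  have h1 : (1 + a) / (1 + b) < 1 := by
    rw [div_lt_one (by linarith)]
    linarith
  have h2 := (tendsto_pow_atTop_nhds_zero_of_lt_one h0 h1).comp (tendsto_sub_atTop_nat 1)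
  simpa using h2.const_mul ((1 - b) / (1 - a))

private theorem N1_nL {a b : ℝ} (ha : 0 < a) (hab : a < b) (hb : b < 1) (C c : ℝ) (hc : 0 < c) :
    ∀ᶠ n : ℕ in atTop, (n : ℝ) * C ≤ c * Lq n a b := by
  have h1 : 1 < √(q1 a b) := by
    rw [Real.lt_sqrt (by norm_num)]
    simpa using N1_q1 ha hab hb
  have h2 := (tendsto_pow_const_div_const_pow_of_one_lt 1 h1).mul_const C
  rw [zero_mul] at h2
  filter_upwards [h2.eventually (ge_mem_nhds hc)] with n hn
  have h3 : 0 < √(q1 a b) ^ n := by positivity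
  have h4 : (n : ℝ) ^ 1 / √(q1 a b) ^ n * C = (n * C) / √(q1 a b) ^ n := by
    rw [pow_one]
    ring
  rw [h4, div_le_iff₀ h3] at hn
  exact hn

private theorem N1_k {a b : ℝ} (ha : 0 < a) (hb : b < 1) :
    ∃ k : ℕ, b < a ^ ((1 / 2 : ℝ) ^ k) := by
  have h1 : Tendsto (fun k : ℕ => (1 / 2 : ℝ) ^ k) atTop (𝓝 0) :=
    tendsto_pow_atTop_nhds_zero_of_lt_one (by norm_num) (by norm_num)
  have h2 : Tendsto (fun k : ℕ => a ^ ((1 / 2 : ℝ) ^ k)) atTop (𝓝 (a ^ (0 : ℝ))) :=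
    ((Real.continuous_const_rpow ha.ne').tendsto 0).comp h1
  rw [Real.rpow_zero] at h2
  exact (h2.eventually (lt_mem_nhds hb)).exists

private theorem N1_g3 {a : ℝ} {n : ℕ} (hn : 10 ≤ n) (hp : 4 * p1 n a ≤ (1 / 8 : ℝ) ^ 8) :
    4 * (√3) ^ n * (4 * p1 n a) ^ (((n : ℝ) - 5) / 4) ≤ 1 := by
  have h0 := N1_p_pos n a
  have hn' : (10 : ℝ) ≤ n := by exact_mod_cast hn
  have h1 : (4 * p1 n a) ^ (((n : ℝ) - 5) / 4) ≤ (4 * p1 n a) ^ ((n : ℝ) / 8) := by
    apply Real.rpow_le_rpow_of_exponent_ge h0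
    · exact hp.trans (by norm_num)
    · linarith
  have h2 : (4 * p1 n a) ^ ((n : ℝ) / 8) ≤ ((1 / 8 : ℝ) ^ 8) ^ ((n : ℝ) / 8) :=
    Real.rpow_le_rpow h0.le hp (by positivity)
  have h3 : ((1 / 8 : ℝ) ^ 8) ^ ((n : ℝ) / 8) = (1 / 8 : ℝ) ^ n := by
    rw [← Real.rpow_natCast (1 / 8) 8, ← Real.rpow_mul (by norm_num)]
    have : ((8 : ℕ) : ℝ) * ((n : ℝ) / 8) = n := by
      push_cast
      ring
    rw [this, Real.rpow_natCast]
  have h4 : √3 ^ n ≤ 2 ^ n := by
    apply pow_le_pow_left₀ (Real.sqrt_nonneg 3)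
    rw [Real.sqrt_le_left (by norm_num)]
    norm_num
  have h5 : (4 * p1 n a) ^ (((n : ℝ) - 5) / 4) ≤ (1 / 8 : ℝ) ^ n := h1.trans (h2.trans h3.le)
  calc 4 * (√3) ^ n * (4 * p1 n a) ^ (((n : ℝ) - 5) / 4)
      ≤ 4 * 2 ^ n * (1 / 8 : ℝ) ^ n := by
        apply mul_le_mul _ h5 (by positivity) (by positivity)
        linarith
    _ = 4 * (1 / 4 : ℝ) ^ n := by
        rw [mul_assoc, ← mul_pow]
        norm_num
    _ ≤ 4 * (1 / 4 : ℝ) ^ 1 := by
        apply mul_le_mul_of_nonneg_left _ (by norm_num)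
        exact pow_le_pow_of_le_one (by norm_num) (by norm_num) (by omega)
    _ = 1 := by norm_num

/-- For fixed `0 < a < b < 1` the conditions hold for all large `n`.  Proof: `q1 a b > 1` (as `(1+b)^2/(1+b^2)` increases), so
`Lq n a b = (√q1)^n → ∞` exponentially (`n / Lq → 0`); `p1 n a = (√(1+a^2))^(-n) → 0` exponentially;
`gam n a b = ((1-b)/(1-a)) ((1+a)/(1+b))^(n-1) → 0`.  Fix `k` with `b < a^((1/2)^k)` (`a^((1/2)^k) → 1`); the two other
conditions of `g5` hold for large `n`.  `g4`: `p1 → 0`, `c0 > 0`.  `g3`: with `w = √(1+a^2) > 1`, for large `n`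
`4 p1 ≤ w^(-n/2)`, so `(4 p1)^((n-5)/4) ≤ w^(-n(n-5)/8)`, while `4 (√3)^n = exp(O(n))`: e.g. take `n` so large that
`(4 p1)^((1 - 5/n)/4) ≤ (4 p1)^(1/8) ≤ 1/8`, then `4 (√3)^n (4 p1)^((n-5)/4) ≤ 4 2^n (1/8)^n ≤ 1`.
Use `Filter.Eventually` (`filter_upwards`) and `Filter.eventually_atTop`. -/
theorem good_eventually {a b : ℝ} (ha : 0 < a) (hab : a < b) (hb : b < 1) : ∃ n0 : ℕ, ∀ n : ℕ, n0 ≤ n → Good n a b := by
  rw [← Filter.eventually_atTop]
  obtain ⟨k, hk⟩ := N1_k (b := b) ha hb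
  have hc : 0 < c0 a b ^ 2 / 4 := by
    have h1 : 0 < (b - a) * (1 - a * b) := by
      apply mul_pos (by linarith)
      nlinarith
    unfold c0
    positivity
  have hk2 : (0 : ℝ) < (1 / 2 : ℝ) ^ k / 2 := by positivity
  have hk8 : (0 : ℝ) < (1 / 2 : ℝ) ^ k / 8 := by positivity
  filter_upwards [Filter.eventually_ge_atTop 10, (N1_L ha hab hb).eventually_ge_atTop 4,
    (N1_p ha).eventually (ge_mem_nhds (show (0 : ℝ) < (1 / 8 : ℝ) ^ 8 by norm_num)),
    (N1_p ha).eventually (ge_mem_nhds hc), (N1_gam ha hab hb).eventually (ge_mem_nhds hk2),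
    N1_nL ha hab hb (Real.log (2 / (a ^ ((1 / 2 : ℝ) ^ k) - b))) _ hk8] with n h1 h2 h3 h4 h5 h6
  refine ⟨by omega, h2, N1_g3 h1 h3, h4, k, hk, h5, ?_⟩
  calc _ ≤ (1 / 2 : ℝ) ^ k / 8 * Lq n a b := h6
    _ = _ := by ring

end TB
end

section

namespace TB

open Metric MeasureTheory InnerProductSpace Laplacian

private theorem V2_contDiff {n : ℕ} (i0 i1 : Fin n) (R : ℝ) :
    ContDiff ℝ 2 (fun x : E n => x i0 - (x i0 ^ 3 - 3 * x i0 * x i1 ^ 2) / (9 * R ^ 2)) := by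
  have h0 : ContDiff ℝ 2 (fun x : E n => x i0) :=
    (EuclideanSpace.proj i0 : E n →L[ℝ] ℝ).contDiff
  have h1 : ContDiff ℝ 2 (fun x : E n => x i1) :=
    (EuclideanSpace.proj i1 : E n →L[ℝ] ℝ).contDiff
  exact h0.sub (((h0.pow 3).sub ((contDiff_const.mul h0).mul (h1.pow 2))).div_const _)

private theorem V2_dd (c0 c1 c2 c3 : ℝ) :
    deriv (deriv (fun t : ℝ => c0 + c1 * t + c2 * t ^ 2 + c3 * t ^ 3)) 0 = 2 * c2 := by
  have h1 : deriv (fun t : ℝ => c0 + c1 * t + c2 * t ^ 2 + c3 * t ^ 3) =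
      fun t => c1 + 2 * c2 * t + 3 * c3 * t ^ 2 := by
    funext t
    have h : HasDerivAt (fun t : ℝ => c0 + c1 * t + c2 * t ^ 2 + c3 * t ^ 3)
        (0 + c1 * 1 + c2 * (((2 : ℕ) : ℝ) * t ^ (2 - 1)) + c3 * (((3 : ℕ) : ℝ) * t ^ (3 - 1))) t :=
      ((((hasDerivAt_const t c0).add ((hasDerivAt_id' t).const_mul c1)).add
        ((hasDerivAt_pow 2 t).const_mul c2)).add ((hasDerivAt_pow 3 t).const_mul c3))
    rw [h.deriv]
    norm_num
    ring
  rw [h1]
  have h : HasDerivAt (fun t : ℝ => c1 + 2 * c2 * t + 3 * c3 * t ^ 2)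
      (0 + 2 * c2 * 1 + 3 * c3 * (((2 : ℕ) : ℝ) * (0 : ℝ) ^ (2 - 1))) 0 :=
    (((hasDerivAt_const 0 c1).add ((hasDerivAt_id' 0).const_mul (2 * c2))).add
      ((hasDerivAt_pow 2 (0 : ℝ)).const_mul (3 * c3)))
  rw [h.deriv]
  norm_num

private theorem V2_coord {n : ℕ} (y : E n) (t : ℝ) (i j : Fin n) :
    (y + t • EuclideanSpace.single i (1 : ℝ)) j = y j + t * (if j = i then 1 else 0) := by
  simp

/-- The harmonic polynomial `x0 - (x0^3 - 3 x0 x1^2)/(9 R^2)` (`lap_eq`: along `e_0` the second derivative of `x0^3 - 3 x0 x1^2` is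
`6 x0`, along `e_1` it is `- 6 x0`, along the others `0`). -/
theorem poly_harm {n : ℕ} {i0 i1 : Fin n} (h : i0 ≠ i1) (R : ℝ) (x : E n) :
    HarmonicAt (fun x : E n => x i0 - (x i0 ^ 3 - 3 * x i0 * x i1 ^ 2) / (9 * R ^ 2)) x := by
  refine ⟨(V2_contDiff i0 i1 R).contDiffAt, Filter.Eventually.of_forall fun y => ?_⟩
  rw [lap_eq (V2_contDiff i0 i1 R).contDiffAt]
  obtain ⟨A, hA⟩ : ∃ A : ℝ, A = - (6 * y i0) / (9 * R ^ 2) := ⟨_, rfl⟩
  have hterm : ∀ i : Fin n, deriv (deriv (fun t : ℝ =>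
      (y + t • EuclideanSpace.single i (1 : ℝ)) i0 - ((y + t • EuclideanSpace.single i (1 : ℝ)) i0 ^ 3 -
        3 * (y + t • EuclideanSpace.single i (1 : ℝ)) i0 *
        (y + t • EuclideanSpace.single i (1 : ℝ)) i1 ^ 2) / (9 * R ^ 2))) 0 =
      (if i = i0 then A else 0) + (if i = i1 then - A else 0) := by
    intro i
    simp only [V2_coord]
    by_cases hi0 : i = i0
    · subst hi0
      rw [if_pos rfl, if_pos rfl, if_neg h, if_neg (fun h' => h h'.symm)]
      have e : (fun t : ℝ => y i + t * 1 - ((y i + t * 1) ^ 3 - 3 * (y i + t * 1) *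
          (y i1 + t * 0) ^ 2) / (9 * R ^ 2)) = fun t => (y i - (y i ^ 3 - 3 * y i * y i1 ^ 2) /
          (9 * R ^ 2)) + (1 - (3 * y i ^ 2 - 3 * y i1 ^ 2) / (9 * R ^ 2)) * t +
          (- (3 * y i) / (9 * R ^ 2)) * t ^ 2 + (- 1 / (9 * R ^ 2)) * t ^ 3 := by
        funext t
        ring
      rw [e, V2_dd, hA]
      ring
    · by_cases hi1 : i = i1
      · subst hi1
        rw [if_neg h, if_pos rfl, if_neg hi0, if_pos rfl]
        have e : (fun t : ℝ => y i0 + t * 0 - ((y i0 + t * 0) ^ 3 - 3 * (y i0 + t * 0) *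
            (y i + t * 1) ^ 2) / (9 * R ^ 2)) = fun t => (y i0 - (y i0 ^ 3 - 3 * y i0 * y i ^ 2) /
            (9 * R ^ 2)) + (6 * y i0 * y i / (9 * R ^ 2)) * t +
            (3 * y i0 / (9 * R ^ 2)) * t ^ 2 + 0 * t ^ 3 := by
          funext t
          ring
        rw [e, V2_dd, hA]
        ring
      · rw [if_neg (fun h' => hi0 h'.symm), if_neg (fun h' => hi1 h'.symm), if_neg hi0, if_neg hi1]
        have e : (fun t : ℝ => y i0 + t * 0 - ((y i0 + t * 0) ^ 3 - 3 * (y i0 + t * 0) *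
            (y i1 + t * 0) ^ 2) / (9 * R ^ 2)) = fun t => (y i0 - (y i0 ^ 3 - 3 * y i0 * y i1 ^ 2) /
            (9 * R ^ 2)) + 0 * t + 0 * t ^ 2 + 0 * t ^ 3 := by
          funext t
          ring
        rw [e, V2_dd]
        ring
  rw [Finset.sum_congr rfl fun i _ => hterm i, Finset.sum_add_distrib, Finset.sum_ite_eq' Finset.univ i0,
    Finset.sum_ite_eq' Finset.univ i1, if_pos (Finset.mem_univ _), if_pos (Finset.mem_univ _)]
  simp

/-- Its modulus is at most `g |x|`, `g t = t - t^3/(9 R^2)`, for `|x| ≤ R`.  Proof: let `c = |x0|`, `t = |x|`, `x1^2 ≤ t^2 - c^2`.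
The value for `x0 = c ≥ 0` lies between `c - c^3/(9R^2) ≥ 0` and `c (1 + t^2/(3R^2)) - 4 c^3/(9 R^2)`, which is at most its value
at `c = t`: the difference is `(t - c) (1 + t^2/(3R^2) - 4 (t^2 + t c + c^2)/(9R^2)) ≥ 0`.  The function is odd in `x0`. -/
theorem poly_le {n : ℕ} {i0 i1 : Fin n} (h : i0 ≠ i1) {R : ℝ} (hR : 0 < R) {x : E n} (hx : ‖x‖ ≤ R) :
    |x i0 - (x i0 ^ 3 - 3 * x i0 * x i1 ^ 2) / (9 * R ^ 2)| ≤ ‖x‖ - ‖x‖ ^ 3 / (9 * R ^ 2) := by
  obtain ⟨t, ht⟩ : ∃ t : ℝ, t = ‖x‖ := ⟨_, rfl⟩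
  obtain ⟨a, ha⟩ : ∃ a : ℝ, a = x i0 := ⟨_, rfl⟩
  obtain ⟨b, hb⟩ : ∃ b : ℝ, b = x i1 := ⟨_, rfl⟩
  have hsum : a ^ 2 + b ^ 2 ≤ t ^ 2 := by
    rw [ht, EuclideanSpace.norm_sq_eq, ha, hb]
    have h1 : ∑ i ∈ ({i0, i1} : Finset (Fin n)), ‖x i‖ ^ 2 ≤ ∑ i, ‖x i‖ ^ 2 :=
      Finset.sum_le_sum_of_subset_of_nonneg (Finset.subset_univ _) fun i _ _ => sq_nonneg _
    rw [Finset.sum_pair h, Real.norm_eq_abs, Real.norm_eq_abs, sq_abs, sq_abs] at h1
    exact h1
  rw [← ha, ← hb, ← ht]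
  rw [← ht] at hx
  have ht0 : 0 ≤ t := by
    rw [ht]
    exact norm_nonneg _
  obtain ⟨K, hK⟩ : ∃ K : ℝ, K = 9 * R ^ 2 := ⟨_, rfl⟩
  have hK0 : 0 < K := by
    rw [hK]
    positivity
  rw [← hK]
  obtain ⟨c, hc⟩ : ∃ c : ℝ, c = |a| := ⟨_, rfl⟩
  have hc0 : 0 ≤ c := by
    rw [hc]
    exact abs_nonneg _
  have hc2 : c ^ 2 = a ^ 2 := by
    rw [hc]
    exact sq_abs _
  have hct : c ≤ t := by
    refine abs_le_of_sq_le_sq' ?_ ht0 |>.2
    nlinarith [sq_nonneg b]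
  have hnn : 0 ≤ K - a ^ 2 + 3 * b ^ 2 := by
    rw [hK]
    nlinarith [sq_nonneg b, sq_nonneg a, mul_nonneg ht0 ht0, mul_self_le_mul_self ht0 hx]
  have e1 : a - (a ^ 3 - 3 * a * b ^ 2) / K = a * ((K - a ^ 2 + 3 * b ^ 2) / K) := by
    field_simp
    ring
  have e2 : t - t ^ 3 / K = (t * K - t ^ 3) / K := by
    field_simp
  rw [e1, e2, abs_mul, abs_of_nonneg (div_nonneg hnn hK0.le), ← hc, ← mul_div_assoc]
  refine div_le_div_of_nonneg_right ?_ hK0.le
  have h1 : c * (K - a ^ 2 + 3 * b ^ 2) ≤ c * (K - 4 * c ^ 2 + 3 * t ^ 2) := by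
    refine mul_le_mul_of_nonneg_left ?_ hc0
    rw [hc2]
    linarith
  refine h1.trans ?_
  have h2 : 0 ≤ (t - c) * (9 * R ^ 2 - (t + 2 * c) ^ 2) := by
    refine mul_nonneg (by linarith) ?_
    have h3 : (t + 2 * c) ^ 2 ≤ (3 * R) ^ 2 := by
      refine pow_le_pow_left₀ (by positivity) ?_ 2
      linarith
    nlinarith
  rw [hK]
  nlinarith

end TB
end

section

namespace TB

open Metric MeasureTheory InnerProductSpace Laplacian

private theorem Pk_meas_right_I0 {n : ℕ} (x : E n) : Measurable (fun ζ : E n => Pk x ζ) := by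
  have h2 : Measurable (fun ζ : E n => ((x, ζ) : E n × E n)) := measurable_prodMk_left
  have h3 := (Pk_meas n).comp h2
  simp only [Function.comp_def] at h3
  exact h3

/-- Finite approximation of the Poisson integral, uniform in `|x| ≤ s`.  Proof: `N := n ≥ 1`; the unit sphere `S` is compact,
nonempty.  Let `φ_N = SimpleFunc.approxOn id measurable_id S y0 h0 N` (simple functions with values in `S`, pointwise
convergent to the identity on `S`: `SimpleFunc.approxOn_mem`, `SimpleFunc.tendsto_approxOn`).  Then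
`∫ |φ_N ζ - ζ| dσ → 0` (dominated convergence, bound `2`), and by `Pk_lip`
`|∫ Pk x ζ g ζ - ∫ Pk x (φ_N ζ) g ζ| ≤ K G ∫ |φ_N ζ - ζ|` for all `|x| ≤ s`.  And
`∫ Pk x (φ_N ζ) g ζ dσ = sum_{y in range φ_N} Pk x y ∫_{φ_N = y} g dσ`.  (Alternatively any finite measurable partition of
the sphere into sets of small diameter.)  The integrands are bounded (`Pk_le`, `hG`), hence integrable. -/
theorem finite_approx {n : ℕ} (hn : 1 ≤ n) {s : ℝ} (hs : s < 1) {g : E n → ℝ}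
    (hg : AEStronglyMeasurable g (sig n)) {G : ℝ} (hG : ∀ ζ : E n, ‖ζ‖ = 1 → |g ζ| ≤ G) {ε : ℝ} (hε : 0 < ε) :
    ∃ (T : Finset (E n)) (w : E n → ℝ), (∀ y ∈ T, ‖y‖ = 1) ∧
      ∀ x : E n, ‖x‖ ≤ s → |(∫ ζ, Pk x ζ * g ζ ∂(sig n)) - ∑ y ∈ T, w y * Pk x y| ≤ ε := by
  classical
  haveI := sig_prob n
  haveI : Nonempty (Fin n) := ⟨⟨0, hn⟩⟩
  haveI : Nontrivial (E n) := inferInstance
  obtain ⟨K, hK0, hK⟩ := Pk_lip n hs
  obtain ⟨y0, hy0⟩ : ∃ y : E n, ‖y‖ = 1 := exists_norm_eq (E n) zero_le_one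
  have hG0 : 0 ≤ G := le_trans (abs_nonneg _) (hG y0 hy0)
  have hun := sig_unit (n := n) hn
  have h0 : y0 ∈ sphere (0 : E n) 1 := by simpa using hy0
  let φ : ℕ → SimpleFunc (E n) (E n) := SimpleFunc.approxOn (fun z : E n => z) measurable_id (sphere (0 : E n) 1) y0 h0
  have hφ1 : ∀ N z, ‖φ N z‖ = 1 := by
    intro N z
    have := SimpleFunc.approxOn_mem (f := fun z : E n => z) measurable_id (s := sphere (0 : E n) 1) h0 N z
    simpa using this
  have hφt : ∀ z : E n, ‖z‖ = 1 → Filter.Tendsto (fun N => φ N z) Filter.atTop (nhds z) := by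
    intro z hz
    exact SimpleFunc.tendsto_approxOn (f := fun z : E n => z) measurable_id h0 (subset_closure (by simpa using hz))
  have hlim : Filter.Tendsto (fun N => ∫ z, ‖φ N z - z‖ ∂(sig n)) Filter.atTop (nhds (∫ _z : E n, (0 : ℝ) ∂(sig n))) := by
    refine tendsto_integral_of_dominated_convergence (fun _ => (2 : ℝ)) ?_ (integrable_const _) ?_ ?_
    · intro N
      exact (((φ N).measurable.sub measurable_id).norm).aestronglyMeasurable
    · intro N
      filter_upwards [hun] with z hz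
      rw [Real.norm_eq_abs, abs_of_nonneg (norm_nonneg _)]
      calc ‖φ N z - z‖ ≤ ‖φ N z‖ + ‖z‖ := norm_sub_le _ _
        _ = 2 := by rw [hφ1, hz]; norm_num
    · filter_upwards [hun] with z hz
      have h1 := (hφt z hz).sub_const z
      have h2 := h1.norm
      simpa using h2
  rw [integral_zero] at hlim
  have hpos : 0 < ε / (K * G + 1) := by positivity
  obtain ⟨N, hN⟩ := ((hlim.eventually (gt_mem_nhds hpos))).exists
  have hgi : Integrable g (sig n) := by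
    refine Integrable.mono' (integrable_const G) hg ?_
    filter_upwards [hun] with z hz
    rw [Real.norm_eq_abs]
    exact hG z hz
  refine ⟨(φ N).range, fun y => ∫ z in (φ N) ⁻¹' {y}, g z ∂(sig n), ?_, ?_⟩
  · intro y hy
    obtain ⟨z, rfl⟩ := SimpleFunc.mem_range.1 hy
    exact hφ1 N z
  · intro x hx
    have hx1 : ‖x‖ < 1 := lt_of_le_of_lt hx hs
    have hsum : ∫ z, Pk x (φ N z) * g z ∂(sig n) = ∑ y ∈ (φ N).range, (∫ z in (φ N) ⁻¹' {y}, g z ∂(sig n)) * Pk x y := by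
      have h1 : ∀ z, Pk x (φ N z) * g z
          = ∑ y ∈ (φ N).range, ((φ N) ⁻¹' {y}).indicator (fun z => g z * Pk x y) z := by
        intro z
        rw [Finset.sum_eq_single (φ N z)]
        · rw [Set.indicator_of_mem (by simp)]
          ring
        · intro y _ hy
          rw [Set.indicator_of_notMem]
          intro h
          exact hy (by simpa using h.symm)
        · intro h
          exact absurd (SimpleFunc.mem_range_self (φ N) z) h
      simp_rw [h1]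
      rw [integral_finset_sum]
      · refine Finset.sum_congr rfl (fun y _ => ?_)
        rw [integral_indicator ((φ N).measurableSet_fiber y), integral_mul_const]
      · intro y _
        exact ((hgi.mul_const (Pk x y)).indicator ((φ N).measurableSet_fiber y))
    have hi1 : Integrable (fun z => Pk x z * g z) (sig n) := by
      refine Integrable.mono' (integrable_const ((1 - ‖x‖ ^ 2) / (1 - ‖x‖) ^ n * G))
        ((Pk_meas_right_I0 x).aestronglyMeasurable.mul hg) ?_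
      filter_upwards [hun] with z hz
      rw [norm_mul, Real.norm_eq_abs, Real.norm_eq_abs, abs_of_nonneg (Pk_nonneg hx1.le)]
      exact mul_le_mul (Pk_le hx1 hz) (hG z hz) (abs_nonneg _) (le_trans (Pk_nonneg hx1.le) (Pk_le hx1 hz))
    have hi2 : Integrable (fun z => Pk x (φ N z) * g z) (sig n) := by
      refine Integrable.mono' (integrable_const ((1 - ‖x‖ ^ 2) / (1 - ‖x‖) ^ n * G))
        (((Pk_meas_right_I0 x).comp (φ N).measurable).aestronglyMeasurable.mul hg) ?_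
      filter_upwards [hun] with z hz
      have h3 := hφ1 N z
      rw [norm_mul, Real.norm_eq_abs, Real.norm_eq_abs]
      have h4 : (fun ζ : E n => Pk x ζ) (φ N z) = Pk x (φ N z) := rfl
      try simp only [Function.comp_apply]
      rw [abs_of_nonneg (Pk_nonneg hx1.le)]
      exact mul_le_mul (Pk_le hx1 h3) (hG z hz) (abs_nonneg _) (le_trans (Pk_nonneg hx1.le) (Pk_le hx1 h3))
    rw [← hsum, ← integral_sub hi1 hi2]
    have hi3 : Integrable (fun z => ‖φ N z - z‖) (sig n) := by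
      refine Integrable.mono' (integrable_const (2 : ℝ))
        (((φ N).measurable.sub measurable_id).norm).aestronglyMeasurable ?_
      filter_upwards [hun] with z hz
      rw [Real.norm_eq_abs, abs_of_nonneg (norm_nonneg _)]
      calc ‖φ N z - z‖ ≤ ‖φ N z‖ + ‖z‖ := norm_sub_le _ _
        _ = 2 := by rw [hφ1, hz]; norm_num
    calc |∫ z, (Pk x z * g z - Pk x (φ N z) * g z) ∂(sig n)|
        ≤ ∫ z, |Pk x z * g z - Pk x (φ N z) * g z| ∂(sig n) := abs_integral_le_integral_abs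
      _ ≤ ∫ z, (K * G) * ‖φ N z - z‖ ∂(sig n) := by
          refine integral_mono_ae (hi1.sub hi2).abs (hi3.const_mul _) ?_
          filter_upwards [hun] with z hz
          rw [← sub_mul, abs_mul]
          have h5 := hK x hx z (φ N z) hz (hφ1 N z)
          rw [norm_sub_rev] at h5
          calc |Pk x z - Pk x (φ N z)| * |g z| ≤ (K * ‖φ N z - z‖) * G :=
                mul_le_mul h5 (hG z hz) (abs_nonneg _) (by positivity)
            _ = (K * G) * ‖φ N z - z‖ := by ring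
      _ = (K * G) * ∫ z, ‖φ N z - z‖ ∂(sig n) := integral_const_mul _ _
      _ ≤ (K * G) * (ε / (K * G + 1)) := by
          exact mul_le_mul_of_nonneg_left hN.le (by positivity)
      _ ≤ ε := by
          have h6 : 0 ≤ K * G := by positivity
          rw [mul_div_assoc']
          rw [div_le_iff₀ (by linarith)]
          nlinarith

end TB
end

section

namespace TB

open Metric MeasureTheory InnerProductSpace Laplacian

/-- The logarithmic inequality.  Proof: with `b = exp (- β)`, `a = exp (- α)`, `0 < β < α`, `N t = log ((9 - exp (-2t))/8)` is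
strictly concave on `[0, ∞)` (its derivative `2 exp(-2t)/(9 - exp(-2t)) = 2/(9 exp(2t) - 1)` is strictly decreasing), `N 0 = 0`, so
`N β / β > N α / α`; and `log ((9 s - s^3)/8) = log s + log ((9 - s^2)/8)`.  (Equivalently
`s -> log ((9 - s^2)/8) / (- log s)` is strictly increasing on `(0,1)`.) -/
theorem log_ineq {a b : ℝ} (ha : 0 < a) (hab : a < b) (hb : b < 1) :
    Real.log ((9 * b - b ^ 3) / 8) / Real.log ((9 * a - a ^ 3) / 8) < Real.log b / Real.log a := by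
  have hb0 : 0 < b := ha.trans hab
  have ha1 : a < 1 := hab.trans hb
  have hla : Real.log a < 0 := Real.log_neg ha ha1
  have hlb : Real.log b < 0 := Real.log_neg hb0 hb
  have hlab : Real.log a < Real.log b := Real.log_lt_log ha hab
  have key : ∀ s : ℝ, 0 < s → s < 1 →
      Real.log ((9 * s - s ^ 3) / 8) = Real.log s + Real.log ((9 - s ^ 2) / 8) := by
    intro s hs0 hs1
    have h9 : 0 < (9 - s ^ 2) / 8 := by nlinarith
    rw [← Real.log_mul hs0.ne' h9.ne']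
    congr 1
    ring
  set l : ℝ := Real.log b / Real.log a with hl
  have hl0 : 0 < l := div_pos_of_neg_of_neg hlb hla
  have hl1 : l < 1 := by
    rw [hl, div_lt_one_of_neg hla]
    exact hlab
  have hlmul : l * Real.log a = Real.log b := div_mul_cancel₀ _ hla.ne
  have ha2 : 0 < a ^ 2 := by positivity
  have ha21 : a ^ 2 < 1 := by nlinarith
  have hb2 : b ^ 2 = (a ^ 2) ^ l := by
    rw [Real.rpow_def_of_pos ha2, Real.log_pow]
    have h1 : ((2 : ℕ) : ℝ) * Real.log a * l = Real.log b + Real.log b := by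
      rw [← hlmul]
      push_cast
      ring
    rw [h1, Real.exp_add, Real.exp_log hb0]
    ring
  have h1 : b ^ 2 < 1 + l * (a ^ 2 - 1) := by
    have h := rpow_one_add_lt_one_add_mul_self (s := a ^ 2 - 1) (by linarith)
      (by linarith) hl0 hl1
    rwa [show (1 : ℝ) + (a ^ 2 - 1) = a ^ 2 by ring, ← hb2] at h
  have h2 : ((9 - a ^ 2) / 8) ^ l < (9 - b ^ 2) / 8 := by
    have h := rpow_one_add_lt_one_add_mul_self (s := (1 - a ^ 2) / 8) (by linarith)
      (by linarith) hl0 hl1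
    rw [show (1 : ℝ) + (1 - a ^ 2) / 8 = (9 - a ^ 2) / 8 by ring] at h
    linarith
  have h9a : 0 < (9 - a ^ 2) / 8 := by linarith
  have h3 : l * Real.log ((9 - a ^ 2) / 8) < Real.log ((9 - b ^ 2) / 8) := by
    rw [← Real.log_rpow h9a]
    exact Real.log_lt_log (Real.rpow_pos_of_pos h9a l) h2
  have hneg : Real.log ((9 * a - a ^ 3) / 8) < 0 := by
    apply Real.log_neg
    · nlinarith
    · nlinarith [mul_pos ha (sub_pos.2 ha1), mul_pos (sub_pos.2 ha1) (sub_pos.2 ha21)]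
  rw [div_lt_iff_of_neg hneg, key a ha ha1, key b hb0 hb, mul_add, hlmul]
  linarith

end TB
end

section

namespace TB

open Metric MeasureTheory InnerProductSpace Laplacian

/-- Proof: the test function of `V2` (as a complex function) has `M u s = s - s^3/(9R^2)` for `0 < s ≤ R` (`M_eq`, direction
`e = EuclideanSpace.single i0 1`, `n ≥ 2`), so with `a = ρ/R`, `b = r/R`, `G s = (9 s - s^3)/8`,
admissibility gives, after division by `M u R = 8R/9`, `G b ≤ (G a)^α`, hence `log (G b) ≤ α log (G a)` and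
`α ≤ log (G b) / log (G a)` as `0 < G a < 1`. -/
theorem adm_le_log {n : ℕ} (hn : 2 ≤ n) {ρ r R α : ℝ} (hρ : 0 < ρ) (hr : ρ < r) (hR : r < R)
    (hα : 0 < α) (hα1 : α < 1) (hA : Admissible n ρ r R α) :
    α ≤ Real.log ((9 * (r / R) - (r / R) ^ 3) / 8) / Real.log ((9 * (ρ / R) - (ρ / R) ^ 3) / 8) := by
  have hR0 : 0 < R := by linarith
  obtain ⟨i0, hi0⟩ : ∃ i : Fin n, i = ⟨0, by omega⟩ := ⟨_, rfl⟩
  obtain ⟨i1, hi1⟩ : ∃ i : Fin n, i = ⟨1, by omega⟩ := ⟨_, rfl⟩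
  have h01 : i0 ≠ i1 := by
    rw [hi0, hi1]
    intro h
    have := congrArg Fin.val h
    simp at this
  have he : ‖(EuclideanSpace.single i0 (1 : ℝ) : E n)‖ = 1 := by simp
  let u : E n → ℂ := fun x => ((x i0 - (x i0 ^ 3 - 3 * x i0 * x i1 ^ 2) / (9 * R ^ 2) : ℝ) : ℂ)
  have hu : ∀ x : E n, ‖u x‖ = |x i0 - (x i0 ^ 3 - 3 * x i0 * x i1 ^ 2) / (9 * R ^ 2)| := by
    intro x
    show ‖((x i0 - (x i0 ^ 3 - 3 * x i0 * x i1 ^ 2) / (9 * R ^ 2) : ℝ) : ℂ)‖ = _
    rw [Complex.norm_real, Real.norm_eq_abs]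
  have hK0 : 0 < 9 * R ^ 2 := by positivity
  -- monotonicity of the profile
  have hmono : ∀ s t : ℝ, 0 ≤ s → s ≤ t → t ≤ R →
      s - s ^ 3 / (9 * R ^ 2) ≤ t - t ^ 3 / (9 * R ^ 2) := by
    intro s t hs hst htR
    have h1 : t ^ 3 / (9 * R ^ 2) - s ^ 3 / (9 * R ^ 2) = (t - s) * ((t ^ 2 + t * s + s ^ 2) / (9 * R ^ 2)) := by
      field_simp
      ring
    have h2 : (t ^ 2 + t * s + s ^ 2) / (9 * R ^ 2) ≤ 1 := by
      rw [div_le_one hK0]
      have ht0 : 0 ≤ t := hs.trans hst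
      have h3 : t ^ 2 ≤ R ^ 2 := pow_le_pow_left₀ ht0 htR 2
      have h4 : s ^ 2 ≤ t ^ 2 := pow_le_pow_left₀ hs hst 2
      nlinarith [mul_nonneg ht0 (sub_nonneg.2 hst)]
    have h5 := mul_le_mul_of_nonneg_left h2 (sub_nonneg.2 hst)
    linarith
  -- the values of `M`
  have hM : ∀ s : ℝ, 0 < s → s ≤ R → M u s = s - s ^ 3 / (9 * R ^ 2) := by
    intro s hs hsR
    refine M_eq (n := n) (u := u) (s := s) hs (g := fun t => t - t ^ 3 / (9 * R ^ 2))
      (e := EuclideanSpace.single i0 (1 : ℝ)) ?_ ?_ ?_ he ?_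
    · exact Continuous.continuousOn (by fun_prop)
    · intro t1 h1 t2 h2 h12
      exact hmono t1 t2 h1.1 h12 (h2.2.trans hsR)
    · intro x hx
      rw [hu x]
      exact poly_le h01 hR0 (by linarith)
    · intro t ht hts
      rw [hu]
      have e0 : (t • (EuclideanSpace.single i0 (1 : ℝ) : E n)) i0 = t := by simp
      have e1 : (t • (EuclideanSpace.single i0 (1 : ℝ) : E n)) i1 = 0 := by
        simp [h01.symm]
      rw [e0, e1]
      have h3 : 0 ≤ t - t ^ 3 / (9 * R ^ 2) := by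
        have := hmono 0 t le_rfl ht (by linarith)
        simpa using this
      show _ = t - t ^ 3 / (9 * R ^ 2)
      rw [show t - (t ^ 3 - 3 * t * (0 : ℝ) ^ 2) / (9 * R ^ 2) = t - t ^ 3 / (9 * R ^ 2) by ring]
      exact abs_of_nonneg h3
  have hharm : HarmonicOnNhd u (ball 0 R) := by
    intro x hx
    exact (poly_harm h01 R x).comp_CLM Complex.ofRealCLM
  have hbd : ∃ C : ℝ, ∀ x ∈ ball (0 : E n) R, ‖u x‖ ≤ C := by
    refine ⟨R - R ^ 3 / (9 * R ^ 2), fun x hx => ?_⟩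
    have hxR : ‖x‖ < R := by simpa using hx
    rw [hu x]
    exact (poly_le h01 hR0 hxR.le).trans (hmono _ _ (norm_nonneg _) hxR.le le_rfl)
  have hAu := hA u hharm hbd
  rw [hM ρ hρ (by linarith), hM r (by linarith) hR.le, hM R hR0 le_rfl] at hAu
  have key : ∀ s : ℝ, s - s ^ 3 / (9 * R ^ 2) = (8 * R / 9) * ((9 * (s / R) - (s / R) ^ 3) / 8) := by
    intro s
    field_simp
    try ring
  rw [key ρ, key r, show R - R ^ 3 / (9 * R ^ 2) = 8 * R / 9 by field_simp; ring] at hAu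
  have hG : ∀ s : ℝ, 0 < s → s < R → 0 < (9 * (s / R) - (s / R) ^ 3) / 8 ∧
      (9 * (s / R) - (s / R) ^ 3) / 8 < 1 := by
    intro s hs hsR
    have h1 : 0 < s / R := by positivity
    have h2 : s / R < 1 := by rw [div_lt_one hR0]; exact hsR
    obtain ⟨w, hw⟩ : ∃ w : ℝ, w = s / R := ⟨_, rfl⟩
    rw [← hw] at h1 h2 ⊢
    have h3 : w ^ 2 < 1 := by nlinarith
    constructor
    · nlinarith
    · nlinarith [mul_pos h1 (sub_pos.2 h2), mul_pos (sub_pos.2 h2) (sub_pos.2 h3)]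
  obtain ⟨ha0, ha1⟩ := hG ρ hρ (by linarith)
  obtain ⟨hb0, hb1⟩ := hG r (by linarith) hR
  obtain ⟨A, hAdef⟩ : ∃ A : ℝ, A = (9 * (ρ / R) - (ρ / R) ^ 3) / 8 := ⟨_, rfl⟩
  obtain ⟨B, hBdef⟩ : ∃ B : ℝ, B = (9 * (r / R) - (r / R) ^ 3) / 8 := ⟨_, rfl⟩
  rw [← hAdef] at ha0 ha1 hAu ⊢
  rw [← hBdef] at hb0 hb1 hAu ⊢
  have hKpos : 0 < 8 * R / 9 := by positivity
  rw [Real.mul_rpow hKpos.le ha0.le, mul_comm ((8 * R / 9) ^ α) (A ^ α), mul_assoc,
    ← Real.rpow_add hKpos, show α + (1 - α) = 1 by ring, Real.rpow_one, mul_comm (A ^ α)] at hAu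
  have hfin : B ≤ A ^ α := le_of_mul_le_mul_left hAu hKpos
  have hlog : Real.log B ≤ α * Real.log A := by
    rw [← Real.log_rpow ha0]
    exact Real.log_le_log hb0 hfin
  rw [le_div_iff_of_neg (Real.log_neg ha0 ha1)]
  exact hlog

end TB
end

section

namespace TB

open Metric MeasureTheory InnerProductSpace Laplacian

private theorem exists_iso {n : ℕ} {x y : E n} (h : ‖x‖ = ‖y‖) : ∃ U : E n ≃ₗᵢ[ℝ] E n, U x = y := by
  refine ⟨Submodule.reflection (Submodule.span ℝ {x - y})ᗮ, ?_⟩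
  exact Submodule.reflection_sub h

private theorem Pk_iso {n : ℕ} (U : E n ≃ₗᵢ[ℝ] E n) (x ζ : E n) : Pk (U x) (U ζ) = Pk x ζ := by
  unfold Pk
  rw [← map_sub, LinearIsometryEquiv.norm_map, LinearIsometryEquiv.norm_map]

private theorem Pk_meas_right {n : ℕ} (x : E n) : Measurable (fun ζ : E n => Pk x ζ) := by
  unfold Pk
  fun_prop

private theorem int_iso {n : ℕ} (U : E n ≃ₗᵢ[ℝ] E n) (x : E n) :
    ∫ ζ, Pk (U x) ζ ∂(sig n) = ∫ ζ, Pk x ζ ∂(sig n) := by
  have hUc : Measurable (U : E n → E n) := U.continuous.measurable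
  have h1 : ∫ ζ, Pk (U x) ζ ∂(Measure.map (U : E n → E n) (sig n)) = ∫ ζ, Pk (U x) (U ζ) ∂(sig n) :=
    integral_map hUc.aemeasurable (Pk_meas_right (U x)).aestronglyMeasurable
  have h2 : Measure.map (U : E n → E n) (sig n) = sig n := sig_map U
  have h3 : ∫ ζ, Pk (U x) (U ζ) ∂(sig n) = ∫ ζ, Pk x ζ ∂(sig n) := by
    congr 1
    funext ζ
    exact Pk_iso U x ζ
  rw [h2] at h1
  exact h1.trans h3

/-- Radial symmetry.  Proof: if `|x| = |y|` there is a linear isometry `U` with `U x = y` (`reflection_sub`: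
`reflection (ℝ ∙ (x - y))ᗮ x = y`), `Pk (U x) (U ζ) = Pk x ζ`, and `sig_map`, `integral_map`. -/
theorem mass_radial {n : ℕ} {x y : E n} (h : ‖x‖ = ‖y‖) : ∫ ζ, Pk x ζ ∂(sig n) = ∫ ζ, Pk y ζ ∂(sig n) := by
  obtain ⟨U, hU⟩ := exists_iso h
  rw [← hU]
  exact (int_iso U x).symm

end TB
end
end
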