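import Pool.Agent.Lib.MP_8b37c6_an.I2

section

namespace TB

open Metric MeasureTheory InnerProductSpace Laplacian

/-- The Poisson kernel is harmonic.  Proof: for `y ≠ ζ`, `|ζ| = 1`: `1 - |y|^2 = - |y - ζ|^2 - 2 <y - ζ, ζ>`, so
`Pk y ζ = - (|y - ζ|^2)^((2-n)/2) - 2 <y - ζ, ζ> (|y - ζ|^2)^(-n/2)`; `harm_pow`, `harm_dipole`, `HarmonicAt.neg`,
`const_smul`, `sub`, `harmonicAt_congr_nhds`. -/
theorem Pk_harm {n : ℕ} {ζ x : E n} (hζ : ‖ζ‖ = 1) (h : x ≠ ζ) : HarmonicAt (fun y : E n => Pk y ζ) x := by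
  have h1 := harm_pow ζ x h
  have h2 := harm_dipole ζ ζ x h
  have h3 := (h1.const_smul (c := (-1 : ℝ))).add (h2.const_smul (c := (-2 : ℝ)))
  refine (harmonicAt_congr_nhds ?_).1 h3
  filter_upwards [isOpen_ne.mem_nhds h] with y hy
  have hd : 0 < ‖y - ζ‖ := norm_pos_iff.2 (sub_ne_zero.2 hy)
  have hN : 0 < ‖y - ζ‖ ^ 2 := by positivity
  have e1 : (‖y - ζ‖ ^ 2) ^ ((2 - (n : ℝ)) / 2) = ‖y - ζ‖ ^ 2 * (‖y - ζ‖ ^ 2) ^ (-(n : ℝ) / 2) := by
    rw [show (2 - (n : ℝ)) / 2 = -(n : ℝ) / 2 + 1 by ring, Real.rpow_add_one hN.ne', mul_comm]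
  have e2 : (‖y - ζ‖ ^ 2) ^ (-(n : ℝ) / 2) = (‖y - ζ‖ ^ n)⁻¹ := by
    rw [← Real.rpow_natCast ‖y - ζ‖ 2, ← Real.rpow_mul hd.le, ← Real.rpow_natCast ‖y - ζ‖ n,
      ← Real.rpow_neg hd.le]
    congr 1
    push_cast
    ring
  have e3 : ‖y‖ ^ 2 = ‖y - ζ‖ ^ 2 + 2 * ⟪y - ζ, ζ⟫_ℝ + 1 := by
    have h4 := norm_add_sq_real (y - ζ) ζ
    rw [sub_add_cancel, hζ] at h4
    rw [h4]
    ring
  simp only [Pi.add_apply, Pi.smul_apply, smul_eq_mul]
  unfold Pk
  rw [e1, e2, e3, div_eq_mul_inv]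
  ring

end TB
end

section

namespace TB

open Metric MeasureTheory InnerProductSpace Laplacian

/-- From the unit theorem to admissibility.  Proof: let `u` be harmonic and bounded on `ball 0 R`, `K = M u R`, `γ = gam n a b`
in `(0,1)`.  If `K = 0` then `u = 0` on the ball and `M u (b R) = 0 ≤` the right side.  Let `K > 0`, `m = M u (a R) / K` in
`[0,1]`; then `(M u (aR))^γ K^(1-γ) = m^γ K`.  Let `|x| < b R`; to show `‖u x‖ ≤ m^γ K` (then `M_le`).  If `x = 0`: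
`‖u 0‖ ≤ M u (aR) = m K ≤ m^γ K`.  Otherwise `c = |x|/b` in `(0, R)`, `e = x/|x|`, `w` a complex number of modulus `1` with
`Re (w u x) = ‖u x‖`; the function `v y = Re (w u (c y)) / K` is harmonic near the closed unit ball (`HarmonicAt.comp_CLM` with
the real linear functional `z -> Re (w z) / K`, then `harm_dil`), `|v| ≤ 1` on the closed unit ball, `|v| ≤ m` on
`closedBall 0 a` (`|c y| ≤ c a < a R`), so `UnitThm n a b` gives `‖u x‖/K = v (b e) ≤ m^γ`. -/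
theorem adm_of_unit {n : ℕ} {a b R : ℝ} (ha : 0 < a) (hab : a < b) (hb : b < 1) (hR : 0 < R)
    (hU : UnitThm n a b) : Admissible n (a * R) (b * R) R (gam n a b) := by
  intro u hu hC
  obtain ⟨C, hC⟩ := hC
  have hb0 : 0 < b := ha.trans hab
  have ha1 : a < 1 := hab.trans hb
  have hγ0 := gam_pos (n := n) ha hab hb
  have hγ1 := gam_lt_one (n := n) ha hab hb
  set γ := gam n a b with hγ
  set K := M u R with hK
  have hK0 : 0 ≤ K := M_nonneg u R
  have hA0 : 0 ≤ M u (a * R) := M_nonneg u _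
  have hbR : 0 < b * R := mul_pos hb0 hR
  have haR : 0 < a * R := mul_pos ha hR
  have haR' : a * R < R := by nlinarith
  have hbR' : b * R < R := by nlinarith
  have hle : ∀ x : E n, ‖x‖ < R → ‖u x‖ ≤ K := fun x hx => le_M hC hx
  have hlea : ∀ x : E n, ‖x‖ < a * R → ‖u x‖ ≤ M u (a * R) := fun x hx =>
    le_M (s := a * R) (C := C) (fun y hy => hC y (ball_subset_ball haR'.le hy)) hx
  refine M_le hbR fun x hx => ?_
  rcases hK0.eq_or_lt with hK1 | hK1
  · have h1 := hle x (hx.trans hbR')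
    rw [← hK1] at h1
    exact h1.trans (mul_nonneg (Real.rpow_nonneg hA0 _) (Real.rpow_nonneg hK0 _))
  set m := M u (a * R) / K with hm
  have hm0 : 0 ≤ m := div_nonneg hA0 hK0
  have hm1 : m ≤ 1 := by
    rw [hm, div_le_one hK1]
    exact M_le haR fun y hy => hle y (hy.trans haR')
  have hrhs : M u (a * R) ^ γ * K ^ (1 - γ) = m ^ γ * K := by
    rw [hm, Real.div_rpow hA0 hK0, Real.rpow_sub hK1, Real.rpow_one]
    ring
  rw [hrhs]
  by_cases hx0 : x = 0
  · have h1 : ‖u x‖ ≤ M u (a * R) := hlea x (by rw [hx0, norm_zero]; exact haR)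
    have h2 : M u (a * R) = m * K := by
      rw [hm]
      field_simp
    rw [h2] at h1
    refine h1.trans (mul_le_mul_of_nonneg_right ?_ hK0)
    exact Real.self_le_rpow_of_le_one hm0 hm1 hγ1.le
  · have hxn : 0 < ‖x‖ := norm_pos_iff.2 hx0
    set c : ℝ := ‖x‖ / b with hc
    have hc0 : 0 < c := div_pos hxn hb0
    have hcR : c < R := by
      rw [hc, div_lt_iff₀ hb0]
      linarith
    set e : E n := ‖x‖⁻¹ • x with he
    have he1 : ‖e‖ = 1 := by
      rw [he, norm_smul, norm_inv, norm_norm, inv_mul_cancel₀ hxn.ne']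
    have hce : c • (b • e) = x := by
      rw [he, hc, smul_smul, smul_smul]
      have : ‖x‖ / b * (b * ‖x‖⁻¹) = 1 := by
        field_simp
      rw [mul_assoc, this, one_smul]
    set w : ℂ := (starRingEnd ℂ (u x)) / (‖u x‖ : ℂ) with hw
    have hw1 : ‖w‖ ≤ 1 := by
      rw [hw, norm_div, RCLike.norm_conj, Complex.norm_real, norm_norm]
      exact div_self_le_one _
    have hwx : w * u x = (‖u x‖ : ℂ) := by
      rw [hw, div_mul_eq_mul_div, mul_comm (starRingEnd ℂ (u x)), Complex.mul_conj]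
      by_cases h0 : u x = 0
      · simp [h0]
      · have h1 : (‖u x‖ : ℂ) ≠ 0 := by
          exact_mod_cast (norm_ne_zero_iff.2 h0)
        rw [Complex.normSq_eq_norm_sq]
        push_cast
        field_simp
    set l : ℂ →L[ℝ] ℝ := (1 / K) • (Complex.reCLM.comp ((ContinuousLinearMap.mul ℝ ℂ) w)) with hl
    have hlz : ∀ z : ℂ, l z = (1 / K) * (w * z).re := by
      intro z
      simp [hl]
    have hla : ∀ z : ℂ, |l z| ≤ ‖z‖ / K := by
      intro z
      rw [hlz, abs_mul, abs_of_pos (one_div_pos.2 hK1)]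
      have h1 : |(w * z).re| ≤ ‖z‖ := by
        refine (Complex.abs_re_le_norm _).trans ?_
        rw [norm_mul]
        nlinarith [norm_nonneg z]
      rw [one_div_mul_eq_div]
      exact div_le_div_of_nonneg_right h1 hK0
    set v : E n → ℝ := fun y => l (u (c • y)) with hv
    have hcy : ∀ y : E n, ‖c • y‖ = c * ‖y‖ := fun y => by
      rw [norm_smul, Real.norm_of_nonneg hc0.le]
    have h1 : HarmonicOnNhd v (closedBall (0 : E n) 1) := by
      intro y hy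
      have hy1 : ‖y‖ ≤ 1 := by simpa using hy
      have h2 : ‖c • y‖ < R := by
        rw [hcy]
        nlinarith
      have h3 : HarmonicAt u (c • y) := hu _ (by simpa using h2)
      exact harm_dil (f := fun z => l (u z)) (h3.comp_CLM l)
    have h2 : ∀ y : E n, ‖y‖ ≤ 1 → |v y| ≤ 1 := by
      intro y hy
      refine (hla _).trans ?_
      rw [div_le_one hK1]
      refine hle _ ?_
      rw [hcy]
      nlinarith
    have h3 : ∀ y : E n, ‖y‖ ≤ a → |v y| ≤ m := by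
      intro y hy
      refine (hla _).trans ?_
      rw [hm]
      refine div_le_div_of_nonneg_right ?_ hK0
      refine hlea _ ?_
      rw [hcy]
      nlinarith
    have h4 := hU v h1 h2 m h3 e he1
    have h5 : v (b • e) = ‖u x‖ / K := by
      rw [hv]
      simp only
      rw [hce, hlz, hwx, Complex.ofReal_re]
      ring
    rw [h5, div_le_iff₀ hK1] at h4
    exact h4

end TB
end

section

namespace TB

open Metric MeasureTheory InnerProductSpace Laplacian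

/-- the profile of the test functions -/
private noncomputable def pV (n : ℕ) (t : ℝ) : ℝ := (1 - t) / (1 + t) ^ (n - 1)

private theorem pV_eq {n : ℕ} (hn : 1 ≤ n) {t : ℝ} (ht : 0 ≤ t) : (1 - t ^ 2) / (1 + t) ^ n = pV n t := by
  obtain ⟨m, rfl⟩ : ∃ m, n = m + 1 := ⟨n - 1, by omega⟩
  have h : (0 : ℝ) < 1 + t := by linarith
  unfold pV
  rw [Nat.add_sub_cancel, pow_succ, div_eq_div_iff (by positivity) (by positivity)]
  ring

private theorem pV_nonneg (n : ℕ) {t : ℝ} (h0 : 0 ≤ t) (ht : t ≤ 1) : 0 ≤ pV n t := by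
  unfold pV
  exact div_nonneg (by linarith) (by positivity)

private theorem pV_anti (n : ℕ) {s t : ℝ} (h0 : 0 ≤ s) (hst : s ≤ t) (ht : t ≤ 1) : pV n t ≤ pV n s := by
  unfold pV
  have h1 : (1 + s) ^ (n - 1) ≤ (1 + t) ^ (n - 1) := pow_le_pow_left₀ (by linarith) (by linarith) _
  exact div_le_div₀ (by linarith) (by linarith) (by positivity) h1

private theorem pV_cont (n : ℕ) : ContinuousOn (pV n) (Set.Ici 0) := by
  unfold pV
  refine ContinuousOn.div (by fun_prop) (by fun_prop) ?_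
  intro t ht
  have : (0 : ℝ) < 1 + t := by have := Set.mem_Ici.1 ht; linarith
  positivity

theorem test_bound {n : ℕ} (hn : 1 ≤ n) {ρ r R R1 α : ℝ} (hρ : 0 < ρ) (hr : ρ < r) (hR : r < R) (hR1 : R < R1)
    (hα : 0 < α) (hα1 : α < 1) (hA : Admissible n ρ r R α) :
    α * ((1 - ρ / R1) / (1 + ρ / R1) ^ (n - 1)) ≤ (1 - r / R1) / (1 + r / R1) ^ (n - 1) := by
  have hR0 : 0 < R := by linarith
  have hR10 : 0 < R1 := by linarith
  -- the unit vector
  obtain ⟨e, he⟩ : ∃ e : E n, ‖e‖ = 1 := ⟨EuclideanSpace.single (⟨0, hn⟩ : Fin n) (1 : ℝ), by simp⟩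
  set c : ℝ := R / R1 with hc
  have hc1 : c < 1 := by rw [hc, div_lt_one hR10]; exact hR1
  have hc0 : 0 < c := by positivity
  set ε : ℝ := (1 - c) ^ n with hε
  have hcp : 0 < 1 - c := by linarith
  have hε0 : 0 < ε := by positivity
  -- the scaled argument
  have hnorm : ∀ x : E n, ‖R1⁻¹ • x‖ = ‖x‖ / R1 := by
    intro x
    rw [norm_smul, Real.norm_of_nonneg (by positivity)]
    field_simp
  have hψle : ∀ x : E n, ‖x‖ < R → ε * Pk (R1⁻¹ • x) e ≤ 1 := by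
    intro x hx
    have h1 : ‖x‖ / R1 < c := by rw [hc]; exact div_lt_div_of_pos_right hx hR10
    have h2 := Pk_le (x := R1⁻¹ • x) (ζ := e) (by rw [hnorm]; linarith) he
    rw [hnorm] at h2
    have h3 : (1 - (‖x‖ / R1) ^ 2) / (1 - ‖x‖ / R1) ^ n ≤ 1 / (1 - c) ^ n := by
      refine div_le_div₀ (by norm_num) (by nlinarith [sq_nonneg (‖x‖ / R1)]) (by positivity) ?_
      exact pow_le_pow_left₀ (by linarith) (by linarith) _
    calc ε * Pk (R1⁻¹ • x) e ≤ ε * (1 / (1 - c) ^ n) := by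
          exact mul_le_mul_of_nonneg_left (h2.trans h3) hε0.le
      _ = 1 := by rw [← hε]; field_simp
  have hψge : ∀ x : E n, ‖x‖ < R → pV n (‖x‖ / R1) ≤ Pk (R1⁻¹ • x) e := by
    intro x hx
    have h1 : ‖x‖ / R1 < c := by rw [hc]; exact div_lt_div_of_pos_right hx hR10
    have h2 := le_Pk (x := R1⁻¹ • x) (ζ := e) (by rw [hnorm]; linarith) he
    rw [hnorm] at h2
    rw [← pV_eq hn (by positivity)]
    exact h2
  let u : E n → ℂ := fun x => ((1 - ε * Pk (R1⁻¹ • x) e : ℝ) : ℂ)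
  have hu : ∀ x : E n, ‖x‖ < R → ‖u x‖ = 1 - ε * Pk (R1⁻¹ • x) e := by
    intro x hx
    show ‖((1 - ε * Pk (R1⁻¹ • x) e : ℝ) : ℂ)‖ = _
    rw [Complex.norm_real, Real.norm_of_nonneg]
    linarith [hψle x hx]
  have hψ0 : ∀ x : E n, ‖x‖ < R → 0 ≤ Pk (R1⁻¹ • x) e := by
    intro x hx
    apply Pk_nonneg
    rw [hnorm, div_le_one hR10]; linarith
  -- the values of `M`
  have hM : ∀ s : ℝ, 0 < s → s ≤ R → M u s = 1 - ε * pV n (s / R1) := by
    intro s hs hsR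
    have key := M_eq (n := n) (u := u) (s := s) hs (g := fun t => 1 - ε * pV n (t / R1)) (e := -e) ?_ ?_ ?_ (by
      rw [norm_neg, he]) ?_
    · exact key
    · refine ContinuousOn.sub continuousOn_const (ContinuousOn.mul continuousOn_const ?_)
      refine (pV_cont n).comp (by fun_prop) ?_
      intro t ht
      exact div_nonneg ht.1 hR10.le
    · intro t1 h1 t2 h2 h12
      have : pV n (t2 / R1) ≤ pV n (t1 / R1) := by
        apply pV_anti n (div_nonneg h1.1 hR10.le) (div_le_div_of_nonneg_right h12 hR10.le)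
        rw [div_le_one hR10]; linarith [h2.2]
      show 1 - ε * pV n (t1 / R1) ≤ 1 - ε * pV n (t2 / R1)
      nlinarith
    · intro x hx
      have hxR : ‖x‖ < R := by linarith
      rw [hu x hxR]
      show _ ≤ 1 - ε * pV n (‖x‖ / R1)
      nlinarith [hψge x hxR]
    · intro t ht hts
      have hnt : ‖t • (-e)‖ = t := by rw [norm_smul, norm_neg, he, Real.norm_of_nonneg ht, mul_one]
      rw [hu _ (by rw [hnt]; linarith)]
      show _ = 1 - ε * pV n (t / R1)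
      congr 2
      rw [← pV_eq hn (by positivity)]
      unfold Pk
      rw [hnorm, hnt]
      have : R1⁻¹ • t • (-e) - e = (-(1 + t / R1)) • e := by
        rw [smul_smul, smul_neg, neg_smul, add_smul, one_smul, div_eq_inv_mul]
        abel
      rw [this, norm_smul, he, mul_one, norm_neg, Real.norm_of_nonneg (by positivity)]
  -- harmonicity
  have hharm : HarmonicOnNhd u (ball 0 R) := by
    intro x hx
    have hxR : ‖x‖ < R := by simpa using hx
    have h1 : HarmonicAt (fun y : E n => Pk (R1⁻¹ • y) e) x := by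
      have h0 : HarmonicAt (fun y : E n => Pk y e) (R1⁻¹ • x) := by
        apply Pk_harm he
        intro h
        have h2 := hnorm x
        rw [h, he] at h2
        have : ‖x‖ / R1 < 1 := by rw [div_lt_one hR10]; linarith
        linarith
      exact harm_dil h0
    have h2 : HarmonicAt (fun y : E n => 1 - ε * Pk (R1⁻¹ • y) e) x := by
      have h3 := (harmonicAt_const (E := E n) (x := x) (1 : ℝ)).sub (h1.const_smul (c := ε))
      exact h3
    exact h2.comp_CLM Complex.ofRealCLM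
  have hbd : ∃ C : ℝ, ∀ x ∈ ball (0 : E n) R, ‖u x‖ ≤ C := by
    refine ⟨1, fun x hx => ?_⟩
    have hxR : ‖x‖ < R := by simpa using hx
    rw [hu x hxR]
    nlinarith [hψ0 x hxR]
  have hAu := hA u hharm hbd
  have hMρ := hM ρ hρ (by linarith)
  have hMr := hM r (by linarith) hR.le
  have hMR := hM R hR0 le_rfl
  have hag := Real.geom_mean_le_arith_mean2_weighted (w₁ := α) (w₂ := 1 - α) (p₁ := M u ρ) (p₂ := M u R) hα.le
    (by linarith) (M_nonneg u ρ) (M_nonneg u R) (by ring)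
  have hmain := hAu.trans hag
  rw [hMρ, hMr, hMR] at hmain
  have hpR : 0 ≤ pV n (R / R1) := pV_nonneg n (by positivity) (by rw [div_le_one hR10]; exact hR1.le)
  have h4 : ε * (α * pV n (ρ / R1)) ≤ ε * pV n (r / R1) := by
    have h5 : 0 ≤ ε * ((1 - α) * pV n (R / R1)) :=
      mul_nonneg hε0.le (mul_nonneg (by linarith) hpR)
    nlinarith
  have h6 := le_of_mul_le_mul_left h4 hε0
  exact h6

/-- Proof: let `R1 → R` from above in `test_bound` (both sides are continuous in `R1 > 0`), and divide. -/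
theorem adm_le_gam {n : ℕ} (hn : 1 ≤ n) {ρ r R α : ℝ} (hρ : 0 < ρ) (hr : ρ < r) (hR : r < R)
    (hα : 0 < α) (hα1 : α < 1) (hA : Admissible n ρ r R α) : α ≤ gam n (ρ / R) (r / R) := by
  have hR0 : 0 < R := by linarith
  have hlim : ∀ x : ℝ, 0 < x → Filter.Tendsto (fun S : ℝ => (1 - x / S) / (1 + x / S) ^ (n - 1))
      (nhdsWithin R (Set.Ioi R)) (nhds ((1 - x / R) / (1 + x / R) ^ (n - 1))) := by
    intro x hx
    have hc : ContinuousAt (fun S : ℝ => (1 - x / S) / (1 + x / S) ^ (n - 1)) R := by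
      have h1 : (1 + x / R) ^ (n - 1) ≠ 0 := by positivity
      have h2 : ContinuousAt (fun S : ℝ => x / S) R := continuousAt_const.div continuousAt_id hR0.ne'
      exact (continuousAt_const.sub h2).div ((continuousAt_const.add h2).pow _) h1
    exact hc.tendsto.mono_left nhdsWithin_le_nhds
  have h1 : α * ((1 - ρ / R) / (1 + ρ / R) ^ (n - 1)) ≤ (1 - r / R) / (1 + r / R) ^ (n - 1) := by
    refine le_of_tendsto_of_tendsto ((hlim ρ hρ).const_mul α) (hlim r (by linarith)) ?_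
    filter_upwards [self_mem_nhdsWithin] with S hS
    exact test_bound hn hρ hr hR hS hα hα1 hA
  have hq : ρ / R < 1 := by rw [div_lt_one hR0]; linarith
  have hq0 : 0 < ρ / R := by positivity
  have hr00 : 0 < r := by linarith
  have hr0 : 0 < r / R := by positivity
  have hpos : 0 < (1 - ρ / R) / (1 + ρ / R) ^ (n - 1) := div_pos (by linarith) (by positivity)
  rw [← le_div_iff₀ hpos] at h1
  refine h1.trans (le_of_eq ?_)
  unfold gam
  have h3 : (1 + ρ / R) ^ (n - 1) ≠ 0 := by positivity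
  have h4 : (1 + r / R) ^ (n - 1) ≠ 0 := by positivity
  have h5 : (1 - ρ / R) ≠ 0 := by linarith
  field_simp

end TB
end

section

namespace TB

open Metric MeasureTheory InnerProductSpace Laplacian

/-- Maximum principle for harmonic minus Poisson integral.  Proof: for `ε > 0` take `T, w` from `finite_approx`; the function
`v - sum_{y in T} w y Pk(., y)` is harmonic near the closed ball of radius `s < 1` (`Pk_harm`, `x ≠ y` as `|x| ≤ s < 1 = |y|`;
finite sums by induction), on the sphere it is `≤ c + ε`, hence in the ball by `max_principle`, so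
`v x ≤ ∫ + c + 2 ε`; let `ε → 0` (`le_of_forall_pos_le_add`). -/
theorem mpi {n : ℕ} (hn : 1 ≤ n) {s : ℝ} (hs : s < 1) {v g : E n → ℝ}
    (hv : HarmonicOnNhd v (closedBall (0 : E n) s)) (hg : AEStronglyMeasurable g (sig n)) {G : ℝ}
    (hG : ∀ ζ : E n, ‖ζ‖ = 1 → |g ζ| ≤ G) {c : ℝ}
    (h : ∀ x : E n, ‖x‖ = s → v x ≤ (∫ ζ, Pk x ζ * g ζ ∂(sig n)) + c) :
    ∀ x : E n, ‖x‖ ≤ s → v x ≤ (∫ ζ, Pk x ζ * g ζ ∂(sig n)) + c := by
  intro x hx
  refine le_of_forall_pos_le_add fun ε hε => ?_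
  obtain ⟨T, w, hT, hap⟩ := finite_approx hn hs hg hG (half_pos hε)
  have hsum : ∀ T' : Finset (E n), T' ⊆ T →
      HarmonicOnNhd (fun x : E n => ∑ y ∈ T', w y * Pk x y) (closedBall (0 : E n) s) := by
    intro T'
    induction T' using Finset.induction_on with
    | empty =>
      intro _
      simp only [Finset.sum_empty]
      exact harmonicOnNhd_const 0
    | insert a T' ha ih =>
      intro hsub
      simp only [Finset.sum_insert ha]
      have h1 : HarmonicOnNhd (fun x : E n => w a * Pk x a) (closedBall (0 : E n) s) := by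
        intro z hz
        rw [mem_closedBall_zero_iff] at hz
        have hane : z ≠ a := by
          intro hza
          have h2 := hT a (hsub (Finset.mem_insert_self a T'))
          rw [← hza] at h2
          linarith
        exact (Pk_harm (hT a (hsub (Finset.mem_insert_self a T'))) hane).const_smul (c := w a)
      exact h1.add (ih ((Finset.subset_insert a T').trans hsub))
  have hu := hv.sub (hsum T (Finset.Subset.refl T))
  have hmp := max_principle (c := c + ε / 2) hn hu (by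
    intro z hz
    have h1 := h z hz
    have h2 := (abs_le.1 (hap z hz.le)).2
    simp only [Pi.sub_apply]
    linarith)
  have h3 := hmp x hx
  have h4 := (abs_le.1 (hap x hx)).1
  simp only [Pi.sub_apply] at h3
  linarith

end TB
end

section

namespace TB

open Metric MeasureTheory InnerProductSpace Laplacian

/-- Total mass.  Proof: let `s = |x|`, `c` the value at the points of norm `s` (`mass_radial`).  By `mpi` with `g = 1`,
`v = c` (constant) and with `g = -1`, `v = -c` (error constant `0`) the integral equals `c` on the whole closed ball of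
radius `s`; at `0` it is `∫ 1 = 1` (`Pk_zero`, a.e. unit). -/
theorem mass_one {n : ℕ} (hn : 1 ≤ n) {x : E n} (hx : ‖x‖ < 1) : ∫ ζ, Pk x ζ ∂(sig n) = 1 := by
  have := sig_prob n
  have h0 : ∫ ζ, Pk (0 : E n) ζ ∂(sig n) = 1 := by
    have h1 : (fun ζ : E n => Pk (0 : E n) ζ) =ᵐ[sig n] fun _ => (1 : ℝ) := by
      filter_upwards [sig_unit hn] with ζ hζ
      exact Pk_zero hζ
    rw [integral_congr_ae h1]
    simp
  have hle : ∫ ζ, Pk x ζ ∂(sig n) ≤ 1 := by
    have h2 := mpi (v := fun _ => ∫ ζ, Pk x ζ ∂(sig n)) (g := fun _ => (1 : ℝ)) (G := 1) (c := 0) hn hx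
      (harmonicOnNhd_const _) aestronglyMeasurable_const (fun ζ _ => by simp)
      (fun z hz => by
        simp only [mul_one, add_zero]
        exact (mass_radial hz.symm).le) 0 (by rw [norm_zero]; exact norm_nonneg x)
    simp only [mul_one, add_zero] at h2
    rw [h0] at h2
    exact h2
  have hge : -(∫ ζ, Pk x ζ ∂(sig n)) ≤ -1 := by
    have h2 := mpi (v := fun _ => -(∫ ζ, Pk x ζ ∂(sig n))) (g := fun _ => (-1 : ℝ)) (G := 1) (c := 0) hn hx
      (harmonicOnNhd_const _) aestronglyMeasurable_const (fun ζ _ => by simp)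
      (fun z hz => by
        simp only [mul_neg, mul_one, add_zero, integral_neg]
        exact (neg_le_neg (mass_radial hz).le)) 0 (by rw [norm_zero]; exact norm_nonneg x)
    simp only [mul_neg, mul_one, add_zero, integral_neg] at h2
    rw [h0] at h2
    exact h2
  linarith

/-- The kernel is integrable in `ζ` (bounded by `Pk_le`, measurable by `Pk_meas`), also multiplied by a bounded function. -/
theorem Pk_int {n : ℕ} (hn : 1 ≤ n) {x : E n} (hx : ‖x‖ < 1) {g : E n → ℝ} (hg : AEStronglyMeasurable g (sig n))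
    {G : ℝ} (hG : ∀ ζ : E n, ‖ζ‖ = 1 → |g ζ| ≤ G) : Integrable (fun ζ => Pk x ζ * g ζ) (sig n) := by
  have := sig_prob n
  have hm : AEStronglyMeasurable (fun ζ : E n => Pk x ζ * g ζ) (sig n) := by
    have h2 : Measurable (fun ζ : E n => ((x, ζ) : E n × E n)) := measurable_prodMk_left
    have h3 := (Pk_meas n).comp h2
    have h1 : Measurable (fun ζ : E n => Pk x ζ) := by
      simp only [Function.comp_def] at h3
      exact h3
    exact h1.aestronglyMeasurable.mul hg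
  refine Integrable.mono' (integrable_const ((1 - ‖x‖ ^ 2) / (1 - ‖x‖) ^ n * G)) hm ?_
  filter_upwards [sig_unit hn] with ζ hζ
  rw [norm_mul, Real.norm_eq_abs, Real.norm_eq_abs, abs_of_nonneg (Pk_nonneg hx.le)]
  exact mul_le_mul (Pk_le hx hζ) (hG ζ hζ) (abs_nonneg _) (le_trans (Pk_nonneg hx.le) (Pk_le hx hζ))

end TB
end

section

namespace TB

open Metric MeasureTheory InnerProductSpace Laplacian

private theorem cap_point {n : ℕ} {e : E n} (he : ‖e‖ = 1) {δ : ℝ} (h0 : 0 < δ) (h1 : δ ≤ 1) {ζ : E n}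
    (hζ : ‖ζ‖ = 1) (hc : 1 + ⟪ζ, e⟫_ℝ < δ) :
    √δ / (√(3 * δ)) ^ n ≤ Pk (-(1 - √δ) • e) ζ := by
  have hs : 0 < √δ := Real.sqrt_pos.2 h0
  have hs1 : √δ ≤ 1 := Real.sqrt_le_one.2 h1
  have hsq : √δ ^ 2 = δ := Real.sq_sqrt h0.le
  have hin : -1 ≤ ⟪ζ, e⟫_ℝ := by
    have := abs_real_inner_le_norm ζ e
    rw [hζ, he, mul_one] at this
    exact (abs_le.1 this).1
  have hax := norm_axis (n := n) he hζ (-(1 - √δ))
  have hnx : ‖-(1 - √δ) • e‖ = 1 - √δ := by
    rw [norm_smul, he, mul_one, norm_neg, Real.norm_of_nonneg (by linarith)]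
  have hle : ‖-(1 - √δ) • e - ζ‖ ^ 2 ≤ 3 * δ := by
    rw [hax]
    nlinarith
  have hle2 : ‖-(1 - √δ) • e - ζ‖ ≤ √(3 * δ) := Real.le_sqrt_of_sq_le hle
  have hpos : 0 < ‖-(1 - √δ) • e - ζ‖ := by
    have := norm_sub_norm_le ζ (-(1 - √δ) • e)
    rw [hζ, hnx, norm_sub_rev] at this
    linarith
  unfold Pk
  rw [hnx]
  refine div_le_div₀ (by nlinarith) (by nlinarith) (by positivity) ?_
  exact pow_le_pow_left₀ hpos.le hle2 n

/-- Small caps.  Proof: `s = 1 - √δ` in `[0, 1)`, `x = - s e`.  For a unit `ζ` with `1 + <ζ, e> < δ`: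
`|x - ζ|^2 = 1 + 2 s <ζ,e> + s^2 = (1-s)^2 + 2 s (1 + <ζ,e>) ≤ 3 δ` (`norm_axis` with `-s`), and `1 - |x|^2 ≥ 1 - s = √δ`, so
`Pk x ζ ≥ √δ / (√(3 δ))^n`.  Hence `σ(cap) √δ / (√(3δ))^n ≤ ∫ Pk x = 1` (`mass_one`, Markov), and
`(√(3δ))^n / √δ = (√3)^n δ^((n-1)/2)`. -/
theorem cap {n : ℕ} (hn : 2 ≤ n) {e : E n} (he : ‖e‖ = 1) {δ : ℝ} (h0 : 0 < δ) (h1 : δ ≤ 1) :
    (sig n).real {ζ : E n | 1 + ⟪ζ, e⟫_ℝ < δ} ≤ (√3) ^ n * δ ^ (((n : ℝ) - 1) / 2) := by
  have := sig_prob n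
  have hn1 : 1 ≤ n := by omega
  have hs : 0 < √δ := Real.sqrt_pos.2 h0
  have hs1 : √δ ≤ 1 := Real.sqrt_le_one.2 h1
  set x : E n := -(1 - √δ) • e with hx
  have hnx : ‖x‖ = 1 - √δ := by
    rw [hx, norm_smul, he, mul_one, norm_neg, Real.norm_of_nonneg (by linarith)]
  have hx1 : ‖x‖ < 1 := by rw [hnx]; linarith
  set κ : ℝ := √δ / (√(3 * δ)) ^ n with hκ
  have h3 : 0 < √(3 * δ) := Real.sqrt_pos.2 (by linarith)
  have hκ0 : 0 < κ := by positivity
  have hint : Integrable (fun ζ => Pk x ζ) (sig n) := by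
    have := Pk_int (n := n) hn1 hx1 (g := fun _ => 1) aestronglyMeasurable_const (G := 1) (by intro ζ _; simp)
    simpa using this
  have hnn : 0 ≤ᵐ[sig n] fun ζ => Pk x ζ :=
    Filter.Eventually.of_forall (fun ζ => Pk_nonneg hx1.le)
  have hmk := mul_meas_ge_le_integral_of_nonneg hnn hint κ
  rw [mass_one hn1 hx1] at hmk
  have hsub : (sig n).real {ζ : E n | 1 + ⟪ζ, e⟫_ℝ < δ} ≤ (sig n).real {ζ : E n | κ ≤ Pk x ζ} := by
    refine ENNReal.toReal_mono (measure_ne_top _ _) (measure_mono_ae ?_)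
    filter_upwards [sig_unit hn1] with ζ hζ hc
    exact cap_point he h0 h1 hζ hc
  have h4 : (sig n).real {ζ : E n | 1 + ⟪ζ, e⟫_ℝ < δ} ≤ 1 / κ := by
    rw [le_div_iff₀ hκ0, mul_comm]
    exact (mul_le_mul_of_nonneg_left hsub hκ0.le).trans hmk
  refine h4.trans (le_of_eq ?_)
  rw [hκ, one_div_div, Real.sqrt_mul (by norm_num), mul_pow, mul_div_assoc]
  congr 1
  rw [Real.sqrt_eq_rpow, ← Real.rpow_natCast, ← Real.rpow_mul h0.le, ← Real.rpow_sub h0]
  congr 1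
  ring

end TB
end

section

namespace TB

open Metric MeasureTheory InnerProductSpace Laplacian

/-- Approximate identity.  Proof: `v` is uniformly continuous on the compact closed ball and `|v| ≤ G` there: for `ε > 0`
take `δ > 0` with `|v ζ - v x| ≤ ε/2` if `|ζ - x| < δ`.  For `|x| < 1`, by `mass_one`,
`|∫ Pk x ζ v ζ - v x| ≤ ∫ Pk x ζ |v ζ - v x| ≤ ε/2 + 2 G (1 - |x|^2) / δ^n`, as `Pk x ζ ≤ (1 - |x|^2)/δ^n` where
`|ζ - x| ≥ δ`; the last term is `≤ ε/2` for `|x|` close to `1`. -/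
theorem approx_id {n : ℕ} (hn : 1 ≤ n) {v : E n → ℝ} (hv : ContinuousOn v (closedBall 0 1)) {ε : ℝ} (hε : 0 < ε) :
    ∃ s0 : ℝ, s0 < 1 ∧ ∀ x : E n, s0 ≤ ‖x‖ → ‖x‖ < 1 → |(∫ ζ, Pk x ζ * v ζ ∂(sig n)) - v x| ≤ ε := by
  have hcomp : IsCompact (closedBall (0 : E n) 1) := isCompact_closedBall 0 1
  have huc := hcomp.uniformContinuousOn_of_continuous hv
  rw [Metric.uniformContinuousOn_iff] at huc
  obtain ⟨δ, hδ, hδ'⟩ := huc (ε / 2) (by positivity)
  obtain ⟨C, hC⟩ := hcomp.exists_bound_of_continuousOn hv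
  set G : ℝ := |C| with hGdef
  have hG0 : 0 ≤ G := abs_nonneg C
  have hCG : ∀ x ∈ closedBall (0 : E n) 1, |v x| ≤ G := fun x hx => by
    have := hC x hx
    rw [Real.norm_eq_abs] at this
    exact this.trans (le_abs_self C)
  have hG1 : 0 < 8 * (G + 1) := by positivity
  have hδn : 0 < δ ^ n := by positivity
  refine ⟨1 - ε * δ ^ n / (8 * (G + 1)), ?_, ?_⟩
  · have : 0 < ε * δ ^ n / (8 * (G + 1)) := by positivity
    linarith
  intro x hx0 hx1
  have := sig_prob n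
  have hxb : x ∈ closedBall (0 : E n) 1 := by
    rw [mem_closedBall_zero_iff]; exact hx1.le
  have hunit : ∀ ζ : E n, ‖ζ‖ = 1 → |v ζ| ≤ G := fun ζ hζ => hCG ζ (by
    rw [mem_closedBall_zero_iff]; exact hζ.le)
  have hI1 : Integrable (fun ζ => Pk x ζ * v ζ) (sig n) := Pk_int hn hx1 (sig_aesm hn hv) hunit
  have hI2 : Integrable (fun ζ => Pk x ζ * v x) (sig n) :=
    Pk_int hn hx1 (g := fun _ => v x) aestronglyMeasurable_const (G := |v x|) (fun _ _ => le_refl _)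
  have hI3 : Integrable (fun ζ => Pk x ζ * (ε / 2)) (sig n) :=
    Pk_int hn hx1 (g := fun _ => ε / 2) aestronglyMeasurable_const (G := |ε / 2|) (fun _ _ => le_refl _)
  have hm := mass_one hn hx1
  have hdiff : (∫ ζ, Pk x ζ * v ζ ∂(sig n)) - v x = ∫ ζ, (Pk x ζ * v ζ - Pk x ζ * v x) ∂(sig n) := by
    rw [integral_sub hI1 hI2, integral_mul_const, hm, one_mul]
  have hnn : 0 ≤ 1 - ‖x‖ ^ 2 := by nlinarith [norm_nonneg x]
  rw [hdiff, ← Real.norm_eq_abs]
  have hI4 : Integrable (fun ζ => Pk x ζ * (ε / 2) + 2 * G * ((1 - ‖x‖ ^ 2) / δ ^ n)) (sig n) :=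
    hI3.add (integrable_const _)
  have hle := norm_integral_le_of_norm_le (f := fun ζ => Pk x ζ * v ζ - Pk x ζ * v x) hI4 (by
    filter_upwards [sig_unit hn] with ζ hζ
    have hP := Pk_nonneg (ζ := ζ) hx1.le
    have hζb : ζ ∈ closedBall (0 : E n) 1 := by
      rw [mem_closedBall_zero_iff]; exact hζ.le
    rw [← mul_sub, Real.norm_eq_abs, abs_mul, abs_of_nonneg hP]
    have hT : 0 ≤ 2 * G * ((1 - ‖x‖ ^ 2) / δ ^ n) := by positivity
    rcases lt_or_ge (dist ζ x) δ with hd | hd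
    · have h1 := hδ' ζ hζb x hxb hd
      rw [Real.dist_eq] at h1
      have h2 := mul_le_mul_of_nonneg_left h1.le hP
      linarith
    · have h1 : Pk x ζ ≤ (1 - ‖x‖ ^ 2) / δ ^ n := by
        unfold Pk
        refine div_le_div_of_nonneg_left hnn hδn ?_
        refine pow_le_pow_left₀ hδ.le ?_ n
        rw [← dist_eq_norm, dist_comm]
        exact hd
      have h2 : |v ζ - v x| ≤ 2 * G := by
        have h3 := hCG ζ hζb
        have h4 := hCG x hxb
        have h5 := abs_sub (v ζ) (v x)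
        linarith
      have h6 : Pk x ζ * |v ζ - v x| ≤ (1 - ‖x‖ ^ 2) / δ ^ n * (2 * G) :=
        mul_le_mul h1 h2 (abs_nonneg _) (by positivity)
      have h7 : 0 ≤ Pk x ζ * (ε / 2) := by positivity
      linarith)
  refine hle.trans ?_
  rw [integral_add hI3 (integrable_const _), integral_mul_const, hm, one_mul, integral_const]
  simp only [probReal_univ, one_smul]
  have h8 : 1 - ‖x‖ ^ 2 ≤ 2 * (ε * δ ^ n / (8 * (G + 1))) := by
    nlinarith [norm_nonneg x]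
  have h9 : 2 * G * ((1 - ‖x‖ ^ 2) / δ ^ n) ≤ 2 * G * (2 * (ε * δ ^ n / (8 * (G + 1))) / δ ^ n) := by
    gcongr
  have h10 : 2 * G * (2 * (ε * δ ^ n / (8 * (G + 1))) / δ ^ n) = ε / 2 * (G / (G + 1)) := by
    field_simp
    ring
  have h11 : G / (G + 1) ≤ 1 := by
    rw [div_le_one (by positivity)]; linarith
  have h12 : ε / 2 * (G / (G + 1)) ≤ ε / 2 * 1 := mul_le_mul_of_nonneg_left h11 (by positivity)
  linarith

end TB
end

section

namespace TB

open Metric MeasureTheory InnerProductSpace Laplacian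

private lemma q1_pos_A1 {a b : ℝ} (ha : 0 < a) (hab : a < b) : 0 < q1 a b := by
  have hb0 : 0 < b := ha.trans hab
  unfold q1
  positivity

/-- `(√q1)^n ≤ Rr^(n/2)` for `t ≥ 0` -/
private lemma Lq_le_A1 {n : ℕ} {a b t : ℝ} (ha : 0 < a) (hab : a < b) (hb : b < 1) (ht : 0 ≤ t) (ht1 : t ≤ 1) :
    Lq n a b ≤ (Rr a b t) ^ ((n : ℝ) / 2) := by
  have hq := q1_pos_A1 ha hab
  have h1 : Lq n a b = (q1 a b) ^ ((n : ℝ) / 2) := by
    unfold Lq
    rw [Real.sqrt_eq_rpow, ← Real.rpow_natCast, ← Real.rpow_mul hq.le]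
    congr 1
    ring
  rw [h1]
  exact Real.rpow_le_rpow hq.le (Rr_ge_pos ha hab hb ht ht1) (by positivity)

/-- `Pk (a e) ζ ≤ p1` for `t < 0` -/
private lemma Pk_le_p1_A1 {n : ℕ} {a : ℝ} (ha : 0 < a) {e ζ : E n} (he : ‖e‖ = 1) (hζ : ‖ζ‖ = 1)
    (ht : ⟪ζ, e⟫_ℝ < 0) : Pk (a • e) ζ ≤ p1 n a := by
  have h0 : 1 + a ^ 2 ≤ ‖a • e - ζ‖ ^ 2 := by
    rw [norm_axis he hζ a]
    nlinarith
  have h1 : √(1 + a ^ 2) ≤ ‖a • e - ζ‖ := by
    rw [Real.sqrt_le_left (norm_nonneg _)]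
    exact h0
  have hs : 0 < √(1 + a ^ 2) := Real.sqrt_pos.2 (by positivity)
  have h2 : (√(1 + a ^ 2)) ^ n ≤ ‖a • e - ζ‖ ^ n := pow_le_pow_left₀ hs.le h1 n
  unfold Pk p1
  rw [div_le_iff₀ (lt_of_lt_of_le (pow_pos hs n) h2)]
  calc 1 - ‖a • e‖ ^ 2 ≤ 1 := by nlinarith [sq_nonneg ‖a • e‖]
    _ = ((√(1 + a ^ 2)) ^ n)⁻¹ * (√(1 + a ^ 2)) ^ n := (inv_mul_cancel₀ (pow_pos hs n).ne').symm
    _ ≤ ((√(1 + a ^ 2)) ^ n)⁻¹ * ‖a • e - ζ‖ ^ n := mul_le_mul_of_nonneg_left h2 (by positivity)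

/-- First case.  Proof: for a unit `ζ` with `t = <ζ,e> < 0`, `|a e - ζ|^2 ≥ 1 + a^2`, so `Pk (a e) ζ ≤ p1 n a` and
`∫_{t<0} Pk (a e) f ≤ 2 p1 ≤ y / 2`; so `∫_{t ≥ 0} Pk (a e) f ≥ y / 2`.  For `t ≥ 0`,
`Pk (b e) ζ = gam Rr^(n/2) Pk (a e) ζ ≥ gam q1^(n/2) Pk (a e) ζ = gam Lq Pk (a e) ζ` (`Rr_ge_pos`, `Pk_ratio`), and the
integrand is nonnegative for `t < 0`. -/
theorem caseA1 {n : ℕ} (hn : 1 ≤ n) {a b : ℝ} (ha : 0 < a) (hab : a < b) (hb : b < 1) {e : E n} (he : ‖e‖ = 1)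
    {f : E n → ℝ} (hf : AEStronglyMeasurable f (sig n)) (hf0 : ∀ ζ : E n, ‖ζ‖ = 1 → 0 ≤ f ζ)
    (hf2 : ∀ ζ : E n, ‖ζ‖ = 1 → f ζ ≤ 2) (hy : 4 * p1 n a ≤ ∫ ζ, Pk (a • e) ζ * f ζ ∂(sig n)) :
    gam n a b * Lq n a b * (∫ ζ, Pk (a • e) ζ * f ζ ∂(sig n)) / 2 ≤ ∫ ζ, Pk (b • e) ζ * f ζ ∂(sig n) := by
  have := sig_prob n
  have hb0 : 0 < b := ha.trans hab
  have hna : ‖a • e‖ < 1 := by
    rw [norm_smul, he, mul_one, Real.norm_eq_abs, abs_of_pos ha]
    exact hab.trans hb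
  have hnb : ‖b • e‖ < 1 := by
    rw [norm_smul, he, mul_one, Real.norm_eq_abs, abs_of_pos hb0]
    exact hb
  have hfa : ∀ ζ : E n, ‖ζ‖ = 1 → |f ζ| ≤ 2 := fun ζ hζ => by
    rw [abs_of_nonneg (hf0 ζ hζ)]
    exact hf2 ζ hζ
  have hia := Pk_int hn hna hf hfa
  have hib := Pk_int hn hnb hf hfa
  have hg : 0 < gam n a b := gam_pos ha hab hb
  have hL : 0 ≤ Lq n a b := by unfold Lq; positivity
  have hp : 0 ≤ p1 n a := by unfold p1; positivity
  have key : ∀ᵐ ζ ∂(sig n), gam n a b * Lq n a b * (Pk (a • e) ζ * f ζ - 2 * p1 n a) ≤ Pk (b • e) ζ * f ζ := by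
    filter_upwards [sig_unit hn] with ζ hζ
    have hPa : 0 ≤ Pk (a • e) ζ := Pk_nonneg hna.le
    have hPb : 0 ≤ Pk (b • e) ζ := Pk_nonneg hnb.le
    have h0 := hf0 ζ hζ
    have h2 := hf2 ζ hζ
    rcases lt_or_ge ⟪ζ, e⟫_ℝ 0 with ht | ht
    · have h3 := Pk_le_p1_A1 (n := n) ha he hζ ht
      have h4 : Pk (a • e) ζ * f ζ - 2 * p1 n a ≤ 0 := by
        have : Pk (a • e) ζ * f ζ ≤ p1 n a * 2 := mul_le_mul h3 h2 h0 hp
        linarith
      calc gam n a b * Lq n a b * (Pk (a • e) ζ * f ζ - 2 * p1 n a) ≤ 0 :=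
            mul_nonpos_of_nonneg_of_nonpos (mul_nonneg hg.le hL) h4
        _ ≤ Pk (b • e) ζ * f ζ := mul_nonneg hPb h0
    · have ht1 : ⟪ζ, e⟫_ℝ ≤ 1 := by
        have := real_inner_le_norm ζ e
        rwa [hζ, he, mul_one] at this
      have h5 := Lq_le_A1 (n := n) ha hab hb ht ht1
      rw [Pk_ratio hn ha hab hb he hζ]
      calc gam n a b * Lq n a b * (Pk (a • e) ζ * f ζ - 2 * p1 n a)
            ≤ gam n a b * Lq n a b * (Pk (a • e) ζ * f ζ) :=
            mul_le_mul_of_nonneg_left (by linarith) (mul_nonneg hg.le hL)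
        _ ≤ gam n a b * (Rr a b ⟪ζ, e⟫_ℝ) ^ ((n : ℝ) / 2) * (Pk (a • e) ζ * f ζ) :=
            mul_le_mul_of_nonneg_right (mul_le_mul_of_nonneg_left h5 hg.le) (mul_nonneg hPa h0)
        _ = gam n a b * (Rr a b ⟪ζ, e⟫_ℝ) ^ ((n : ℝ) / 2) * Pk (a • e) ζ * f ζ := by ring
  have hi2 : Integrable (fun ζ => gam n a b * Lq n a b * (Pk (a • e) ζ * f ζ - 2 * p1 n a)) (sig n) :=
    (hia.sub (integrable_const _)).const_mul _
  have h6 := integral_mono_ae hi2 hib key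
  rw [integral_const_mul, integral_sub hia (integrable_const _), integral_const] at h6
  simp only [probReal_univ, one_smul] at h6
  refine le_trans ?_ h6
  have h7 : 0 ≤ gam n a b * Lq n a b := mul_nonneg hg.le hL
  nlinarith [mul_le_mul_of_nonneg_left hy h7]

end TB
end

section

namespace TB

open Metric MeasureTheory InnerProductSpace Laplacian

/-- Poisson formula.  Proof: let `ε > 0`, `s0` from `approx_id`, `s = max s0 |x|` if this is `≥ 0`... choose `s < 1` with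
`s ≥ s0`, `s ≥ |x|`, `s > 0`.  On the sphere of radius `s` both `v ≤ ∫ + ε` and `- v ≤ ∫ Pk (-v) + ε`; by `mpi` (with
`c = ε`; `g = v`, resp. `g = - v`) the same in the ball, so `|v x - ∫ Pk x ζ v ζ| ≤ ε`. -/
theorem poisson {n : ℕ} (hn : 1 ≤ n) {v : E n → ℝ} (hv : HarmonicOnNhd v (closedBall (0 : E n) 1)) {x : E n}
    (hx : ‖x‖ < 1) : v x = ∫ ζ, Pk x ζ * v ζ ∂(sig n) := by
  have hcont : ContinuousOn v (closedBall (0 : E n) 1) := fun z hz =>
    (hv z hz).1.continuousAt.continuousWithinAt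
  obtain ⟨C, hC⟩ := (isCompact_closedBall (0 : E n) 1).exists_bound_of_continuousOn hcont
  have hG : ∀ ζ : E n, ‖ζ‖ = 1 → |v ζ| ≤ C := fun ζ hζ => by
    have h := hC ζ (by rw [mem_closedBall_zero_iff]; exact hζ.le)
    rwa [Real.norm_eq_abs] at h
  have hm := sig_aesm hn hcont
  have key : ∀ ε : ℝ, 0 < ε → |v x - ∫ ζ, Pk x ζ * v ζ ∂(sig n)| ≤ ε := by
    intro ε hε
    obtain ⟨s0, hs0, hap⟩ := approx_id hn hcont hε
    have hs : max s0 ‖x‖ < 1 := max_lt hs0 hx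
    have hvs : HarmonicOnNhd v (closedBall (0 : E n) (max s0 ‖x‖)) := fun z hz =>
      hv z (closedBall_subset_closedBall hs.le hz)
    have h1 := mpi hn hs hvs hm hG (c := ε) (by
      intro y hy
      have h := hap y (by rw [hy]; exact le_max_left _ _) (by rw [hy]; exact hs)
      have h' := (abs_le.1 h).1
      linarith) x (le_max_right _ _)
    have hneg : ∀ y : E n, (∫ ζ, Pk y ζ * (-v) ζ ∂(sig n)) = - ∫ ζ, Pk y ζ * v ζ ∂(sig n) := by
      intro y
      rw [← integral_neg]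
      refine integral_congr_ae (Filter.Eventually.of_forall fun ζ => ?_)
      simp only [Pi.neg_apply]
      ring
    have hvn : HarmonicOnNhd (-v) (closedBall (0 : E n) (max s0 ‖x‖)) := hvs.neg
    have h2 := mpi hn hs hvn hm.neg (G := C) (by
      intro ζ hζ
      simpa using hG ζ hζ) (c := ε) (by
      intro y hy
      have h := hap y (by rw [hy]; exact le_max_left _ _) (by rw [hy]; exact hs)
      have h' := (abs_le.1 h).2
      rw [hneg y]
      simp only [Pi.neg_apply]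
      linarith) x (le_max_right _ _)
    rw [hneg x] at h2
    simp only [Pi.neg_apply] at h2
    rw [abs_le]
    constructor <;> linarith
  have h0 : |v x - ∫ ζ, Pk x ζ * v ζ ∂(sig n)| ≤ 0 := by
    refine le_of_forall_pos_le_add fun ε hε => ?_
    rw [zero_add]
    exact key ε hε
  have h1 := abs_nonpos_iff.1 h0
  linarith

end TB
end

section

namespace TB

open Metric MeasureTheory InnerProductSpace Laplacian

/-- `P f` against its truncation, pointwise -/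
private lemma point_A2 {n : ℕ} (hn : 6 ≤ n) {a b : ℝ} (ha : 0 < a) (hab : a < b) (hb : b < 1) {e : E n} (he : ‖e‖ = 1)
    {ζ : E n} (hζ : ‖ζ‖ = 1) {F δ : ℝ} (h0 : 0 ≤ F) (h2 : F ≤ 2) (hδ : 0 < δ) (hδ1 : δ ≤ 1) :
    gam n a b * (Pk (a • e) ζ * F + c0 a b * δ *
      (Pk (a • e) ζ * F - ({ζ : E n | 1 + ⟪ζ, e⟫_ℝ < δ}.indicator (fun _ => (2 : ℝ)) ζ))) ≤ Pk (b • e) ζ * F := by
  have hb0 : 0 < b := ha.trans hab
  have hg : 0 < gam n a b := gam_pos ha hab hb
  have hna : ‖a • e‖ < 1 := by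
    rw [norm_smul, he, mul_one, Real.norm_eq_abs, abs_of_pos ha]
    exact hab.trans hb
  have hPa : 0 ≤ Pk (a • e) ζ := Pk_nonneg hna.le
  have hc0 : 0 ≤ c0 a b := by
    unfold c0
    have h1 : 0 ≤ 1 - a * b := by nlinarith
    have h3 : 0 ≤ b - a := by linarith
    positivity
  have ht1 : ⟪ζ, e⟫_ℝ ≤ 1 := by
    have := real_inner_le_norm ζ e
    rwa [hζ, he, mul_one] at this
  have ht0 : -1 ≤ ⟪ζ, e⟫_ℝ := by
    have := abs_real_inner_le_norm ζ e
    rw [hζ, he, mul_one] at this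
    exact (abs_le.1 this).1
  have hR := Rr_ge ha hab hb ht0 ht1
  have hτ : 0 ≤ c0 a b * (1 + ⟪ζ, e⟫_ℝ) := mul_nonneg hc0 (by linarith)
  have hR1 : 1 ≤ Rr a b ⟪ζ, e⟫_ℝ := by linarith
  have hpow : Rr a b ⟪ζ, e⟫_ℝ ≤ (Rr a b ⟪ζ, e⟫_ℝ) ^ ((n : ℝ) / 2) := by
    have h6 : (6 : ℝ) ≤ n := by exact_mod_cast hn
    calc Rr a b ⟪ζ, e⟫_ℝ = (Rr a b ⟪ζ, e⟫_ℝ) ^ (1 : ℝ) := (Real.rpow_one _).symm
      _ ≤ (Rr a b ⟪ζ, e⟫_ℝ) ^ ((n : ℝ) / 2) := Real.rpow_le_rpow_of_exponent_le hR1 (by linarith)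
  have hPF : 0 ≤ Pk (a • e) ζ * F := mul_nonneg hPa h0
  rw [Pk_ratio (by omega) ha hab hb he hζ]
  have key : Pk (a • e) ζ * F + c0 a b * δ *
      (Pk (a • e) ζ * F - ({ζ : E n | 1 + ⟪ζ, e⟫_ℝ < δ}.indicator (fun _ => (2 : ℝ)) ζ)) ≤
      (1 + c0 a b * (1 + ⟪ζ, e⟫_ℝ)) * (Pk (a • e) ζ * F) := by
    by_cases hc : 1 + ⟪ζ, e⟫_ℝ < δ
    · have hind : ({ζ : E n | 1 + ⟪ζ, e⟫_ℝ < δ}.indicator (fun _ => (2 : ℝ)) ζ) = 2 :=
        Set.indicator_of_mem (show ζ ∈ {ζ : E n | 1 + ⟪ζ, e⟫_ℝ < δ} from hc) _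
      rw [hind]
      have hd : 1 ≤ ‖a • e - ζ‖ ^ 2 := by
        rw [norm_axis he hζ a]
        nlinarith
      have hd1 : 1 ≤ ‖a • e - ζ‖ := by
        by_contra hlt
        push Not at hlt
        have := norm_nonneg (a • e - ζ)
        nlinarith
      have hP1 : Pk (a • e) ζ ≤ 1 := by
        unfold Pk
        rw [div_le_one (by positivity)]
        have h9 : (1 : ℝ) ≤ ‖a • e - ζ‖ ^ n := one_le_pow₀ hd1
        have h10 : 0 ≤ ‖a • e‖ ^ 2 := by positivity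
        linarith
      have h11 : Pk (a • e) ζ * F ≤ 2 := by nlinarith
      have h12 : c0 a b * δ * (Pk (a • e) ζ * F - 2) ≤ 0 :=
        mul_nonpos_of_nonneg_of_nonpos (mul_nonneg hc0 hδ.le) (by linarith)
      nlinarith [mul_nonneg hτ hPF]
    · have hind : ({ζ : E n | 1 + ⟪ζ, e⟫_ℝ < δ}.indicator (fun _ => (2 : ℝ)) ζ) = 0 :=
        Set.indicator_of_notMem (show ζ ∉ {ζ : E n | 1 + ⟪ζ, e⟫_ℝ < δ} from hc) _
      rw [hind, sub_zero]
      push Not at hc
      have h13 : c0 a b * δ * (Pk (a • e) ζ * F) ≤ c0 a b * (1 + ⟪ζ, e⟫_ℝ) * (Pk (a • e) ζ * F) :=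
        mul_le_mul_of_nonneg_right (mul_le_mul_of_nonneg_left hc hc0) hPF
      linarith
  calc gam n a b * (Pk (a • e) ζ * F + c0 a b * δ *
      (Pk (a • e) ζ * F - ({ζ : E n | 1 + ⟪ζ, e⟫_ℝ < δ}.indicator (fun _ => (2 : ℝ)) ζ)))
      ≤ gam n a b * ((1 + c0 a b * (1 + ⟪ζ, e⟫_ℝ)) * (Pk (a • e) ζ * F)) :=
        mul_le_mul_of_nonneg_left key hg.le
    _ ≤ gam n a b * ((Rr a b ⟪ζ, e⟫_ℝ) ^ ((n : ℝ) / 2) * (Pk (a • e) ζ * F)) :=
        mul_le_mul_of_nonneg_left (mul_le_mul_of_nonneg_right (hR.trans hpow) hPF) hg.le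
    _ = gam n a b * (Rr a b ⟪ζ, e⟫_ℝ) ^ ((n : ℝ) / 2) * Pk (a • e) ζ * F := by ring

/-- Second case.  Proof: write `y` for the integral at `a e`, `t = <ζ,e>`, `τ = 1 + t ≥ 0`.  If `y = 0` the left side is `0`.
Let `y > 0`, `δ = √y ≤ 1`.
(1) `Rr^(n/2) ≥ 1 + c0 τ` (as `Rr ≥ 1 + c0 τ ≥ 1`, `n/2 ≥ 1`), so `∫ Pk (b e) f ≥ gam (y + c0 ∫ Pk (a e) f τ)`.
(2) `∫ Pk (a e) f τ ≥ δ (y - ∫_{τ<δ} Pk (a e) f)`.
(3) for `τ < δ ≤ 1`: `|a e - ζ|^2 = (1+a)^2 - 2 a τ ≥ 1`, so `Pk (a e) ζ ≤ 1` and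
`∫_{τ<δ} Pk (a e) f ≤ 2 σ(τ<δ) ≤ 2 (√3)^n y^((n-1)/4) ≤ y/2` (`cap`, `h3`, `y^((n-1)/4) = y y^((n-5)/4)`).
So `∫ Pk (b e) f ≥ gam (y + c0 y √y / 2) ≥ gam (y + y^2)` as `√y ≤ c0/2`. -/
theorem caseA2 {n : ℕ} (hn : 6 ≤ n) {a b : ℝ} (ha : 0 < a) (hab : a < b) (hb : b < 1) {e : E n} (he : ‖e‖ = 1)
    {f : E n → ℝ} (hf : AEStronglyMeasurable f (sig n)) (hf0 : ∀ ζ : E n, ‖ζ‖ = 1 → 0 ≤ f ζ)
    (hf2 : ∀ ζ : E n, ‖ζ‖ = 1 → f ζ ≤ 2) (h1 : ∫ ζ, Pk (a • e) ζ * f ζ ∂(sig n) ≤ 1)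
    (h3 : 4 * (√3) ^ n * (∫ ζ, Pk (a • e) ζ * f ζ ∂(sig n)) ^ (((n : ℝ) - 5) / 4) ≤ 1)
    (h4 : ∫ ζ, Pk (a • e) ζ * f ζ ∂(sig n) ≤ c0 a b ^ 2 / 4) :
    gam n a b * ((∫ ζ, Pk (a • e) ζ * f ζ ∂(sig n)) + (∫ ζ, Pk (a • e) ζ * f ζ ∂(sig n)) ^ 2)
      ≤ ∫ ζ, Pk (b • e) ζ * f ζ ∂(sig n) := by
  have := sig_prob n
  have hn1 : 1 ≤ n := by omega
  have hb0 : 0 < b := ha.trans hab
  have hna : ‖a • e‖ < 1 := by
    rw [norm_smul, he, mul_one, Real.norm_eq_abs, abs_of_pos ha]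
    exact hab.trans hb
  have hnb : ‖b • e‖ < 1 := by
    rw [norm_smul, he, mul_one, Real.norm_eq_abs, abs_of_pos hb0]
    exact hb
  have hfa : ∀ ζ : E n, ‖ζ‖ = 1 → |f ζ| ≤ 2 := fun ζ hζ => by
    rw [abs_of_nonneg (hf0 ζ hζ)]
    exact hf2 ζ hζ
  have hia := Pk_int hn1 hna hf hfa
  have hib := Pk_int hn1 hnb hf hfa
  have hg : 0 < gam n a b := gam_pos ha hab hb
  have hc0 : 0 ≤ c0 a b := by
    unfold c0
    have h1 : 0 ≤ 1 - a * b := by nlinarith
    have h3 : 0 ≤ b - a := by linarith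
    positivity
  obtain ⟨y, hy⟩ : ∃ y, y = ∫ ζ, Pk (a • e) ζ * f ζ ∂(sig n) := ⟨_, rfl⟩
  rw [← hy] at h1 h3 h4 ⊢
  have hy0 : 0 ≤ y := by
    rw [hy]
    apply integral_nonneg_of_ae
    filter_upwards [sig_unit hn1] with ζ hζ
    exact mul_nonneg (Pk_nonneg hna.le) (hf0 ζ hζ)
  rcases hy0.eq_or_lt with hyz | hypos
  · rw [← hyz]
    simp only [ne_eq, OfNat.ofNat_ne_zero, not_false_eq_true, zero_pow, add_zero, mul_zero]
    apply integral_nonneg_of_ae
    filter_upwards [sig_unit hn1] with ζ hζ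
    exact mul_nonneg (Pk_nonneg hnb.le) (hf0 ζ hζ)
  have hδ : 0 < √y := Real.sqrt_pos.2 hypos
  have hδ1 : √y ≤ 1 := Real.sqrt_le_one.2 h1
  have hms : MeasurableSet {ζ : E n | 1 + ⟪ζ, e⟫_ℝ < √y} := by
    apply measurableSet_lt
    · exact (measurable_const.add (measurable_id.inner measurable_const))
    · exact measurable_const
  have hii : Integrable ({ζ : E n | 1 + ⟪ζ, e⟫_ℝ < √y}.indicator (fun _ => (2 : ℝ))) (sig n) :=
    (integrable_const _).indicator hms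
  have hi2 : Integrable (fun ζ => gam n a b * (Pk (a • e) ζ * f ζ + c0 a b * √y *
      (Pk (a • e) ζ * f ζ - ({ζ : E n | 1 + ⟪ζ, e⟫_ℝ < √y}.indicator (fun _ => (2 : ℝ)) ζ)))) (sig n) :=
    (hia.add ((hia.sub hii).const_mul _)).const_mul _
  have key : ∀ᵐ ζ ∂(sig n), gam n a b * (Pk (a • e) ζ * f ζ + c0 a b * √y *
      (Pk (a • e) ζ * f ζ - ({ζ : E n | 1 + ⟪ζ, e⟫_ℝ < √y}.indicator (fun _ => (2 : ℝ)) ζ))) ≤ Pk (b • e) ζ * f ζ := by
    filter_upwards [sig_unit hn1] with ζ hζ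
    exact point_A2 hn ha hab hb he hζ (hf0 ζ hζ) (hf2 ζ hζ) hδ hδ1
  have h6 := integral_mono_ae hi2 hib key
  have hcap := cap (n := n) (by omega) he hδ hδ1
  have hint : ∫ ζ, (Pk (a • e) ζ * f ζ + c0 a b * √y *
      (Pk (a • e) ζ * f ζ - ({ζ : E n | 1 + ⟪ζ, e⟫_ℝ < √y}.indicator (fun _ => (2 : ℝ)) ζ))) ∂(sig n) =
      y + c0 a b * √y * (y - (sig n).real {ζ : E n | 1 + ⟪ζ, e⟫_ℝ < √y} * 2) := by
    have e1 : ∫ ζ, (Pk (a • e) ζ * f ζ - ({ζ : E n | 1 + ⟪ζ, e⟫_ℝ < √y}.indicator (fun _ => (2 : ℝ)) ζ)) ∂(sig n) =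
        y - (sig n).real {ζ : E n | 1 + ⟪ζ, e⟫_ℝ < √y} * 2 := by
      rw [integral_sub hia hii, integral_indicator_const _ hms, ← hy, smul_eq_mul]
    have e2 : Integrable (fun ζ => c0 a b * √y *
        (Pk (a • e) ζ * f ζ - ({ζ : E n | 1 + ⟪ζ, e⟫_ℝ < √y}.indicator (fun _ => (2 : ℝ)) ζ))) (sig n) :=
      (hia.sub hii).const_mul _
    rw [integral_add hia e2, integral_const_mul, e1, ← hy]
  rw [integral_const_mul, hint] at h6
  have hpow : √y ^ (((n : ℝ) - 1) / 2) = y * y ^ (((n : ℝ) - 5) / 4) := by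
    rw [Real.sqrt_eq_rpow, ← Real.rpow_mul hypos.le]
    nth_rewrite 2 [← Real.rpow_one y]
    rw [← Real.rpow_add hypos]
    congr 1
    ring
  rw [hpow] at hcap
  have hσ : 2 * (sig n).real {ζ : E n | 1 + ⟪ζ, e⟫_ℝ < √y} ≤ y / 2 := by
    have h7 : 4 * (√3) ^ n * y ^ (((n : ℝ) - 5) / 4) * y ≤ 1 * y := mul_le_mul_of_nonneg_right h3 hypos.le
    nlinarith
  have hs : √y ≤ c0 a b / 2 := by
    rw [show c0 a b / 2 = √((c0 a b / 2) ^ 2) from (Real.sqrt_sq (by positivity)).symm]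
    apply Real.sqrt_le_sqrt
    nlinarith
  have hss : √y * √y = y := Real.mul_self_sqrt hypos.le
  refine le_trans ?_ h6
  apply mul_le_mul_of_nonneg_left _ hg.le
  have h8 : c0 a b * √y * (y / 2) ≤ c0 a b * √y * (y - (sig n).real {ζ : E n | 1 + ⟪ζ, e⟫_ℝ < √y} * 2) :=
    mul_le_mul_of_nonneg_left (by linarith) (mul_nonneg hc0 hδ.le)
  have h9 : y ^ 2 ≤ c0 a b * √y * (y / 2) := by
    have h10 : √y * (√y * y) ≤ c0 a b / 2 * (√y * y) := mul_le_mul_of_nonneg_right hs (by positivity)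
    have h11 : √y * (√y * y) = y ^ 2 := by rw [← mul_assoc, hss]; ring
    linarith
  linarith

end TB
end

section

namespace TB

open Metric MeasureTheory InnerProductSpace Laplacian

/-- Symmetric correlation.  Proof: put `q = √p` in `[0,1)`.  By `poisson` at `q ζ` (for unit `ζ`, `|q ζ| < 1`),
`v(q ζ)^2 = ∫ Pk (q ζ) η v(η) v(q ζ) dσ(η)` and `Pk (q ζ) η = Pk (q η) ζ` (`Pk_symm`, a.e. unit).  Exchange the integrals
(`integral_integral_swap`; the integrand is bounded and a.e. measurable on the product), and the inner integral is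
`∫ Pk (q η) ζ v(q ζ) dσ(ζ) = v(q (q η)) = v(p η)` by `poisson` for `x -> v(q x)`, which is harmonic near the closed unit ball
(`harm_dil`). -/
theorem corr {n : ℕ} (hn : 1 ≤ n) {v : E n → ℝ} (hv : HarmonicOnNhd v (closedBall (0 : E n) 1)) {p : ℝ} (hp0 : 0 ≤ p)
    (hp1 : p < 1) :
    ∫ ζ, v (√p • ζ) ^ 2 ∂(sig n) = ∫ ζ, v ζ * v (p • ζ) ∂(sig n) := by
  have hprob : IsProbabilityMeasure (sig n) := sig_prob n
  have hunit := sig_unit hn
  set q := √p with hq
  have hq0 : 0 ≤ q := Real.sqrt_nonneg p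
  have hqq : q * q = p := Real.mul_self_sqrt hp0
  have hq1 : q < 1 := by
    by_contra h
    push Not at h
    nlinarith
  have hnorm : ∀ ζ : E n, ‖ζ‖ = 1 → ‖q • ζ‖ = q := by
    intro ζ hζ
    rw [norm_smul, hζ, mul_one, Real.norm_of_nonneg hq0]
  have hmem : ∀ x ∈ closedBall (0 : E n) 1, q • x ∈ closedBall (0 : E n) 1 := by
    intro x hx
    rw [mem_closedBall_zero_iff] at hx ⊢
    rw [norm_smul, Real.norm_of_nonneg hq0]
    nlinarith [norm_nonneg x]
  have hw : HarmonicOnNhd (fun y : E n => v (q • y)) (closedBall (0 : E n) 1) :=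
    fun x hx => harm_dil (hv _ (hmem x hx))
  have hvc : ContinuousOn v (closedBall (0 : E n) 1) :=
    fun x hx => (hv x hx).1.continuousAt.continuousWithinAt
  have hwc : ContinuousOn (fun y : E n => v (q • y)) (closedBall (0 : E n) 1) :=
    fun x hx => (hw x hx).1.continuousAt.continuousWithinAt
  obtain ⟨G, hG⟩ := (isCompact_closedBall (0 : E n) 1).exists_bound_of_continuousOn hvc
  have hGu : ∀ ζ : E n, ‖ζ‖ = 1 → |v ζ| ≤ G := fun ζ hζ => by
    have := hG ζ (by rw [mem_closedBall_zero_iff, hζ])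
    rwa [Real.norm_eq_abs] at this
  have hGq : ∀ ζ : E n, ‖ζ‖ = 1 → |v (q • ζ)| ≤ G := fun ζ hζ => by
    have := hG (q • ζ) (hmem ζ (by rw [mem_closedBall_zero_iff, hζ]))
    rwa [Real.norm_eq_abs] at this
  have hG0 : 0 ≤ G := (norm_nonneg _).trans (hG 0 (mem_closedBall_self zero_le_one))
  set C : ℝ := (1 - q ^ 2) / (1 - q) ^ n with hC
  have hPk : ∀ ζ η : E n, ‖ζ‖ = 1 → ‖η‖ = 1 → |Pk (q • ζ) η| ≤ C := by
    intro ζ η hζ hη
    have h1 : ‖q • ζ‖ < 1 := by rw [hnorm ζ hζ]; exact hq1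
    rw [abs_of_nonneg (Pk_nonneg h1.le)]
    have h2 := Pk_le h1 hη
    rwa [hnorm ζ hζ] at h2
  have hC0 : 0 ≤ C := by
    rw [hC]
    apply div_nonneg
    · nlinarith
    · exact pow_nonneg (by linarith) n
  -- integrability on the product
  have hint : Integrable (Function.uncurry fun ζ η : E n => Pk (q • ζ) η * v η * v (q • ζ))
      ((sig n).prod (sig n)) := by
    have h1 : AEStronglyMeasurable (fun z : E n × E n => Pk (q • z.1) z.2)
        ((sig n).prod (sig n)) := by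
      have h2 : Measurable fun z : E n × E n => ((q • z.1, z.2) : E n × E n) :=
        (measurable_fst.const_smul q).prodMk measurable_snd
      exact ((Pk_meas n).comp h2).aestronglyMeasurable
    have h2 : AEStronglyMeasurable (fun z : E n × E n => v z.2) ((sig n).prod (sig n)) :=
      (sig_aesm hn hvc).comp_snd
    have h3 : AEStronglyMeasurable (fun z : E n × E n => v (q • z.1)) ((sig n).prod (sig n)) :=
      (sig_aesm hn hwc).comp_fst
    refine Integrable.of_bound ((h1.mul h2).mul h3) (C * G * G) ?_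
    have e1 : ∀ᵐ z ∂((sig n).prod (sig n)), ‖z.1‖ = 1 :=
      Measure.quasiMeasurePreserving_fst.ae hunit
    have e2 : ∀ᵐ z ∂((sig n).prod (sig n)), ‖z.2‖ = 1 :=
      Measure.quasiMeasurePreserving_snd.ae hunit
    filter_upwards [e1, e2] with z hz1 hz2
    change ‖Pk (q • z.1) z.2 * v z.2 * v (q • z.1)‖ ≤ C * G * G
    rw [norm_mul, norm_mul, Real.norm_eq_abs, Real.norm_eq_abs, Real.norm_eq_abs]
    exact mul_le_mul (mul_le_mul (hPk _ _ hz1 hz2) (hGu _ hz2) (abs_nonneg _) hC0) (hGq _ hz1)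
      (abs_nonneg _) (mul_nonneg hC0 hG0)
  calc ∫ ζ, v (q • ζ) ^ 2 ∂(sig n)
      = ∫ ζ, ∫ η, Pk (q • ζ) η * v η * v (q • ζ) ∂(sig n) ∂(sig n) := by
        apply integral_congr_ae
        filter_upwards [hunit] with ζ hζ
        have h1 := poisson hn hv (x := q • ζ) (by rw [hnorm ζ hζ]; exact hq1)
        change v (q • ζ) ^ 2 = ∫ η, Pk (q • ζ) η * v η * v (q • ζ) ∂(sig n)
        rw [integral_mul_const, ← h1, pow_two]
    _ = ∫ η, ∫ ζ, Pk (q • ζ) η * v η * v (q • ζ) ∂(sig n) ∂(sig n) :=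
        integral_integral_swap hint
    _ = ∫ η, v η * v (p • η) ∂(sig n) := by
        apply integral_congr_ae
        filter_upwards [hunit] with η hη
        have h1 := poisson hn hw (x := q • η) (by rw [hnorm η hη]; exact hq1)
        change v (q • q • η) = ∫ ζ, Pk (q • η) ζ * v (q • ζ) ∂(sig n) at h1
        rw [smul_smul, hqq] at h1
        change ∫ ζ, Pk (q • ζ) η * v η * v (q • ζ) ∂(sig n) = v η * v (p • η)
        rw [h1, ← integral_const_mul]
        apply integral_congr_ae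
        filter_upwards [hunit] with ζ hζ
        change Pk (q • ζ) η * v η * v (q • ζ) = v η * (Pk (q • η) ζ * v (q • ζ))
        rw [Pk_symm hζ hη q]
        ring

end TB
end

section

namespace TB

open Metric MeasureTheory InnerProductSpace Laplacian

/-- Cauchy-Schwarz for bounded functions on a probability space (e.g. from `∫ (f - c g)^2 ≥ 0` for all real `c`, or from
`integral_mul_le_Lp_mul_Lq_of_nonneg`). -/
theorem cs {α : Type*} [MeasurableSpace α] {μ : Measure α} [IsProbabilityMeasure μ] {f g : α → ℝ}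
    (hf : AEStronglyMeasurable f μ) (hg : AEStronglyMeasurable g μ) {A : ℝ} (hfA : ∀ᵐ x ∂μ, |f x| ≤ A)
    (hgA : ∀ᵐ x ∂μ, |g x| ≤ A) : (∫ x, f x * g x ∂μ) ^ 2 ≤ (∫ x, f x ^ 2 ∂μ) * ∫ x, g x ^ 2 ∂μ := by
  have hb : ∀ (h k : α → ℝ), AEStronglyMeasurable h μ → AEStronglyMeasurable k μ →
      (∀ᵐ x ∂μ, |h x| ≤ A) → (∀ᵐ x ∂μ, |k x| ≤ A) → Integrable (fun x => h x * k x) μ := by
    intro h k hh hk hhA hkA
    refine Integrable.of_bound (hh.mul hk) (A * A) ?_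
    filter_upwards [hhA, hkA] with x h1 h2
    rw [Real.norm_eq_abs, abs_mul]
    exact mul_le_mul h1 h2 (abs_nonneg _) ((abs_nonneg _).trans h1)
  have iff : Integrable (fun x => f x * f x) μ := hb f f hf hf hfA hfA
  have ifg : Integrable (fun x => f x * g x) μ := hb f g hf hg hfA hgA
  have igg : Integrable (fun x => g x * g x) μ := hb g g hg hg hgA hgA
  have key : ∀ c : ℝ, 0 ≤ (∫ x, g x * g x ∂μ) * (c * c) + (-2 * ∫ x, f x * g x ∂μ) * c
      + ∫ x, f x * f x ∂μ := by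
    intro c
    have h0 : 0 ≤ ∫ x, (f x - c * g x) ^ 2 ∂μ := integral_nonneg fun x => sq_nonneg _
    have h1 : ∫ x, (f x - c * g x) ^ 2 ∂μ =
        (∫ x, g x * g x ∂μ) * (c * c) + (-2 * ∫ x, f x * g x ∂μ) * c + ∫ x, f x * f x ∂μ := by
      have e1 : (fun x => (f x - c * g x) ^ 2) =
          fun x => ((c * c) * (g x * g x) + (-2 * c) * (f x * g x)) + f x * f x := by
        funext x
        ring
      have i1 : Integrable (fun x => (c * c) * (g x * g x)) μ := igg.const_mul _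
      have i2 : Integrable (fun x => (-2 * c) * (f x * g x)) μ := ifg.const_mul _
      have i3 : Integrable (fun x => (c * c) * (g x * g x) + (-2 * c) * (f x * g x)) μ := i1.add i2
      rw [e1, integral_add i3 iff, integral_add i1 i2, integral_const_mul, integral_const_mul]
      ring
    rw [← h1]
    exact h0
  have hd := discrim_le_zero key
  rw [discrim] at hd
  have e2 : ∀ h : α → ℝ, (fun x => h x ^ 2) = fun x => h x * h x := fun h => by
    funext x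
    ring
  rw [e2 f, e2 g]
  nlinarith

/-- Proof: induction on `k`.  `k = 0`: `|v (a ζ)| ≤ m`.  Step: `p = a^((1/2)^k)` in `(0,1)`, `√p = a^((1/2)^(k+1))`; `corr` and
`cs`: `(∫ v(√p ζ)^2)^2 ≤ (∫ v^2) (∫ v(p ζ)^2) ≤ (m^2)^((1/2)^k)`, take the square root. -/
theorem H_iter {n : ℕ} (hn : 1 ≤ n) {v : E n → ℝ} (hv : HarmonicOnNhd v (closedBall (0 : E n) 1))
    (hv1 : ∀ x : E n, ‖x‖ ≤ 1 → |v x| ≤ 1) {a m : ℝ} (ha : 0 < a) (ha1 : a < 1)
    (hm : ∀ x : E n, ‖x‖ ≤ a → |v x| ≤ m) (k : ℕ) :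
    ∫ ζ, v (a ^ ((1 / 2 : ℝ) ^ k) • ζ) ^ 2 ∂(sig n) ≤ (m ^ 2) ^ ((1 / 2 : ℝ) ^ k) := by
  have hprob : IsProbabilityMeasure (sig n) := sig_prob n
  have hunit := sig_unit hn
  have hvc : ContinuousOn v (closedBall (0 : E n) 1) :=
    fun x hx => (hv x hx).1.continuousAt.continuousWithinAt
  have hbd : ∀ B : ℝ, ∀ f : E n → ℝ, AEStronglyMeasurable f (sig n) → (∀ᵐ x ∂(sig n), |f x| ≤ B) →
      ∫ x, f x ^ 2 ∂(sig n) ≤ B ^ 2 := by
    intro B f hf hfB
    have h1 : ∫ x, f x ^ 2 ∂(sig n) ≤ ∫ _x, B ^ 2 ∂(sig n) := by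
      apply integral_mono_ae
      · refine Integrable.of_bound (hf.pow 2) (B ^ 2) ?_
        filter_upwards [hfB] with x hx
        rw [Real.norm_eq_abs, abs_pow]
        exact pow_le_pow_left₀ (abs_nonneg _) hx 2
      · exact integrable_const _
      · filter_upwards [hfB] with x hx
        rw [← sq_abs (f x)]
        exact pow_le_pow_left₀ (abs_nonneg _) hx 2
    refine h1.trans ?_
    rw [integral_const]
    simp
  have hmeas : ∀ q : ℝ, 0 ≤ q → q ≤ 1 → AEStronglyMeasurable (fun ζ : E n => v (q • ζ)) (sig n) := by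
    intro q hq0 hq1
    have hmem : ∀ x ∈ closedBall (0 : E n) 1, q • x ∈ closedBall (0 : E n) 1 := by
      intro x hx
      rw [mem_closedBall_zero_iff] at hx ⊢
      rw [norm_smul, Real.norm_of_nonneg hq0]
      nlinarith [norm_nonneg x]
    have hwc : ContinuousOn (fun y : E n => v (q • y)) (closedBall (0 : E n) 1) :=
      hvc.comp ((continuous_const_smul q).continuousOn) hmem
    exact sig_aesm hn hwc
  have hle1 : ∀ q : ℝ, 0 ≤ q → q ≤ 1 → ∀ᵐ ζ ∂(sig n), |v (q • ζ)| ≤ 1 := by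
    intro q hq0 hq1
    filter_upwards [hunit] with ζ hζ
    apply hv1
    rw [norm_smul, Real.norm_of_nonneg hq0, hζ, mul_one]
    exact hq1
  have hm0 : 0 ≤ m := (abs_nonneg _).trans (hm 0 (by rw [norm_zero]; exact ha.le))
  induction k with
  | zero =>
    rw [pow_zero, Real.rpow_one, Real.rpow_one]
    apply hbd m _ (hmeas a ha.le ha1.le)
    filter_upwards [hunit] with ζ hζ
    apply hm
    rw [norm_smul, Real.norm_of_nonneg ha.le, hζ, mul_one]
  | succ k ih =>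
    have hk : (0 : ℝ) < (1 / 2 : ℝ) ^ k := by positivity
    have hp0 : 0 ≤ a ^ ((1 / 2 : ℝ) ^ k) := Real.rpow_nonneg ha.le _
    have hp1 : a ^ ((1 / 2 : ℝ) ^ k) < 1 := Real.rpow_lt_one ha.le ha1 hk
    have hs : √(a ^ ((1 / 2 : ℝ) ^ k)) = a ^ ((1 / 2 : ℝ) ^ (k + 1)) := by
      rw [Real.sqrt_eq_rpow, ← Real.rpow_mul ha.le, pow_succ]
    have hms : √((m ^ 2) ^ ((1 / 2 : ℝ) ^ k)) = (m ^ 2) ^ ((1 / 2 : ℝ) ^ (k + 1)) := by
      rw [Real.sqrt_eq_rpow, ← Real.rpow_mul (sq_nonneg m), pow_succ (1 / 2 : ℝ) k]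
    have hc := corr hn hv hp0 hp1
    rw [hs] at hc
    have h1 : AEStronglyMeasurable v (sig n) := by
      simpa only [one_smul] using hmeas 1 zero_le_one le_rfl
    have h1b : ∀ᵐ ζ ∂(sig n), |v ζ| ≤ 1 := by
      simpa only [one_smul] using hle1 1 zero_le_one le_rfl
    have hcs := cs h1 (hmeas _ hp0 hp1.le) h1b (hle1 _ hp0 hp1.le)
    have hv2 : ∫ ζ, v ζ ^ 2 ∂(sig n) ≤ 1 := by
      have := hbd 1 v h1 h1b
      simpa using this
    rw [← hc] at hcs
    have hI0 : 0 ≤ ∫ ζ, v (a ^ ((1 / 2 : ℝ) ^ k) • ζ) ^ 2 ∂(sig n) :=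
      integral_nonneg fun ζ => sq_nonneg _
    rw [← hms]
    apply Real.le_sqrt_of_sq_le
    calc (∫ ζ, v (a ^ ((1 / 2 : ℝ) ^ (k + 1)) • ζ) ^ 2 ∂(sig n)) ^ 2
        ≤ (∫ ζ, v ζ ^ 2 ∂(sig n)) * ∫ ζ, v (a ^ ((1 / 2 : ℝ) ^ k) • ζ) ^ 2 ∂(sig n) := hcs
      _ ≤ 1 * ∫ ζ, v (a ^ ((1 / 2 : ℝ) ^ k) • ζ) ^ 2 ∂(sig n) := mul_le_mul_of_nonneg_right hv2 hI0
      _ ≤ (m ^ 2) ^ ((1 / 2 : ℝ) ^ k) := by rw [one_mul]; exact ih

end TB
end

section

namespace TB

open Metric MeasureTheory InnerProductSpace Laplacian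

private lemma b3_sup {n : ℕ} {s r b : ℝ} (hb : 0 < b) (hbr : b < r) (hr : r < 1) (hs : s = b / r) :
    (1 - s ^ 2) / (1 - s) ^ n ≤ (2 / (r - b)) ^ n := by
  have hr0 : 0 < r := hb.trans hbr
  have hs0 : 0 ≤ s := by rw [hs]; positivity
  have hrb : 0 < r - b := sub_pos.mpr hbr
  have h1 : r - b ≤ 1 - s := by
    have h2 : 1 - s = (r - b) / r := by rw [hs]; field_simp
    rw [h2, le_div_iff₀ hr0]
    nlinarith
  have h3 : 0 < 1 - s := lt_of_lt_of_le hrb h1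
  have h4 : 0 < (1 - s) ^ n := pow_pos h3 n
  calc (1 - s ^ 2) / (1 - s) ^ n ≤ 1 / (1 - s) ^ n := by
        apply div_le_div_of_nonneg_right _ h4.le
        nlinarith [sq_nonneg s]
    _ = (1 / (1 - s)) ^ n := by rw [div_pow, one_pow]
    _ ≤ (2 / (r - b)) ^ n := by
        apply pow_le_pow_left₀ (by positivity)
        apply div_le_div₀ (by norm_num) (by norm_num) hrb h1

/-- Pointwise bound.  Proof: `poisson` for `x -> v (r x)` (`harm_dil`) at `(b/r) e`: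
`v (b e) = ∫ Pk ((b/r) e) ζ v (r ζ) dσ ≤ (sup Pk) ∫ |v (r ζ)| ≤ (sup Pk) √(∫ v (r ζ)^2)` (`cs` with `g = 1`); with `s = b/r`,
`sup Pk ≤ (1 - s^2)/(1-s)^n ≤ (2/(1-s))^n ≤ (2/(r-b))^n` as `1 - s = (r-b)/r ≥ r - b` (`n ≥ 1`). -/
theorem B_bound {n : ℕ} (hn : 1 ≤ n) {v : E n → ℝ} (hv : HarmonicOnNhd v (closedBall (0 : E n) 1))
    (hv1 : ∀ x : E n, ‖x‖ ≤ 1 → |v x| ≤ 1) {b r : ℝ} (hb : 0 < b) (hbr : b < r) (hr : r < 1) {e : E n} (he : ‖e‖ = 1) :
    v (b • e) ≤ (2 / (r - b)) ^ n * √(∫ ζ, v (r • ζ) ^ 2 ∂(sig n)) := by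
  have hprob : IsProbabilityMeasure (sig n) := sig_prob n
  have hunit := sig_unit hn
  have hr0 : 0 < r := hb.trans hbr
  set s : ℝ := b / r with hs
  have hs0 : 0 ≤ s := by rw [hs]; positivity
  have hs1 : s < 1 := by rw [hs, div_lt_one hr0]; exact hbr
  have hsn : ‖s • e‖ = s := by rw [norm_smul, he, mul_one, Real.norm_of_nonneg hs0]
  have hmem : ∀ x ∈ closedBall (0 : E n) 1, r • x ∈ closedBall (0 : E n) 1 := by
    intro x hx
    rw [mem_closedBall_zero_iff] at hx ⊢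
    rw [norm_smul, Real.norm_of_nonneg hr0.le]
    nlinarith [norm_nonneg x]
  have hw : HarmonicOnNhd (fun y : E n => v (r • y)) (closedBall (0 : E n) 1) :=
    fun x hx => harm_dil (hv _ (hmem x hx))
  have hwc : ContinuousOn (fun y : E n => v (r • y)) (closedBall (0 : E n) 1) :=
    fun x hx => (hw x hx).1.continuousAt.continuousWithinAt
  have hwa : AEStronglyMeasurable (fun ζ : E n => v (r • ζ)) (sig n) := sig_aesm hn hwc
  have hw1 : ∀ᵐ ζ ∂(sig n), |v (r • ζ)| ≤ 1 := by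
    filter_upwards [hunit] with ζ hζ
    apply hv1
    rw [norm_smul, Real.norm_of_nonneg hr0.le, hζ, mul_one]
    exact hr.le
  set P : ℝ := (1 - s ^ 2) / (1 - s) ^ n with hP
  have hP0 : 0 ≤ P := by
    rw [hP]
    apply div_nonneg
    · nlinarith
    · exact pow_nonneg (by linarith) n
  have hpoi := poisson hn hw (x := s • e) (by rw [hsn]; exact hs1)
  have hbe : r • s • e = b • e := by
    rw [smul_smul, hs, mul_div_cancel₀ _ hr0.ne']
  change v (r • s • e) = ∫ ζ, Pk (s • e) ζ * v (r • ζ) ∂(sig n) at hpoi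
  rw [hbe] at hpoi
  have hwi : Integrable (fun ζ : E n => |v (r • ζ)|) (sig n) := by
    refine Integrable.of_bound hwa.norm 1 ?_
    filter_upwards [hw1] with ζ hζ
    rw [Real.norm_eq_abs, abs_abs]
    exact hζ
  have h1 : v (b • e) ≤ P * ∫ ζ, |v (r • ζ)| ∂(sig n) := by
    rw [hpoi, ← integral_const_mul]
    apply le_trans (le_abs_self _)
    rw [← Real.norm_eq_abs]
    apply norm_integral_le_of_norm_le (hwi.const_mul P)
    filter_upwards [hunit] with ζ hζ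
    have hxn : ‖s • e‖ < 1 := by rw [hsn]; exact hs1
    rw [norm_mul, Real.norm_eq_abs, Real.norm_eq_abs, abs_of_nonneg (Pk_nonneg hxn.le)]
    apply mul_le_mul_of_nonneg_right _ (abs_nonneg _)
    have h2 := Pk_le hxn hζ
    rwa [hsn] at h2
  have h2 : ∫ ζ, |v (r • ζ)| ∂(sig n) ≤ √(∫ ζ, v (r • ζ) ^ 2 ∂(sig n)) := by
    apply Real.le_sqrt_of_sq_le
    have h3 := cs (μ := sig n) (f := fun ζ : E n => |v (r • ζ)|) (g := fun _ => (1 : ℝ)) (A := 1)
      hwa.norm aestronglyMeasurable_const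
      (by filter_upwards [hw1] with ζ hζ; rw [abs_abs]; exact hζ)
      (by filter_upwards with ζ; simp)
    simpa [sq_abs] using h3
  have h4 : P ≤ (2 / (r - b)) ^ n := b3_sup hb hbr hr hs
  calc v (b • e) ≤ P * ∫ ζ, |v (r • ζ)| ∂(sig n) := h1
    _ ≤ P * √(∫ ζ, v (r • ζ) ^ 2 ∂(sig n)) := mul_le_mul_of_nonneg_left h2 hP0
    _ ≤ (2 / (r - b)) ^ n * √(∫ ζ, v (r • ζ) ^ 2 ∂(sig n)) :=
        mul_le_mul_of_nonneg_right h4 (Real.sqrt_nonneg _)

/-- Proof: `B_bound` with `r = a^((1/2)^k) < 1`, `H_iter`, `√((m^2)^θ) = m^θ`. -/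
theorem B_final {n : ℕ} (hn : 1 ≤ n) {v : E n → ℝ} (hv : HarmonicOnNhd v (closedBall (0 : E n) 1))
    (hv1 : ∀ x : E n, ‖x‖ ≤ 1 → |v x| ≤ 1) {a b m : ℝ} (ha : 0 < a) (hab : a < b) (hb : b < 1)
    (hm : ∀ x : E n, ‖x‖ ≤ a → |v x| ≤ m) {e : E n} (he : ‖e‖ = 1) {k : ℕ} (hk : b < a ^ ((1 / 2 : ℝ) ^ k)) :
    v (b • e) ≤ (2 / (a ^ ((1 / 2 : ℝ) ^ k) - b)) ^ n * m ^ ((1 / 2 : ℝ) ^ k) := by
  have hθ : (0 : ℝ) < (1 / 2 : ℝ) ^ k := by positivity
  have ha1 : a < 1 := hab.trans hb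
  have hr : a ^ ((1 / 2 : ℝ) ^ k) < 1 := Real.rpow_lt_one ha.le ha1 hθ
  have hm0 : 0 ≤ m := (abs_nonneg _).trans (hm 0 (by simpa using ha.le))
  have h1 := B_bound hn hv hv1 (ha.trans hab) hk hr he
  have h2 := H_iter hn hv hv1 ha ha1 hm k
  have h3 : √((m ^ 2) ^ ((1 / 2 : ℝ) ^ k)) = m ^ ((1 / 2 : ℝ) ^ k) := by
    rw [← Real.rpow_natCast m 2, ← Real.rpow_mul hm0, mul_comm, Real.rpow_mul hm0, Real.rpow_natCast]
    exact Real.sqrt_sq (Real.rpow_nonneg hm0 _)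
  have hpos : 0 ≤ (2 / (a ^ ((1 / 2 : ℝ) ^ k) - b)) ^ n := by
    apply pow_nonneg
    apply div_nonneg (by norm_num)
    linarith
  calc v (b • e) ≤ (2 / (a ^ ((1 / 2 : ℝ) ^ k) - b)) ^ n * √(∫ ζ, v (a ^ ((1 / 2 : ℝ) ^ k) • ζ) ^ 2 ∂(sig n)) := h1
    _ ≤ (2 / (a ^ ((1 / 2 : ℝ) ^ k) - b)) ^ n * √((m ^ 2) ^ ((1 / 2 : ℝ) ^ k)) :=
        mul_le_mul_of_nonneg_left (Real.sqrt_le_sqrt h2) hpos
    _ = (2 / (a ^ ((1 / 2 : ℝ) ^ k) - b)) ^ n * m ^ ((1 / 2 : ℝ) ^ k) := by rw [h3]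

end TB
end

section

namespace TB

open Metric MeasureTheory InnerProductSpace Laplacian

private theorem T1_one_sub {n : ℕ} (hn : 1 ≤ n) {v : E n → ℝ} (hv : HarmonicOnNhd v (closedBall (0 : E n) 1))
    (hv1 : ∀ x : E n, ‖x‖ ≤ 1 → |v x| ≤ 1) (hm : AEStronglyMeasurable v (sig n)) {x : E n} (hx : ‖x‖ < 1) :
    ∫ ζ, Pk x ζ * (1 - v ζ) ∂(sig n) = 1 - v x := by
  have := sig_prob n
  have h1 : Integrable (fun ζ => Pk x ζ * v ζ) (sig n) :=
    Pk_int hn hx hm (G := 1) fun ζ hζ => hv1 ζ hζ.le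
  have h2 : Integrable (fun ζ => Pk x ζ) (sig n) := by
    have h := Pk_int hn hx (g := fun _ => (1 : ℝ)) (aestronglyMeasurable_const) (G := 1) fun ζ _ => by simp
    simpa using h
  have h3 : (fun ζ => Pk x ζ * (1 - v ζ)) = fun ζ => Pk x ζ - Pk x ζ * v ζ := by
    funext ζ
    ring
  rw [h3, integral_sub h2 h1, mass_one hn hx, ← poisson hn hv hx]

/-- The unit theorem.  Proof: let `v, m, e` be given; `m ≥ 0` (`|v 0| ≤ m`).  If `m ≥ 1`: `v (b e) ≤ 1 ≤ m^gam`.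
Let `m < 1`, `L = Lq n a b`, `f = 1 - v`, `0 ≤ f ≤ 2` on the sphere; `y = ∫ Pk (a e) f = 1 - v (a e) ≥ 1 - m`
(`poisson`, `mass_one`, integrals by `Pk_int`), `v (b e) = 1 - ∫ Pk (b e) f`.
(B) `m < exp(-L/4)`: `B_final` with the `k` of `g5` and `real3` (`D = 2/(r-b) ≥ 1`, `th = (1/2)^k`).
(A1) otherwise, if `4 p1 ≤ y`: `caseA1` and `real2`.
(A2) otherwise `0 ≤ y < 4 p1`: `caseA2` (`h3` from `g3` by monotonicity of `t^((n-5)/4)`, `h4` from `g4`;
`y ≤ c0^2/4 ≤ 1/2`, `c0 ≤ 1`) and `real1`. -/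
theorem unit_of_good {n : ℕ} {a b : ℝ} (ha : 0 < a) (hab : a < b) (hb : b < 1) (hG : Good n a b) : UnitThm n a b := by
  intro v hv hv1 m hm e he
  have hn : 1 ≤ n := le_trans (by norm_num) hG.n6
  have hb0 : 0 < b := ha.trans hab
  have ha1 : a < 1 := hab.trans hb
  have hm0 : 0 ≤ m := (abs_nonneg _).trans (hm 0 (by rw [norm_zero]; exact ha.le))
  have hg : 0 < gam n a b := gam_pos ha hab hb
  have hna : ‖a • e‖ = a := by
    rw [norm_smul, he, mul_one, Real.norm_eq_abs, abs_of_pos ha]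
  have hnb : ‖b • e‖ = b := by
    rw [norm_smul, he, mul_one, Real.norm_eq_abs, abs_of_pos hb0]
  rcases le_or_gt 1 m with hm1 | hm1
  · exact ((le_abs_self _).trans (hv1 _ (by rw [hnb]; exact hb.le))).trans (Real.one_le_rpow hm1 hg.le)
  have hL4 := hG.L4
  rcases lt_or_ge m (Real.exp (-(Lq n a b / 4))) with hmB | hmA
  · obtain ⟨k, hk1, hk2, hk3⟩ := hG.g5
    refine (B_final hn hv hv1 ha hab hb hm he hk1).trans ?_
    have hth : 0 < (1 / 2 : ℝ) ^ k := by positivity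
    have hr1 : a ^ ((1 / 2 : ℝ) ^ k) ≤ 1 := Real.rpow_le_one ha.le ha1.le hth.le
    refine real3 hm0 hmB (by linarith) hth hg (by linarith) ?_ hk3
    rw [le_div_iff₀ (by linarith)]
    linarith
  · have hvc : ContinuousOn v (closedBall (0 : E n) 1) := fun x hx =>
      ((hv x hx).1.continuousAt).continuousWithinAt
    have hvm : AEStronglyMeasurable v (sig n) := sig_aesm hn hvc
    have hfm : AEStronglyMeasurable (fun ζ => 1 - v ζ) (sig n) := aestronglyMeasurable_const.sub hvm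
    have hf0 : ∀ ζ : E n, ‖ζ‖ = 1 → 0 ≤ 1 - v ζ := fun ζ hζ => by
      have := (abs_le.1 (hv1 ζ hζ.le)).2
      linarith
    have hf2 : ∀ ζ : E n, ‖ζ‖ = 1 → 1 - v ζ ≤ 2 := fun ζ hζ => by
      have := (abs_le.1 (hv1 ζ hζ.le)).1
      linarith
    have hya := T1_one_sub hn hv hv1 hvm (x := a • e) (by rw [hna]; exact ha1)
    have hyb := T1_one_sub hn hv hv1 hvm (x := b • e) (by rw [hnb]; exact hb)
    have hva : v (a • e) ≤ m := (le_abs_self _).trans (hm _ hna.le)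
    have hy : 1 - m ≤ 1 - v (a • e) := by linarith
    rcases le_or_gt (4 * p1 n a) (1 - v (a • e)) with hp | hp
    · have h1 := caseA1 hn ha hab hb he hfm hf0 hf2 (by rw [hya]; exact hp)
      rw [hya, hyb] at h1
      have h2 := real2 hL4 hmA hm1.le hy hg
      linarith
    · have hc0 : 0 ≤ c0 a b := by
        unfold c0
        have : 0 ≤ 1 - a * b := by nlinarith
        have : 0 ≤ (b - a) * (1 - a * b) := mul_nonneg (by linarith) this
        linarith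
      have hc1 : c0 a b ≤ 1 := by
        unfold c0
        have h1 : (b - a) * (1 - a * b) ≤ 1 * 1 :=
          mul_le_mul (by linarith) (by nlinarith) (by nlinarith) (by norm_num)
        linarith
      have hy0 : 0 ≤ 1 - v (a • e) := by linarith
      have hy4 : 1 - v (a • e) ≤ c0 a b ^ 2 / 4 := hp.le.trans hG.g4
      have hcc : c0 a b ^ 2 ≤ 1 := by nlinarith
      have hn6 : (6 : ℝ) ≤ n := by exact_mod_cast hG.n6
      have h3 : 4 * (√3) ^ n * (1 - v (a • e)) ^ (((n : ℝ) - 5) / 4) ≤ 1 := by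
        refine le_trans ?_ hG.g3
        refine mul_le_mul_of_nonneg_left ?_ (by positivity)
        exact Real.rpow_le_rpow hy0 hp.le (by linarith)
      have h1 := caseA2 hG.n6 ha hab hb he hfm hf0 hf2 (by rw [hya]; linarith) (by rw [hya]; exact h3)
        (by rw [hya]; exact hy4)
      rw [hya, hyb] at h1
      have h2 := real1 hy0 (by linarith) hy hg
      linarith

end TB
end

section

namespace TB

open Metric MeasureTheory InnerProductSpace Laplacian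

/-- Upper bounds for the optimal exponent, all `n ≥ 2`.  Proof: `adm_le_gam`, `adm_le_log`, `log_ineq`; `csSup_le` or
`Real.sSup_le` (the bounds are nonnegative; for the second one use the maximum of `0` and the explicit quotient, which is
positive, both `< log (r/R)/log (ρ/R)`). -/
theorem upper {n : ℕ} (hn : 2 ≤ n) {ρ r R : ℝ} (hρ : 0 < ρ) (hr : ρ < r) (hR : r < R) :
    aStar n ρ r R ≤ gam n (ρ / R) (r / R) ∧ aStar n ρ r R < Real.log (r / R) / Real.log (ρ / R) := by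
  have hR0 : 0 < R := by linarith
  have hr0 : 0 < r := by linarith
  have ha : 0 < ρ / R := by positivity
  have hb : r / R < 1 := by rw [div_lt_one hR0]; exact hR
  have hab : ρ / R < r / R := by
    rw [div_lt_div_iff_of_pos_right hR0]
    exact hr
  constructor
  · unfold aStar
    refine Real.sSup_le ?_ (gam_pos ha hab hb).le
    rintro α ⟨h0, h1, hA⟩
    exact adm_le_gam (by omega) hρ hr hR h0 h1 hA
  · have hpos : 0 < Real.log (r / R) / Real.log (ρ / R) :=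
      div_pos_of_neg_of_neg (Real.log_neg (ha.trans hab) hb) (Real.log_neg ha (hab.trans hb))
    have hle : aStar n ρ r R ≤
        max 0 (Real.log ((9 * (r / R) - (r / R) ^ 3) / 8) / Real.log ((9 * (ρ / R) - (ρ / R) ^ 3) / 8)) := by
      unfold aStar
      refine Real.sSup_le ?_ (le_max_left _ _)
      rintro α ⟨h0, h1, hA⟩
      exact (adm_le_log hn hρ hr hR h0 h1 hA).trans (le_max_right _ _)
    exact hle.trans_lt (max_lt hpos (log_ineq ha hab hb))

/-- Proof: `good_eventually` gives `n0` (take the maximum with `2`), `unit_of_good`, `adm_of_unit`; the set of admissible exponents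
in `(0,1)` contains `gam` (`gam_pos`, `gam_lt_one`) and is bounded above by it (`adm_le_gam`): `IsGreatest.csSup_eq`. -/
theorem exact {a b : ℝ} (ha : 0 < a) (hab : a < b) (hb : b < 1) : ∃ n0 : ℕ, ∀ n : ℕ, n0 ≤ n → ∀ R : ℝ, 0 < R →
    aStar n (a * R) (b * R) R = gam n a b ∧ Admissible n (a * R) (b * R) R (gam n a b) := by
  obtain ⟨n0, hn0⟩ := good_eventually ha hab hb
  refine ⟨max n0 2, fun n hn R hR => ?_⟩
  have hn1 : n0 ≤ n := (le_max_left _ _).trans hn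
  have hn2 : 2 ≤ n := (le_max_right _ _).trans hn
  have hA : Admissible n (a * R) (b * R) R (gam n a b) :=
    adm_of_unit ha hab hb hR (unit_of_good ha hab hb (hn0 n hn1))
  refine ⟨?_, hA⟩
  have hG : IsGreatest {α : ℝ | 0 < α ∧ α < 1 ∧ Admissible n (a * R) (b * R) R α} (gam n a b) := by
    refine ⟨⟨gam_pos ha hab hb, gam_lt_one ha hab hb, hA⟩, ?_⟩
    rintro α ⟨h0, h1, hAα⟩
    have h := adm_le_gam (n := n) (by omega) (mul_pos ha hR) (mul_lt_mul_of_pos_right hab hR)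
      (by nlinarith : b * R < R) h0 h1 hAα
    rwa [mul_div_cancel_right₀ _ hR.ne', mul_div_cancel_right₀ _ hR.ne'] at h
  exact hG.csSup_eq

end TB
end
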